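import Mathlib
import Pool.Agent.Lib.P0c8ca5W.T1T2
import Pool.Agent.Lib.P0c8ca5G.FamAll

/-!
# Central extensions of a subgroup, split over a normal subgroup

* `CX p V π W`: `π : K → A` has a central kernel of order prime to `p`, and is injective on the normal subgroup `W`, with image `V`.
* `lf π W g a`: the element of `kK` supported on `W g` over an element `a` of `kA` supported on `V (π g)`.
-/

set_option autoImplicit false

namespace Pool.Agent.Lib.P0c8ca5.Xx

open MonoidAlgebra Ps Bq Zz Hh Gg Un8

universe u v

/-- `π` has a central kernel of order prime to `p`, and is injective on the normal subgroup `W`, with image `V` -/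
structure CX (p : ℕ) {A : Type u} [Group A] {K : Type u} [Group K] (V : Subgroup A) (π : K →* A)
    (W : Subgroup K) : Prop where
  ker : π.ker ≤ Subgroup.center K
  kerp : ¬ p ∣ Nat.card π.ker
  nW : W.Normal
  inj : ∀ s ∈ W, π s = 1 → s = 1
  map : W.map π = V

variable {k : Type v} [Field k] {A : Type u} [Group A] {K : Type u} [Group K]

open Classical in
/-- the element of `kK` supported on `W g` over an element of `kA` supported on `V (π g)` -/
noncomputable def lf [Finite K] (π : K →* A) (W : Subgroup K) (g : K) (a : MonoidAlgebra k A) :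
    MonoidAlgebra k K :=
  MonoidAlgebra.ofCoeff (Finsupp.equivFunOnFinite.symm fun s =>
    if s * g⁻¹ ∈ W then a.coeff (π s) else 0)

variable [Finite K] {π : K →* A} {W : Subgroup K}

theorem coeff_lf (g : K) (a : MonoidAlgebra k A) {s : K} (hs : s * g⁻¹ ∈ W) :
    (lf π W g a).coeff s = a.coeff (π s) := by
  classical
  rw [lf, coeff_ofCoeff, Finsupp.equivFunOnFinite_symm_apply_apply, if_pos hs]

theorem coeff_lf_of_notMem (g : K) (a : MonoidAlgebra k A) {s : K} (hs : s * g⁻¹ ∉ W) :
    (lf π W g a).coeff s = 0 := by
  classical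
  rw [lf, coeff_ofCoeff, Finsupp.equivFunOnFinite_symm_apply_apply, if_neg hs]

theorem lf_supp {g : K} {a : MonoidAlgebra k A} :
    ∀ s, (lf π W g a).coeff s ≠ 0 → s * g⁻¹ ∈ W := by
  intro s hs
  by_contra h
  exact hs (coeff_lf_of_notMem g a h)

end Pool.Agent.Lib.P0c8ca5.Xx
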