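import Mathlib
import Pool.Agent.Lib.P0c8ca5X.Defs

/-!
# Module LfA: subgroups and elements over `V (π g)`
-/

set_option autoImplicit false

namespace Pool.Agent.Lib.P0c8ca5.Xx

open MonoidAlgebra Ps Bq Zz Hh Gg Un8

universe u v

variable {p : ℕ} {k : Type v} [Field k] {A : Type u} [Group A] {K : Type u} [Group K]
  {V : Subgroup A} {π : K →* A} {W : Subgroup K}

section grp

theorem CX.mem (h : CX p V π W) {s : K} (hs : s ∈ W) : π s ∈ V := by
  rw [← h.map]
  exact Subgroup.mem_map_of_mem π hs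

theorem CX.exists_mem (h : CX p V π W) {v : A} (hv : v ∈ V) : ∃ s ∈ W, π s = v := by
  rw [← h.map] at hv
  exact hv

theorem CX.eq_of (h : CX p V π W) {s t : K} (hs : s * t⁻¹ ∈ W) (hst : π s = π t) : s = t := by
  have h1 := h.inj _ hs (by rw [map_mul, map_inv, hst, mul_inv_cancel])
  exact mul_inv_eq_one.1 h1

theorem CX.exists_coset (h : CX p V π W) (g : K) {v : A} (hv : v * (π g)⁻¹ ∈ V) :
    ∃ s, s * g⁻¹ ∈ W ∧ π s = v := by
  obtain ⟨s, hs, h1⟩ := h.exists_mem hv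
  refine ⟨s * g, by rwa [mul_inv_cancel_right], ?_⟩
  rw [map_mul, h1, inv_mul_cancel_right]

theorem CX.norm (h : CX p V π W) (g : K) : π g ∈ Subgroup.normalizer (V : Set A) := by
  have key : ∀ g : K, ∀ v ∈ V, π g * v * (π g)⁻¹ ∈ V := by
    intro g v hv
    obtain ⟨s, hs, rfl⟩ := h.exists_mem hv
    rw [← map_mul, ← map_inv, ← map_mul]
    exact h.mem (h.nW.conj_mem s hs g)
  rw [Subgroup.mem_normalizer_iff]
  intro v
  constructor
  · exact key g v
  · intro hv
    have h1 := key g⁻¹ _ hv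
    have e : π g⁻¹ * (π g * v * (π g)⁻¹) * (π g⁻¹)⁻¹ = v := by
      rw [map_inv]
      group
    rwa [e] at h1

/-- the subgroup of `W` over a subgroup of `V` -/
theorem CX.exists_sub (h : CX p V π W) {P : Subgroup A} (hP : P ≤ V) :
    ∃ Q ≤ W, Q.map π = P := by
  refine ⟨W ⊓ P.comap π, inf_le_left, le_antisymm ?_ ?_⟩
  · rintro _ ⟨s, hs, rfl⟩
    exact hs.2
  · intro v hv
    obtain ⟨s, hs, rfl⟩ := h.exists_mem (hP hv)
    exact ⟨s, ⟨hs, hv⟩, rfl⟩

theorem CX.mem_map (h : CX p V π W) {Q : Subgroup K} (hQ : Q ≤ W) {s : K} (hs : s ∈ W) :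
    π s ∈ Q.map π ↔ s ∈ Q := by
  constructor
  · rintro ⟨t, ht, h1⟩
    have h2 : t = s := h.eq_of (W.mul_mem (hQ ht) (W.inv_mem hs)) h1
    rwa [← h2]
  · exact Subgroup.mem_map_of_mem π

theorem CX.map_inj (h : CX p V π W) {P Q : Subgroup K} (hP : P ≤ W) (hQ : Q ≤ W) :
    P.map π ≤ Q.map π ↔ P ≤ Q := by
  constructor
  · intro h1 s hs
    exact (h.mem_map hQ (hP hs)).1 (h1 (Subgroup.mem_map_of_mem π hs))
  · exact Subgroup.map_mono

theorem CX.map_le (h : CX p V π W) {P : Subgroup K} (hP : P ≤ W) : P.map π ≤ V := by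
  rw [← h.map]
  exact Subgroup.map_mono hP

theorem CX.map_pgroup (h : CX p V π W) {P : Subgroup K} (hP : P ≤ W) :
    IsPGroup p (P.map π) ↔ IsPGroup p P := by
  constructor
  · intro h1 s
    obtain ⟨n, hn⟩ := h1 ⟨π s, Subgroup.mem_map_of_mem π s.2⟩
    refine ⟨n, Subtype.ext ?_⟩
    have h2 := congrArg Subtype.val hn
    apply h.inj _ (hP (P.pow_mem s.2 _))
    rw [map_pow]
    exact h2
  · exact fun h1 => h1.map π

theorem CX.map_eq_bot (h : CX p V π W) {P : Subgroup K} (hP : P ≤ W) :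
    P.map π = ⊥ ↔ P = ⊥ := by
  constructor
  · intro h1
    rw [eq_bot_iff]
    intro s hs
    apply h.inj s (hP hs)
    have h2 := Subgroup.mem_map_of_mem π hs
    rwa [h1, Subgroup.mem_bot] at h2
  · rintro rfl
    exact Subgroup.map_bot π

theorem CX.map_ne_bot (h : CX p V π W) {P : Subgroup K} (hP : P ≤ W) :
    P.map π = ⊥ ↔ P = ⊥ := h.map_eq_bot hP

theorem CX.normalizer (h : CX p V π W) {P : Subgroup K} (hP : P ≤ W) (g : K) :
    g ∈ Subgroup.normalizer (P : Set K) ↔ π g ∈ Subgroup.normalizer (P.map π : Set A) := by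
  have hc : ∀ s ∈ W, ∀ g : K, g * s * g⁻¹ ∈ W := fun s hs g => h.nW.conj_mem s hs g
  constructor
  · intro hg
    rw [Subgroup.mem_normalizer_iff] at hg ⊢
    intro v
    constructor
    · rintro ⟨s, hs, rfl⟩
      exact ⟨g * s * g⁻¹, (hg s).1 hs, by rw [map_mul, map_mul, map_inv]⟩
    · rintro ⟨s, hs, h1⟩
      refine ⟨g⁻¹ * s * g, ?_, ?_⟩
      · rw [SetLike.mem_coe, hg]
        have e : g * (g⁻¹ * s * g) * g⁻¹ = s := by group
        rwa [e]
      · rw [map_mul, map_mul, map_inv, h1]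
        group
  · intro hg
    rw [Subgroup.mem_normalizer_iff] at hg ⊢
    intro s
    constructor
    · intro hs
      rw [← h.mem_map hP (hc s (hP hs) g), map_mul, map_mul, map_inv]
      exact (hg _).1 (Subgroup.mem_map_of_mem π hs)
    · intro hs
      have hsW : s ∈ W := by
        have h1 := hc _ (hP hs) g⁻¹
        have e : g⁻¹ * (g * s * g⁻¹) * g⁻¹⁻¹ = s := by group
        rwa [e] at h1
      rw [← h.mem_map hP hsW, hg, ← map_inv, ← map_mul, ← map_mul]
      exact Subgroup.mem_map_of_mem π hs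

theorem CX.centralizer (h : CX p V π W) {P : Subgroup K} (hP : P ≤ W) (g : K) :
    g ∈ Subgroup.centralizer (P : Set K) ↔ π g ∈ Subgroup.centralizer (P.map π : Set A) := by
  rw [Subgroup.mem_centralizer_iff, Subgroup.mem_centralizer_iff]
  constructor
  · rintro h1 _ ⟨s, hs, rfl⟩
    rw [← map_mul, h1 s hs, map_mul]
  · intro h1 s hs
    have h2 := h1 (π s) (Subgroup.mem_map_of_mem π hs)
    apply h.eq_of (t := g * s) ?_ (by rw [map_mul, map_mul, h2])
    have e : s * g * (g * s)⁻¹ = s * (g * s⁻¹ * g⁻¹) := by group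
    rw [e]
    exact W.mul_mem (hP hs) (h.nW.conj_mem _ (W.inv_mem (hP hs)) g)

end grp

section alg

variable [Finite K]

theorem lf_eq_zero_of (g : K) {u : MonoidAlgebra k A} {s : K} (h : u.coeff (π s) = 0) :
    (lf π W g u).coeff s = 0 := by
  by_cases hs : s * g⁻¹ ∈ W
  · rw [coeff_lf g u hs, h]
  · exact coeff_lf_of_notMem g u hs

/-- a product -/
theorem lf_mul [Finite A] (h : CX p V π W) {g g' : K} {u v : MonoidAlgebra k A}
    (hu : ∀ z, u.coeff z ≠ 0 → z * (π g)⁻¹ ∈ V) (hv : ∀ z, v.coeff z ≠ 0 → z * (π g')⁻¹ ∈ V) :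
    lf π W g u * lf π W g' v = lf π W (g * g') (u * v) := by
  classical
  have : Fintype K := Fintype.ofFinite K
  have : Fintype A := Fintype.ofFinite A
  have hnn : ∀ z : K, z ∈ Subgroup.normalizer (W : Set K) := by
    intro z
    rw [Subgroup.normalizer_eq_top_iff.2 h.nW]
    exact Subgroup.mem_top z
  ext s
  by_cases hs : s * (g * g')⁻¹ ∈ W
  · rw [coeff_lf _ _ hs, coeff_mul_fin, coeff_mul_fin]
    -- the terms with `t * g⁻¹ ∈ W`
    have h1 : ∑ t : K, (lf π W g u).coeff t * (lf π W g' v).coeff (t⁻¹ * s)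
        = ∑ t ∈ Finset.univ.filter (fun t : K => t * g⁻¹ ∈ W),
          u.coeff (π t) * v.coeff ((π t)⁻¹ * π s) := by
      rw [Finset.sum_filter]
      refine Finset.sum_congr rfl fun t _ => ?_
      by_cases ht : t * g⁻¹ ∈ W
      · rw [if_pos ht, coeff_lf _ _ ht, coeff_lf _ _ ?_, map_mul, map_inv]
        have h2 := (Subgroup.mem_normalizer_iff.1 (hnn g⁻¹) _).1 (W.mul_mem (W.inv_mem ht) hs)
        have e : g⁻¹ * ((t * g⁻¹)⁻¹ * (s * (g * g')⁻¹)) * g⁻¹⁻¹ = t⁻¹ * s * g'⁻¹ := by group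
        rwa [e] at h2
      · rw [if_neg ht, coeff_lf_of_notMem _ _ ht, zero_mul]
    have h2 : ∑ t : A, u.coeff t * v.coeff (t⁻¹ * π s)
        = ∑ t ∈ Finset.univ.filter (fun t : A => t * (π g)⁻¹ ∈ V),
          u.coeff t * v.coeff (t⁻¹ * π s) := by
      rw [Finset.sum_filter]
      refine Finset.sum_congr rfl fun t _ => ?_
      by_cases ht : t * (π g)⁻¹ ∈ V
      · rw [if_pos ht]
      · rw [if_neg ht]
        by_contra h3
        exact ht (hu t (left_ne_zero_of_mul h3))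
    rw [h1, h2]
    refine Finset.sum_bij (fun t _ => π t) ?_ ?_ ?_ ?_
    · intro t ht
      rw [Finset.mem_filter] at ht ⊢
      refine ⟨Finset.mem_univ _, ?_⟩
      rw [← map_inv, ← map_mul]
      exact h.mem ht.2
    · intro t ht t' ht' h3
      rw [Finset.mem_filter] at ht ht'
      apply h.eq_of ?_ h3
      have e : t * t'⁻¹ = t * g⁻¹ * (t' * g⁻¹)⁻¹ := by group
      rw [e]
      exact W.mul_mem ht.2 (W.inv_mem ht'.2)
    · intro t ht
      rw [Finset.mem_filter] at ht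
      obtain ⟨s', hs', h3⟩ := h.exists_coset g ht.2
      exact ⟨s', Finset.mem_filter.2 ⟨Finset.mem_univ _, hs'⟩, h3⟩
    · intro t _
      rfl
  · rw [coeff_lf_of_notMem _ _ hs, coeff_mul_fin]
    refine Finset.sum_eq_zero fun t _ => ?_
    by_contra h3
    apply hs
    have h4 := lf_supp t (left_ne_zero_of_mul h3)
    have h5 := lf_supp (t⁻¹ * s) (right_ne_zero_of_mul h3)
    have h6 := W.mul_mem h4 ((Subgroup.mem_normalizer_iff.1 (hnn g) _).1 h5)
    have e : t * g⁻¹ * (g * (t⁻¹ * s * g'⁻¹) * g⁻¹) = s * (g * g')⁻¹ := by group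
    rwa [e] at h6

theorem lf_congr (_h : CX p V π W) {g g' : K} (hg : g * g'⁻¹ ∈ W) (u : MonoidAlgebra k A) :
    lf π W g u = lf π W g' u := by
  ext s
  by_cases hs : s * g⁻¹ ∈ W
  · have h1 : s * g'⁻¹ ∈ W := by
      have e : s * g'⁻¹ = s * g⁻¹ * (g * g'⁻¹) := by group
      rw [e]
      exact W.mul_mem hs hg
    rw [coeff_lf _ _ hs, coeff_lf _ _ h1]
  · have h1 : s * g'⁻¹ ∉ W := by
      intro h1
      apply hs
      have e : s * g⁻¹ = s * g'⁻¹ * (g * g'⁻¹)⁻¹ := by group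
      rw [e]
      exact W.mul_mem h1 (W.inv_mem hg)
    rw [coeff_lf_of_notMem _ _ hs, coeff_lf_of_notMem _ _ h1]

theorem lf_cj (h : CX p V π W) (s g : K) (u : MonoidAlgebra k A) :
    cj s (lf π W g u) = lf π W (s * g * s⁻¹) (cj (π s) u) := by
  ext z
  rw [coeff_cj]
  have key : s⁻¹ * z * s * g⁻¹ ∈ W ↔ z * (s * g * s⁻¹)⁻¹ ∈ W := by
    have e : z * (s * g * s⁻¹)⁻¹ = s * (s⁻¹ * z * s * g⁻¹) * s⁻¹ := by group
    constructor
    · intro h1
      rw [e]
      exact h.nW.conj_mem _ h1 s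
    · intro h1
      rw [e] at h1
      have h2 := h.nW.conj_mem _ h1 s⁻¹
      have e' : s⁻¹ * (s * (s⁻¹ * z * s * g⁻¹) * s⁻¹) * s⁻¹⁻¹ = s⁻¹ * z * s * g⁻¹ := by group
      rwa [e'] at h2
  by_cases hz : s⁻¹ * z * s * g⁻¹ ∈ W
  · rw [coeff_lf _ _ hz, coeff_lf _ _ (key.1 hz), coeff_cj, map_mul π, map_mul π, map_inv π]
  · rw [coeff_lf_of_notMem _ _ hz, coeff_lf_of_notMem _ _ (fun h1 => hz (key.2 h1))]

theorem lf_inv (h : CX p V π W) (g : K) {u : MonoidAlgebra k A} (hu : InvBy V u) :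
    InvBy W (lf π W g u) := by
  rw [invBy_iff_cj] at hu ⊢
  intro s hs
  rw [lf_cj h, hu _ (h.mem hs)]
  apply lf_congr h
  have e : s * g * s⁻¹ * g⁻¹ = s * (g * s⁻¹ * g⁻¹) := by group
  rw [e]
  exact W.mul_mem hs (h.nW.conj_mem _ (W.inv_mem hs) g)

/-- every element supported on `W g` is over an element supported on `V (π g)` -/
theorem lf_surj [Finite A] (h : CX p V π W) (g : K) {a : MonoidAlgebra k K}
    (ha : ∀ z, a.coeff z ≠ 0 → z * g⁻¹ ∈ W) : ∃ u : MonoidAlgebra k A,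
      (∀ z, u.coeff z ≠ 0 → z * (π g)⁻¹ ∈ V) ∧ lf π W g u = a := by
  classical
  let F : A → k := fun z => if hz : z * (π g)⁻¹ ∈ V then
    a.coeff (h.exists_coset g hz).choose else 0
  obtain ⟨u, hu⟩ : ∃ u : MonoidAlgebra k A, ∀ z, u.coeff z = F z := by
    refine ⟨MonoidAlgebra.ofCoeff (Finsupp.equivFunOnFinite.symm F), fun z => ?_⟩
    rw [coeff_ofCoeff, Finsupp.equivFunOnFinite_symm_apply_apply]
  refine ⟨u, fun z hz => ?_, ?_⟩
  · by_contra h1
    apply hz
    rw [hu]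
    exact dif_neg h1
  · ext s
    by_cases hs : s * g⁻¹ ∈ W
    · rw [coeff_lf _ _ hs, hu]
      have h1 : π s * (π g)⁻¹ ∈ V := by
        rw [← map_inv, ← map_mul]
        exact h.mem hs
      have h2 : F (π s) = a.coeff (h.exists_coset g h1).choose := dif_pos h1
      rw [h2]
      obtain ⟨h3, h4⟩ := (h.exists_coset g h1).choose_spec
      congr 1
      apply h.eq_of ?_ h4
      have e : (h.exists_coset g h1).choose * s⁻¹
          = (h.exists_coset g h1).choose * g⁻¹ * (s * g⁻¹)⁻¹ := by group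
      rw [e]
      exact W.mul_mem h3 (W.inv_mem hs)
    · rw [coeff_lf_of_notMem _ _ hs]
      by_contra h1
      exact hs (ha s (Ne.symm h1))

theorem lf_inj (h : CX p V π W) {g : K} {u v : MonoidAlgebra k A}
    (hu : ∀ z, u.coeff z ≠ 0 → z * (π g)⁻¹ ∈ V) (hv : ∀ z, v.coeff z ≠ 0 → z * (π g)⁻¹ ∈ V)
    (he : lf π W g u = lf π W g v) : u = v := by
  ext z
  by_cases hz : z * (π g)⁻¹ ∈ V
  · obtain ⟨s, hs, rfl⟩ := h.exists_coset g hz
    rw [← coeff_lf g u hs, ← coeff_lf g v hs, he]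
  · have h1 : u.coeff z = 0 := by
      by_contra h1
      exact hz (hu z h1)
    have h2 : v.coeff z = 0 := by
      by_contra h2
      exact hz (hv z h2)
    rw [h1, h2]

theorem cj_supp' {N : Subgroup A} {x g : A} (hx : x ∈ N) (hg : g ∈ Subgroup.normalizer (N : Set A))
    {u : MonoidAlgebra k A} (hu : ∀ z, u.coeff z ≠ 0 → z * g⁻¹ ∈ N) :
    ∀ z, (cj x u).coeff z ≠ 0 → z * g⁻¹ ∈ N := by
  intro z hz
  rw [coeff_cj] at hz
  have h1 := hu _ hz
  have h2 := N.mul_mem (N.mul_mem hx h1)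
    ((Subgroup.mem_normalizer_iff.1 hg _).1 (N.inv_mem hx))
  have e : x * (x⁻¹ * z * x * g⁻¹) * (g * x⁻¹ * g⁻¹) = z * g⁻¹ := by group
  rwa [e] at h2

theorem lf_inv_iff (h : CX p V π W) (g : K) {u : MonoidAlgebra k A}
    (hu : ∀ z, u.coeff z ≠ 0 → z * (π g)⁻¹ ∈ V) : InvBy W (lf π W g u) ↔ InvBy V u := by
  constructor
  · intro h1
    rw [invBy_iff_cj] at h1 ⊢
    intro v hv
    obtain ⟨s, hs, rfl⟩ := h.exists_mem hv
    refine lf_inj h (cj_supp' hv (h.norm g) hu) hu ?_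
    have h2 := h1 s hs
    rw [lf_cj h] at h2
    rw [← h2]
    apply lf_congr h
    have e : g * (s * g * s⁻¹)⁻¹ = g * s * g⁻¹ * s⁻¹ := by group
    rw [e]
    exact W.mul_mem (h.nW.conj_mem _ hs g) (W.inv_mem hs)
  · exact lf_inv h g

theorem lf_add (g : K) (u v : MonoidAlgebra k A) :
    lf π W g (u + v) = lf π W g u + lf π W g v := by
  ext s
  by_cases hs : s * g⁻¹ ∈ W
  · rw [coeff_lf _ _ hs, coeff_add, coeff_add, Finsupp.add_apply, Finsupp.add_apply,
      coeff_lf _ _ hs, coeff_lf _ _ hs]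
  · rw [coeff_lf_of_notMem _ _ hs, coeff_add, Finsupp.add_apply,
      coeff_lf_of_notMem _ _ hs, coeff_lf_of_notMem _ _ hs, add_zero]

theorem lf_smul (g : K) (t : k) (u : MonoidAlgebra k A) :
    lf π W g (t • u) = t • lf π W g u := by
  ext s
  by_cases hs : s * g⁻¹ ∈ W
  · rw [coeff_lf _ _ hs, coeff_smul, coeff_smul, Finsupp.smul_apply, Finsupp.smul_apply,
      coeff_lf _ _ hs]
  · rw [coeff_lf_of_notMem _ _ hs, coeff_smul, Finsupp.smul_apply,
      coeff_lf_of_notMem _ _ hs, smul_zero]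

theorem lf_zero (g : K) : lf π W g (0 : MonoidAlgebra k A) = 0 := by
  ext s
  rw [lf_eq_zero_of g (by rw [coeff_zero, Finsupp.zero_apply]), coeff_zero, Finsupp.zero_apply]

theorem lf_single (h : CX p V π W) (g : K) (t : k) :
    lf π W g (single (π g) t) = single g t := by
  classical
  ext s
  by_cases hs : s * g⁻¹ ∈ W
  · rw [coeff_lf _ _ hs, coeff_single, coeff_single, Finsupp.single_apply, Finsupp.single_apply]
    by_cases h1 : g = s
    · rw [if_pos h1, if_pos (by rw [h1])]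
    · rw [if_neg h1, if_neg]
      intro h2
      exact h1 (h.eq_of hs h2.symm).symm
  · rw [coeff_lf_of_notMem _ _ hs, coeff_single, Finsupp.single_apply, if_neg]
    rintro rfl
    exact hs (by rw [mul_inv_cancel]; exact W.one_mem)

theorem lf_cS (h : CX p V π W) {P : Subgroup K} (hP : P ≤ W) (g : K) (u : MonoidAlgebra k A) :
    cS P (lf π W g u) = lf π W g (cS (P.map π) u) := by
  ext s
  by_cases hs : s ∈ (Subgroup.centralizer (P : Set K) : Set K)
  · have hs' : π s ∈ (Subgroup.centralizer (P.map π : Set A) : Set A) :=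
      (h.centralizer hP s).1 hs
    rw [coeff_resS_of_mem _ hs]
    by_cases hg : s * g⁻¹ ∈ W
    · rw [coeff_lf _ _ hg, coeff_lf _ _ hg, coeff_resS_of_mem _ hs']
    · rw [coeff_lf_of_notMem _ _ hg, coeff_lf_of_notMem _ _ hg]
  · have hs' : π s ∉ (Subgroup.centralizer (P.map π : Set A) : Set A) :=
      fun h1 => hs ((h.centralizer hP s).2 h1)
    rw [coeff_resS_of_notMem _ hs]
    exact (lf_eq_zero_of g (coeff_resS_of_notMem _ hs')).symm

end alg

end Pool.Agent.Lib.P0c8ca5.Xx
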