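import Mathlib
import Pool.Agent.Lib.P0c8ca5X.LfA

/-!
# Module LfB: the block of `W` over a block of `V`, and the inner elements
-/

set_option autoImplicit false

namespace Pool.Agent.Lib.P0c8ca5.Xx

open MonoidAlgebra Ps Bq Zz Hh Gg Un8

universe u v

variable {p : ℕ} {k : Type v} [Field k] {A : Type u} [Group A] {K : Type u} [Group K]
  {V : Subgroup A} {π : K →* A} {W : Subgroup K} [Finite K] [Finite A] {c : MonoidAlgebra k A}

theorem supp_one {u : MonoidAlgebra k A} (hu : SuppIn V u) :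
    ∀ z, u.coeff z ≠ 0 → z * (π 1)⁻¹ ∈ V := by
  intro z hz
  rw [map_one, inv_one, mul_one]
  exact hu z hz

theorem supp_one' {u : MonoidAlgebra k A} (hu : ∀ z, u.coeff z ≠ 0 → z * (π 1)⁻¹ ∈ V) :
    SuppIn V u := by
  intro z hz
  have h1 := hu z hz
  rwa [map_one, inv_one, mul_one] at h1

theorem lf_suppIn {a : MonoidAlgebra k A} : SuppIn W (lf π W 1 a) := by
  intro s hs
  have h1 := lf_supp s hs
  rwa [inv_one, mul_one] at h1

theorem lf_mul_one (h : CX p V π W) {u v : MonoidAlgebra k A} (hu : SuppIn V u)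
    (hv : SuppIn V v) : lf π W 1 u * lf π W 1 v = lf π W 1 (u * v) := by
  rw [lf_mul h (supp_one hu) (supp_one hv), mul_one]

theorem lf_block (h : CX p V π W) (hc : IsBlock V c) : IsBlock W (lf π W 1 c) where
  mem := mem_fixAlg.2 ⟨lf_suppIn, lf_inv h 1 hc.invBy⟩
  idem := by rw [lf_mul_one h hc.suppIn hc.suppIn, hc.idem]
  ne_zero := fun h0 => hc.ne_zero (lf_inj h (supp_one hc.suppIn)
    (fun z hz => absurd (by rw [coeff_zero, Finsupp.zero_apply]) hz) (by rw [h0, lf_zero]))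
  prim := fun f hf hff hfe => by
    obtain ⟨hfs, hfi⟩ := mem_fixAlg.1 hf
    obtain ⟨u, hu, rfl⟩ := lf_surj h 1 (a := f) (fun z hz => by
      rw [inv_one, mul_one]
      exact hfs z hz)
    have hus := supp_one' hu
    have hui := (lf_inv_iff h 1 hu).1 hfi
    have h1 : u * u = u := by
      apply lf_inj h (supp_one (hus.mul hus)) hu
      rw [← lf_mul_one h hus hus, hff]
    have h2 : u * c = u := by
      apply lf_inj h (supp_one (hus.mul hc.suppIn)) hu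
      rw [← lf_mul_one h hus hc.suppIn, hfe]
    rcases hc.prim u (mem_fixAlg.2 ⟨hus, hui⟩) h1 h2 with h3 | h3
    · left
      rw [h3, lf_zero]
    · right
      rw [h3]

theorem lf_uh (h : CX p V π W) (hc : UH V ⊤ c) : UH W ⊤ (lf π W 1 c) := by
  refine ⟨le_top, by rw [Subgroup.normalizer_eq_top_iff.2 h.nW], lf_block h hc.blk, ?_⟩
  rw [invBy_iff_cj]
  intro g _
  rw [lf_cj h, invBy_iff_cj.1 hc.inv _ (Subgroup.mem_top _)]
  apply lf_congr h
  have e : g * 1 * g⁻¹ * (1 : K)⁻¹ = 1 := by group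
  rw [e]
  exact W.one_mem

theorem lf_hasBr (h : CX p V π W) (hc : SuppIn V c) {P : Subgroup K} (hP : P ≤ W) :
    HasBr P (lf π W 1 c) ↔ HasBr (P.map π) c := by
  constructor
  · rintro ⟨x, hx, hcx⟩
    have hxW : x * (1 : K)⁻¹ ∈ W := lf_supp x hcx
    rw [coeff_lf _ _ hxW] at hcx
    exact ⟨π x, (h.centralizer hP x).1 hx, hcx⟩
  · rintro ⟨z, hz, hcz⟩
    obtain ⟨s, hs, rfl⟩ := h.exists_mem (hc z hcz)
    refine ⟨s, (h.centralizer hP s).2 hz, ?_⟩
    rw [coeff_lf _ _ (by rwa [inv_one, mul_one])]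
    exact hcz

theorem lf_up (h : CX p V π W) (hc : UH V ⊤ c) (g : K) {u v : MonoidAlgebra k A}
    (huv : UP V c (π g) u v) : UP W (lf π W 1 c) g (lf π W g u) (lf π W g⁻¹ v) := by
  have hcs := supp_one (π := π) hc.blk.suppIn
  have hv : ∀ z, v.coeff z ≠ 0 → z * (π g⁻¹)⁻¹ ∈ V := by
    intro z hz
    rw [map_inv, inv_inv]
    exact huv.sv z hz
  refine ⟨lf_supp, fun z hz => ?_, lf_inv h g huv.iu, lf_inv h g⁻¹ huv.iv, ?_, ?_, ?_, ?_⟩
  · have h1 := lf_supp z hz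
    rwa [inv_inv] at h1
  · rw [lf_mul h huv.su hcs, mul_one, huv.uc]
  · rw [lf_mul h hv hcs, mul_one, huv.vc]
  · rw [lf_mul h huv.su hv, mul_inv_cancel, huv.uv]
  · rw [lf_mul h hv huv.su, inv_mul_cancel, huv.vu]

theorem up_lf (h : CX p V π W) (hc : UH V ⊤ c) (g : K) {u v : MonoidAlgebra k K}
    (huv : UP W (lf π W 1 c) g u v) : ∃ u' v' : MonoidAlgebra k A, UP V c (π g) u' v' ∧
      lf π W g u' = u ∧ lf π W g⁻¹ v' = v := by
  have hcs := supp_one (π := π) hc.blk.suppIn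
  obtain ⟨u', hu', rfl⟩ := lf_surj h g (a := u) huv.su
  obtain ⟨v', hv', rfl⟩ := lf_surj h g⁻¹ (a := v) (fun z hz => by
    rw [inv_inv]
    exact huv.sv z hz)
  have hv2 : ∀ z, v'.coeff z ≠ 0 → z * π g ∈ V := by
    intro z hz
    have h1 := hv' z hz
    rwa [map_inv, inv_inv] at h1
  have n1 := h.norm g
  have n2 := h.norm g⁻¹
  have s1 : ∀ z, (u' * c).coeff z ≠ 0 → z * (π g)⁻¹ ∈ V := by
    have h1 := coset_mul n1 hu' hcs
    rwa [← map_mul, mul_one] at h1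
  have s2 : ∀ z, (v' * c).coeff z ≠ 0 → z * (π g⁻¹)⁻¹ ∈ V := by
    have h1 := coset_mul n2 hv' hcs
    rwa [← map_mul, mul_one] at h1
  have s3 : ∀ z, (u' * v').coeff z ≠ 0 → z * (π 1)⁻¹ ∈ V := by
    have h1 := coset_mul n1 hu' hv'
    rwa [← map_mul, mul_inv_cancel] at h1
  have s4 : ∀ z, (v' * u').coeff z ≠ 0 → z * (π 1)⁻¹ ∈ V := by
    have h1 := coset_mul n2 hv' hu'
    rwa [← map_mul, inv_mul_cancel] at h1
  refine ⟨u', v', ⟨hu', hv2, (lf_inv_iff h g hu').1 huv.iu, (lf_inv_iff h g⁻¹ hv').1 huv.iv,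
    ?_, ?_, ?_, ?_⟩, rfl, rfl⟩
  · apply lf_inj h s1 hu'
    have h1 := huv.uc
    rwa [lf_mul h hu' hcs, mul_one] at h1
  · apply lf_inj h s2 hv'
    have h1 := huv.vc
    rwa [lf_mul h hv' hcs, mul_one] at h1
  · apply lf_inj h s3 hcs
    have h1 := huv.uv
    rwa [lf_mul h hu' hv', mul_inv_cancel] at h1
  · apply lf_inj h s4 hcs
    have h1 := huv.vu
    rwa [lf_mul h hv' hu', inv_mul_cancel] at h1

theorem unt_lf (h : CX p V π W) (hc : UH V ⊤ c) (hW : UH W ⊤ (lf π W 1 c)) :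
    hW.unt = hc.unt.comap π := by
  ext g
  rw [Subgroup.mem_comap, hW.mem_unt, hc.mem_unt]
  constructor
  · rintro ⟨-, u, v, huv⟩
    obtain ⟨u', v', h1, -⟩ := up_lf h hc g huv
    exact ⟨Subgroup.mem_top _, u', v', h1⟩
  · rintro ⟨-, u, v, huv⟩
    exact ⟨Subgroup.mem_top _, _, _, lf_up h hc g huv⟩

end Pool.Agent.Lib.P0c8ca5.Xx
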