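import Mathlib
import Pool.Agent.Lib.P0c8ca5X.LfB

/-!
# Module Bs: an invariant block over the twisted group

PROOF of `exists_bs`.  `N = hw.unt = hc.unt.comap π`.  For `a` in `(kN)^W`, `a = ∑ a_q` over the cosets `q = W s`, `a_q = lf π W s u_q` (`lf_surj`), `u_q` in
`(kM)^V`, `M = hc.unt`, and `φ u_q` is an intertwiner of `π s` (`u_q z = cj (π s) z u_q` for `z` in `(kM)^V`), so `φ u_q = t_q • X s` (Schur,
`CR.schur`; `X s` is invertible).  `λ a = ∑ t_q` is a homomorphism of algebras `(kN)^W → k`, `λ (lf π W 1 c) = 1` and `λ (cj s a) = λ a` for all `s` in `K`.  The block `e`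
of `N` with `λ e = 1` and `e c = e` is `K`-invariant, as different blocks of `N` are orthogonal.
-/

set_option autoImplicit false

namespace Pool.Agent.Lib.P0c8ca5.Xx

open MonoidAlgebra Ps Bq Zz Hh Gg Un8

universe u v

variable {p : ℕ} {k : Type v} [Field k] {A : Type u} [Group A] {K : Type u} [Group K]
  {V : Subgroup A} {π : K →* A} {W : Subgroup K}

namespace BsAux

/-- the homomorphism of group algebras of `π` -/
noncomputable def mp (π : K →* A) : MonoidAlgebra k K →ₐ[k] MonoidAlgebra k A :=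
  MonoidAlgebra.mapDomainAlgHom k k π

theorem mp_single (s : K) (t : k) : mp π (single s t) = single (π s) t :=
  MonoidAlgebra.mapDomain_single

theorem mp_cj (s : K) (a : MonoidAlgebra k K) : mp π (cj s a) = cj (π s) (mp π a) := by
  rw [cj, cj, map_mul, map_mul, mp_single, mp_single, map_inv]

open Classical in
theorem coeff_mp [Fintype K] (a : MonoidAlgebra k K) (x : A) :
    (mp π a).coeff x = ∑ z : K, if π z = x then a.coeff z else 0 := by
  have h1 : (mp π a).coeff = Finsupp.mapDomain π a.coeff := rfl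
  rw [h1, Finsupp.mapDomain, Finsupp.sum_apply, Finsupp.sum_fintype _ _ (fun i => by simp)]
  refine Finset.sum_congr rfl fun z _ => ?_
  rw [Finsupp.single_apply]

theorem supp_mp [Fintype K] {a : MonoidAlgebra k K} {x : A} (h : (mp π a).coeff x ≠ 0) :
    ∃ z, a.coeff z ≠ 0 ∧ π z = x := by
  classical
  rw [coeff_mp] at h
  obtain ⟨z, -, hz⟩ := Finset.exists_ne_zero_of_sum_ne_zero h
  by_cases h1 : π z = x
  · rw [if_pos h1] at hz
    exact ⟨z, hz, h1⟩
  · rw [if_neg h1] at hz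
    exact absurd rfl hz

theorem mp_lf [Fintype K] (h : CX p V π W) {c : MonoidAlgebra k A} (hc : SuppIn V c) :
    mp π (lf π W 1 c) = c := by
  classical
  ext x
  rw [coeff_mp]
  by_cases hx : x ∈ V
  · obtain ⟨w, hw, rfl⟩ := h.exists_mem hx
    rw [Finset.sum_eq_single w]
    · rw [if_pos rfl, coeff_lf]
      rw [inv_one, mul_one]
      exact hw
    · intro z _ hz
      by_cases h1 : π z = π w
      · rw [if_pos h1]
        apply coeff_lf_of_notMem
        intro h2
        rw [inv_one, mul_one] at h2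
        refine hz ?_
        have h3 := h.inj (z * w⁻¹) (W.mul_mem h2 (W.inv_mem hw))
          (by rw [map_mul, map_inv, h1, mul_inv_cancel])
        exact mul_inv_eq_one.1 h3
      · rw [if_neg h1]
    · intro h0
      exact absurd (Finset.mem_univ _) h0
  · have h0 : c.coeff x = 0 := by
      by_contra h1
      exact hx (hc x h1)
    rw [h0]
    refine Finset.sum_eq_zero fun z _ => ?_
    by_cases h1 : π z = x
    · rw [if_pos h1]
      apply coeff_lf_of_notMem
      intro h2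
      rw [inv_one, mul_one] at h2
      exact hx (h1 ▸ h.mem h2)
    · rw [if_neg h1]

/-- the data -/
structure Dat (p : ℕ) (V : Subgroup A) (π : K →* A) (W N : Subgroup K) (M : Subgroup A)
    (c : MonoidAlgebra k A) {n : ℕ} (φ : MonoidAlgebra k A → Module.End k (Fin n → k))
    (X : K →* ((Fin n → k) ≃ₗ[k] (Fin n → k))) : Prop where
  cx : CX p V π W
  hN : N = M.comap π
  WN : W ≤ N
  nM : ∀ x : A, x ∈ Subgroup.normalizer (M : Set A)
  nV : ∀ x : A, x ∈ Subgroup.normalizer (V : Set A)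
  cr : CR M V c φ
  cm : c ∈ fixAlg k M V
  X1 : ∀ s ∈ W, X s = 1
  it : ∀ s, ItC M V φ φ (π s) (X s).toLinearMap

variable {N : Subgroup K} {M : Subgroup A} {c : MonoidAlgebra k A} {n : ℕ}
  {φ : MonoidAlgebra k A → Module.End k (Fin n → k)}
  {X : K →* ((Fin n → k) ≃ₗ[k] (Fin n → k))}

theorem Dat.mem [Fintype K] (d : Dat p V π W N M c φ X) {a : MonoidAlgebra k K}
    (ha : a ∈ fixAlg k N W) : mp π a ∈ fixAlg k M V := by
  obtain ⟨h1, h2⟩ := mem_fixAlg.1 ha
  refine mem_fixAlg.2 ⟨fun x hx => ?_, ?_⟩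
  · obtain ⟨z, hz, rfl⟩ := supp_mp hx
    have h3 := h1 z hz
    rw [d.hN] at h3
    exact h3
  · rw [invBy_iff_cj] at h2 ⊢
    intro x hx
    obtain ⟨w, hw, rfl⟩ := d.cx.exists_mem hx
    rw [← mp_cj, h2 w hw]

theorem Dat.nW (d : Dat p V π W N M c φ X) (s : K) : s ∈ Subgroup.normalizer (W : Set K) := by
  have := d.cx.nW
  rw [Subgroup.normalizer_eq_top]
  exact Subgroup.mem_top s

theorem Dat.comp_mem [Fintype K] (d : Dat p V π W N M c φ X) {a : MonoidAlgebra k K}
    (ha : a ∈ fixAlg k N W) (s : K) : resS (cos W s) a ∈ fixAlg k N W := by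
  obtain ⟨h1, h2⟩ := mem_fixAlg.1 ha
  refine mem_fixAlg.2 ⟨fun x hx => ?_, inv_comp' (d.nW s) h2⟩
  by_cases hs : x ∈ cos W s
  · rw [coeff_resS_of_mem _ hs] at hx
    exact h1 x hx
  · exact absurd (coeff_resS_of_notMem _ hs) hx

theorem mp_supp [Fintype K] (h : CX p V π W) {a : MonoidAlgebra k K} {s : K}
    (hs : ∀ z, a.coeff z ≠ 0 → z * s⁻¹ ∈ W) {x : A} (hx : (mp π a).coeff x ≠ 0) :
    x * (π s)⁻¹ ∈ V := by
  obtain ⟨z, hz, rfl⟩ := supp_mp hx
  have h1 := h.mem (hs z hz)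
  rwa [map_mul, map_inv] at h1

theorem comm_hom {u b : MonoidAlgebra k A} {x : A} (hu : ∀ z, u.coeff z ≠ 0 → z * x⁻¹ ∈ V)
    (hb : InvBy V b) : u * cj x⁻¹ b = b * u := by
  have h0 : single x⁻¹ (1 : k) * single x 1 = 1 := by
    rw [single_mul_single, inv_mul_cancel, one_mul]; rfl
  have h0' : single x (1 : k) * single x⁻¹ 1 = 1 := by
    rw [single_mul_single, mul_inv_cancel, one_mul]; rfl
  have h1 : SuppIn V (u * single x⁻¹ 1) := by
    intro z hz
    rw [coeff_mul_single_apply, mul_one, inv_inv] at hz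
    have h2 := hu _ hz
    rwa [mul_inv_cancel_right] at h2
  have h2 : u * single x⁻¹ 1 * b = b * (u * single x⁻¹ 1) := commute_of h1 hb
  calc u * cj x⁻¹ b = u * single x⁻¹ 1 * b * single x 1 := by
        rw [cj, inv_inv]
        simp only [mul_assoc]
    _ = b * u * (single x⁻¹ 1 * single x 1) := by
        rw [h2]
        simp only [mul_assoc]
    _ = b * u := by rw [h0, mul_one]

theorem Dat.phi_zero (d : Dat p V π W N M c φ X) : φ 0 = 0 := by
  have h3 := d.cr.smul 0 c d.cm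
  rwa [zero_smul, zero_smul] at h3

theorem Dat.scal [IsAlgClosed k] [Fintype K] (d : Dat p V π W N M c φ X) (s : K)
    {a : MonoidAlgebra k K} (ha : a ∈ fixAlg k N W) (hs : ∀ z, a.coeff z ≠ 0 → z * s⁻¹ ∈ W) :
    ∃ t : k, φ (mp π a) * (X s⁻¹).toLinearMap = t • 1 := by
  refine d.cr.schur (fun b hb w => ?_)
  have hm := d.mem ha
  have h1 : (X s⁻¹).toLinearMap (φ b w) = φ (cj (π s⁻¹) b) ((X s⁻¹).toLinearMap w) :=
    d.it s⁻¹ b hb w
  have h2 : cj (π s⁻¹) b ∈ fixAlg k M V := cj_mem_fixAlg hb (d.nM _) (d.nV _)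
  rw [Module.End.mul_apply, Module.End.mul_apply, h1, ← Module.End.mul_apply,
    ← Module.End.mul_apply (φ b), ← d.cr.mul _ hm _ h2, ← d.cr.mul _ hb _ hm, map_inv,
    comm_hom (fun z hz => mp_supp d.cx hs hz) (mem_fixAlg.1 hb).2]

open Classical in
/-- the homomorphism to the scalars -/
noncomputable def Ph [Fintype K] (π : K →* A) (W : Subgroup K)
    (φ : MonoidAlgebra k A → Module.End k (Fin n → k))
    (X : K →* ((Fin n → k) ≃ₗ[k] (Fin n → k))) (a : MonoidAlgebra k K) :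
    Module.End k (Fin n → k) :=
  ∑ q : Quotient (QuotientGroup.rightRel W),
    φ (mp π (resS (cos W q.out) a)) * (X (q.out)⁻¹).toLinearMap

theorem Dat.Ph_add [Fintype K] (d : Dat p V π W N M c φ X) {a b : MonoidAlgebra k K}
    (ha : a ∈ fixAlg k N W) (hb : b ∈ fixAlg k N W) :
    Ph π W φ X (a + b) = Ph π W φ X a + Ph π W φ X b := by
  unfold Ph
  rw [← Finset.sum_add_distrib]
  refine Finset.sum_congr rfl fun q _ => ?_
  rw [resS_add, map_add, d.cr.add _ (d.mem (d.comp_mem ha _)) _ (d.mem (d.comp_mem hb _)),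
    add_mul]

theorem Dat.Ph_smul [Fintype K] (d : Dat p V π W N M c φ X) (t : k) {a : MonoidAlgebra k K}
    (ha : a ∈ fixAlg k N W) : Ph π W φ X (t • a) = t • Ph π W φ X a := by
  unfold Ph
  rw [Finset.smul_sum]
  refine Finset.sum_congr rfl fun q _ => ?_
  rw [resS_smul, map_smul, d.cr.smul _ _ (d.mem (d.comp_mem ha _)), smul_mul_assoc]

theorem Dat.Ph_zero [Fintype K] (d : Dat p V π W N M c φ X) : Ph π W φ X 0 = 0 := by
  have h1 := d.Ph_smul 0 (a := 0) (fixAlg k N W).zero_mem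
  rwa [zero_smul, zero_smul] at h1

theorem Dat.Ph_sum [Fintype K] (d : Dat p V π W N M c φ X) {ι : Type*} (S : Finset ι)
    (f : ι → MonoidAlgebra k K) (hf : ∀ i ∈ S, f i ∈ fixAlg k N W) :
    Ph π W φ X (∑ i ∈ S, f i) = ∑ i ∈ S, Ph π W φ X (f i) := by
  classical
  induction S using Finset.induction_on with
  | empty => rw [Finset.sum_empty, Finset.sum_empty, d.Ph_zero]
  | insert i S hi ih =>
    have h1 : ∀ j ∈ S, f j ∈ fixAlg k N W := fun j hj => hf j (Finset.mem_insert_of_mem hj)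
    rw [Finset.sum_insert hi, Finset.sum_insert hi, d.Ph_add (hf i (Finset.mem_insert_self i S))
      (Subalgebra.sum_mem _ h1), ih h1]

theorem Dat.X_coset (d : Dat p V π W N M c φ X) {s t : K} (hst : s * t⁻¹ ∈ W) :
    X t⁻¹ = X s⁻¹ := by
  have h1 : t⁻¹ = s⁻¹ * (s * t⁻¹) := by group
  rw [h1, map_mul, d.X1 _ hst, mul_one]

theorem Dat.Ph_hom [Fintype K] (d : Dat p V π W N M c φ X) {s : K}
    {a : MonoidAlgebra k K} (hs : ∀ z, a.coeff z ≠ 0 → z * s⁻¹ ∈ W) :
    Ph π W φ X a = φ (mp π a) * (X s⁻¹).toLinearMap := by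
  classical
  have hq : s * (Quotient.mk (QuotientGroup.rightRel W) s).out⁻¹ ∈ W := by
    have h1 := Quotient.mk_out (s := QuotientGroup.rightRel W) s
    exact QuotientGroup.rightRel_apply.1 h1
  unfold Ph
  rw [Finset.sum_eq_single (Quotient.mk (QuotientGroup.rightRel W) s)]
  · rw [resS_self_cos, d.X_coset hq]
    intro z hz
    have h1 := W.mul_mem (hs z hz) hq
    have e : z * s⁻¹ * (s * (Quotient.mk (QuotientGroup.rightRel W) s).out⁻¹)
        = z * (Quotient.mk (QuotientGroup.rightRel W) s).out⁻¹ := by group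
    rwa [e] at h1
  · intro q _ hne
    have h1 : resS (cos W q.out) a = 0 := by
      ext z
      by_cases hz : z ∈ cos W q.out
      · rw [coeff_resS_of_mem _ hz]
        by_contra h0
        have h2 := hs z h0
        have h3 := W.mul_mem (W.inv_mem h2) hz
        apply hne
        rw [← Quotient.out_eq q]
        apply Quotient.sound
        refine QuotientGroup.rightRel_apply.2 ?_
        have e : (z * s⁻¹)⁻¹ * (z * q.out⁻¹) = s * q.out⁻¹ := by group
        rwa [e] at h3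
      · exact coeff_resS_of_notMem _ hz
    rw [h1, map_zero, d.phi_zero, zero_mul]
  · intro h0
    exact absurd (Finset.mem_univ _) h0

theorem Dat.Ph_scal [IsAlgClosed k] [Fintype K] (d : Dat p V π W N M c φ X)
    {a : MonoidAlgebra k K} (ha : a ∈ fixAlg k N W) : ∃ t : k, Ph π W φ X a = t • 1 := by
  classical
  have h1 : ∀ q : Quotient (QuotientGroup.rightRel W), ∃ t : k,
      φ (mp π (resS (cos W q.out) a)) * (X (q.out)⁻¹).toLinearMap = t • 1 :=
    fun q => d.scal q.out (d.comp_mem ha _) (fun z hz => supp_comp' hz)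
  choose t ht using h1
  refine ⟨∑ q, t q, ?_⟩
  unfold Ph
  rw [Finset.sum_smul]
  exact Finset.sum_congr rfl fun q _ => ht q

theorem Dat.mul_hom [IsAlgClosed k] [Fintype K] (d : Dat p V π W N M c φ X) {s t : K}
    {a b : MonoidAlgebra k K} (ha : a ∈ fixAlg k N W) (hb : b ∈ fixAlg k N W)
    (hs : ∀ z, a.coeff z ≠ 0 → z * s⁻¹ ∈ W) (ht : ∀ z, b.coeff z ≠ 0 → z * t⁻¹ ∈ W) :
    Ph π W φ X (a * b) = Ph π W φ X a * Ph π W φ X b := by
  obtain ⟨τ, hτ⟩ := d.scal t hb ht
  have h1 : (X (s * t)⁻¹).toLinearMap = (X t⁻¹).toLinearMap * (X s⁻¹).toLinearMap := by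
    rw [mul_inv_rev, map_mul]
    rfl
  rw [d.Ph_hom (coset_mul (d.nW s) hs ht), d.Ph_hom hs, d.Ph_hom ht, map_mul,
    d.cr.mul _ (d.mem ha) _ (d.mem hb), h1, hτ]
  calc φ (mp π a) * φ (mp π b) * ((X t⁻¹).toLinearMap * (X s⁻¹).toLinearMap)
      = φ (mp π a) * (φ (mp π b) * (X t⁻¹).toLinearMap) * (X s⁻¹).toLinearMap := by
        simp only [mul_assoc]
    _ = φ (mp π a) * (X s⁻¹).toLinearMap * τ • 1 := by
        rw [hτ, mul_smul_comm, smul_mul_assoc, mul_one, mul_smul_comm, mul_one]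

theorem Dat.Ph_mul [IsAlgClosed k] [Fintype K] (d : Dat p V π W N M c φ X)
    {a b : MonoidAlgebra k K} (ha : a ∈ fixAlg k N W) (hb : b ∈ fixAlg k N W) :
    Ph π W φ X (a * b) = Ph π W φ X a * Ph π W φ X b := by
  classical
  have hab : a * b = ∑ q : Quotient (QuotientGroup.rightRel W),
      ∑ r : Quotient (QuotientGroup.rightRel W),
        resS (cos W q.out) a * resS (cos W r.out) b := by
    rw [← Finset.sum_mul_sum, ← sum_comp', ← sum_comp']
  have hA : Ph π W φ X a = ∑ q : Quotient (QuotientGroup.rightRel W),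
      Ph π W φ X (resS (cos W q.out) a) := by
    conv_lhs => rw [sum_comp' W a]
    exact d.Ph_sum _ _ (fun q _ => d.comp_mem ha _)
  have hB : Ph π W φ X b = ∑ q : Quotient (QuotientGroup.rightRel W),
      Ph π W φ X (resS (cos W q.out) b) := by
    conv_lhs => rw [sum_comp' W b]
    exact d.Ph_sum _ _ (fun q _ => d.comp_mem hb _)
  rw [hab, hA, hB, Finset.sum_mul_sum, d.Ph_sum]
  · refine Finset.sum_congr rfl fun q _ => ?_
    rw [d.Ph_sum]
    · refine Finset.sum_congr rfl fun r _ => ?_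
      exact d.mul_hom (d.comp_mem ha _) (d.comp_mem hb _) (fun z hz => supp_comp' hz)
        (fun z hz => supp_comp' hz)
    · exact fun r _ => (fixAlg k N W).mul_mem (d.comp_mem ha _) (d.comp_mem hb _)
  · exact fun q _ => Subalgebra.sum_mem _
      (fun r _ => (fixAlg k N W).mul_mem (d.comp_mem ha _) (d.comp_mem hb _))

theorem Dat.nN (d : Dat p V π W N M c φ X) (s : K) : s ∈ Subgroup.normalizer (N : Set K) := by
  rw [Subgroup.mem_normalizer_iff, d.hN]
  intro z
  rw [Subgroup.mem_comap, Subgroup.mem_comap, map_mul, map_mul, map_inv]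
  exact Subgroup.mem_normalizer_iff.1 (d.nM (π s)) _

theorem Dat.cj_mem (d : Dat p V π W N M c φ X) (s : K) {a : MonoidAlgebra k K}
    (ha : a ∈ fixAlg k N W) : cj s a ∈ fixAlg k N W :=
  cj_mem_fixAlg ha (d.nN s) (d.nW s)

theorem Dat.Ph_cj [Fintype K] (d : Dat p V π W N M c φ X) (s : K) {a : MonoidAlgebra k K}
    (ha : a ∈ fixAlg k N W) :
    Ph π W φ X (cj s a) = (X s).toLinearMap * Ph π W φ X a * (X s⁻¹).toLinearMap := by
  classical
  have hom : ∀ (t : K) (b : MonoidAlgebra k K), b ∈ fixAlg k N W →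
      (∀ z, b.coeff z ≠ 0 → z * t⁻¹ ∈ W) →
      Ph π W φ X (cj s b) = (X s).toLinearMap * Ph π W φ X b * (X s⁻¹).toLinearMap := by
    intro t b hb ht
    have h1 : ∀ z, (cj s b).coeff z ≠ 0 → z * (s * t * s⁻¹)⁻¹ ∈ W := by
      intro z hz
      rw [coeff_cj] at hz
      have h2 := (Subgroup.mem_normalizer_iff.1 (d.nW s) _).1 (ht _ hz)
      have e : s * (s⁻¹ * z * s * t⁻¹) * s⁻¹ = z * (s * t * s⁻¹)⁻¹ := by group
      rwa [e] at h2
    have h2 : φ (cj (π s) (mp π b)) = (X s).toLinearMap * φ (mp π b) * (X s⁻¹).toLinearMap := by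
      refine LinearMap.ext fun w => ?_
      have h3 := d.it s (mp π b) (d.mem hb) ((X s⁻¹).toLinearMap w)
      have h4 : (X s).toLinearMap ((X s⁻¹).toLinearMap w) = w := by
        have h5 : X s * X s⁻¹ = 1 := by rw [← map_mul, mul_inv_cancel, map_one]
        exact LinearEquiv.congr_fun h5 w
      rw [h4] at h3
      rw [← h3]
      rfl
    have h3 : (X (s * t * s⁻¹)⁻¹).toLinearMap
        = (X s).toLinearMap * (X t⁻¹).toLinearMap * (X s⁻¹).toLinearMap := by
      have e : (s * t * s⁻¹)⁻¹ = s * t⁻¹ * s⁻¹ := by group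
      rw [e, map_mul, map_mul]
      rfl
    have h4 : (X s⁻¹).toLinearMap * (X s).toLinearMap = 1 := by
      have h5 : X s⁻¹ * X s = 1 := by rw [← map_mul, inv_mul_cancel, map_one]
      exact congrArg LinearEquiv.toLinearMap h5
    rw [d.Ph_hom h1, d.Ph_hom ht, mp_cj, h2, h3]
    calc (X s).toLinearMap * φ (mp π b) * (X s⁻¹).toLinearMap *
          ((X s).toLinearMap * (X t⁻¹).toLinearMap * (X s⁻¹).toLinearMap)
        = (X s).toLinearMap * φ (mp π b) * ((X s⁻¹).toLinearMap * (X s).toLinearMap) *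
          (X t⁻¹).toLinearMap * (X s⁻¹).toLinearMap := by simp only [mul_assoc]
      _ = (X s).toLinearMap * (φ (mp π b) * (X t⁻¹).toLinearMap) * (X s⁻¹).toLinearMap := by
          rw [h4, mul_one]
          simp only [mul_assoc]
  have hA : cj s a = ∑ q : Quotient (QuotientGroup.rightRel W),
      cj s (resS (cos W q.out) a) := by
    rw [← cj_sum, ← sum_comp']
  have hB : Ph π W φ X a = ∑ q : Quotient (QuotientGroup.rightRel W),
      Ph π W φ X (resS (cos W q.out) a) := by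
    conv_lhs => rw [sum_comp' W a]
    exact d.Ph_sum _ _ (fun q _ => d.comp_mem ha _)
  rw [hA, hB, d.Ph_sum _ _ (fun q _ => d.cj_mem s (d.comp_mem ha _)), Finset.mul_sum,
    Finset.sum_mul]
  exact Finset.sum_congr rfl fun q _ => hom q.out _ (d.comp_mem ha _) (fun z hz => supp_comp' hz)

theorem Dat.Ph_one [Fintype K] (d : Dat p V π W N M c φ X) : Ph π W φ X 1 = 1 := by
  have h1 : ∀ z : K, (1 : MonoidAlgebra k K).coeff z ≠ 0 → z * (1 : K)⁻¹ ∈ W := by
    intro z hz
    rw [inv_one, mul_one]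
    exact (mem_fixAlg.1 (fixAlg k W W).one_mem).1 z hz
  have h2 : φ 1 = 1 := by
    have h3 := d.cr.mul 1 (fixAlg k M V).one_mem c d.cm
    rw [one_mul, d.cr.one, mul_one] at h3
    exact h3.symm
  rw [d.Ph_hom h1, map_one, h2, inv_one, map_one, one_mul]
  rfl

theorem Dat.exists_hom [IsAlgClosed k] [Fintype K] (d : Dat p V π W N M c φ X) :
    ∃ l : fixAlg k N N →ₐ[k] k, ∀ a : fixAlg k N N, Ph π W φ X a.1 = l a • 1 := by
  have := d.cr.nontriv
  have hle : ∀ a : fixAlg k N N, a.1 ∈ fixAlg k N W := fun a =>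
    mem_fixAlg.2 ⟨(mem_fixAlg.1 a.2).1, (mem_fixAlg.1 a.2).2.mono d.WN⟩
  have hu : ∀ t s : k, (t • 1 : Module.End k (Fin n → k)) = s • 1 → t = s := fun t s hts =>
    scalar_eq (n := 0) (by rw [hts, sub_self, zero_add, pow_one])
  choose t ht using fun a : fixAlg k N N => d.Ph_scal (hle a)
  have hsm : ∀ r : k, Ph π W φ X (r • (1 : MonoidAlgebra k K)) = r • 1 := fun r => by
    rw [d.Ph_smul r (fixAlg k N W).one_mem, d.Ph_one]
  refine ⟨{ toFun := t
            map_one' := hu _ _ ?_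
            map_mul' := fun a b => hu _ _ ?_
            map_zero' := hu _ _ ?_
            map_add' := fun a b => hu _ _ ?_
            commutes' := fun r => hu _ _ ?_ }, ht⟩
  · rw [← ht, one_smul]
    exact d.Ph_one
  · rw [← ht]
    have h1 := d.Ph_mul (hle a) (hle b)
    rw [ht, ht, smul_mul_assoc, one_mul, smul_smul] at h1
    exact h1
  · rw [← ht, zero_smul]
    exact d.Ph_zero
  · rw [← ht, add_smul, ← ht, ← ht]
    exact d.Ph_add (hle a) (hle b)
  · rw [← ht]
    have h1 : ((algebraMap k (fixAlg k N N)) r).1 = r • (1 : MonoidAlgebra k K) := by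
      rw [Algebra.algebraMap_eq_smul_one]
      rfl
    rw [h1]
    exact hsm r

theorem Dat.final [IsAlgClosed k] [Fintype K] (d : Dat p V π W N M c φ X)
    (hcV : IsBlock V c) {c' : MonoidAlgebra k K} (hc' : c' = lf π W 1 c) (hi : InvBy ⊤ c')
    (hcc : c' * c' = c') : ∃ e, IsBlock N e ∧ InvBy ⊤ e ∧ e * c' = e := by
  have := d.cr.nontriv
  have hW : ∀ z, c'.coeff z ≠ 0 → z * (1 : K)⁻¹ ∈ W := by
    rw [hc']
    exact lf_supp
  have hcN : c' ∈ fixAlg k N N := by
    refine mem_fixAlg.2 ⟨fun z hz => ?_, hi.mono le_top⟩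
    have h1 := hW z hz
    rw [inv_one, mul_one] at h1
    exact d.WN h1
  have hle : ∀ a : MonoidAlgebra k K, a ∈ fixAlg k N N → a ∈ fixAlg k N W := fun a ha =>
    mem_fixAlg.2 ⟨(mem_fixAlg.1 ha).1, (mem_fixAlg.1 ha).2.mono d.WN⟩
  have hc1 : Ph π W φ X c' = 1 := by
    rw [d.Ph_hom hW, hc', mp_lf d.cx hcV.suppIn, d.cr.one, inv_one, map_one, one_mul]
    rfl
  obtain ⟨l, hl⟩ := d.exists_hom
  obtain ⟨⟨e, he⟩, hep, hle1⟩ := exists_prim_of_char l
  have hb : IsBlock N e := isBlock_of_primIdem hep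
  have he1 : Ph π W φ X e = 1 := by
    have h1 := hl ⟨e, he⟩
    rw [hle1, one_smul] at h1
    exact h1
  have h10 : (1 : Module.End k (Fin n → k)) ≠ 0 := one_ne_zero
  refine ⟨e, hb, ?_, ?_⟩
  · rw [invBy_iff_cj]
    intro s _
    have hb' : IsBlock N (cj s e) := by
      have h1 := isBlock_cg hb s
      rwa [cg_eq_self_iff.2 (d.nN s)] at h1
    rcases hb.eq_or_mul_eq_zero hb' with h1 | h1
    · exact h1.symm
    · exfalso
      have h2 := d.Ph_mul (hle _ he) (d.cj_mem s (hle _ he))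
      have h4 : (X s).toLinearMap * (X s⁻¹).toLinearMap = 1 := by
        have h5 : X s * X s⁻¹ = 1 := by rw [← map_mul, mul_inv_cancel, map_one]
        exact congrArg LinearEquiv.toLinearMap h5
      rw [h1, d.Ph_zero, he1, d.Ph_cj s (hle _ he), he1, mul_one, one_mul, h4] at h2
      exact h10 h2.symm
  · rcases hb.mul_eq hcN hcc with h1 | h1
    · exfalso
      have h2 := d.Ph_mul (hle _ hcN) (hle _ he)
      rw [h1, d.Ph_zero, hc1, he1, mul_one] at h2
      exact h10 h2.symm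
    · rw [commute_of hb.suppIn (mem_fixAlg.1 hcN).2, h1]

end BsAux

open BsAux

theorem exists_bs [Fact p.Prime] [CharP k p] [IsAlgClosed k] [Fintype A] [Fintype K]
    (h : CX p V π W) {c : MonoidAlgebra k A} (hc : UH V ⊤ c) {n : ℕ}
    {φ : MonoidAlgebra k A → Module.End k (Fin n → k)} (hφ : CR hc.unt V c φ)
    {X : K →* ((Fin n → k) ≃ₗ[k] (Fin n → k))} (hX1 : ∀ s ∈ W, X s = 1)
    (hX : ∀ s, ItC hc.unt V φ φ (π s) (X s).toLinearMap) (hw : UH W ⊤ (lf π W 1 c)) :
    ∃ e, IsBlock hw.unt e ∧ InvBy ⊤ e ∧ e * lf π W 1 c = e := by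
  have d : Dat p V π W hw.unt hc.unt c φ X :=
    { cx := h
      hN := unt_lf h hc hw
      WN := hw.le_unt
      nM := fun x => hc.norm_unt (Subgroup.mem_top x)
      nV := fun x => hc.nm (Subgroup.mem_top x)
      cr := hφ
      cm := mem_fixAlg.2 ⟨hc.blk.suppIn.mono hc.le_unt, hc.blk.invBy⟩
      X1 := hX1
      it := hX }
  exact d.final hc.blk rfl hw.inv hw.cc

end Pool.Agent.Lib.P0c8ca5.Xx
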