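import Mathlib
import Pool.Agent.Lib.P0c8ca5X.Defs

/-!
# Module ExK: the group of the intertwiners

PROOF of `exists_K`.  `K₀`: the pairs `(g, X)`, `g ∈ Y`, `X` an intertwiner of `φ` for `g` with determinant `1`; a subgroup of `A × GL`.  By Schur (`CR.schur`) the
intertwiners of `g` are unique up to scalars `t`, `t ^ n = 1`, so `K₀` is finite; `n > 0` as `φ` is not zero.  The kernel of the projection to `A` is
isomorphic to the group of the `n`-th roots of unity in `k`, of order prime to `p`.  `W = {(v, 1) : v ∈ V}`.  Intertwiners can be scaled to determinant `1` as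
`k` is algebraically closed.  Finally `K = Shrink K₀` in the universe of `A`.
-/

set_option autoImplicit false

namespace Pool.Agent.Lib.P0c8ca5.Xx

open MonoidAlgebra Ps Bq Zz Hh Gg Un8

universe u v

variable {p : ℕ} {k : Type v} [Field k] {A : Type u} [Group A]

namespace ExKAux

variable {V Y : Subgroup A} {c : MonoidAlgebra k A} {n : ℕ}
  {φ : MonoidAlgebra k A → Module.End k (Fin n → k)}

theorem itC_mul (hc : UH V ⊤ c) {g h : A} {X X' : (Fin n → k) ≃ₗ[k] (Fin n → k)}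
    (h1 : ItC hc.unt V φ φ g X.toLinearMap) (h2 : ItC hc.unt V φ φ h X'.toLinearMap) :
    ItC hc.unt V φ φ (g * h) (X * X').toLinearMap := by
  intro z hz u
  change X (X' (φ z u)) = φ (cj (g * h) z) (X (X' u))
  have h3 := h2 z hz u
  change X' (φ z u) = φ (cj h z) (X' u) at h3
  have hz' : cj h z ∈ fixAlg k hc.unt V :=
    cj_mem_fixAlg hz (hc.norm_unt (Subgroup.mem_top h)) (hc.nm (Subgroup.mem_top h))
  have h4 := h1 _ hz' (X' u)
  change X (φ _ (X' u)) = φ _ (X (X' u)) at h4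
  rw [h3, h4, cj_cj]

theorem itC_inv (hc : UH V ⊤ c) {g : A} {X : (Fin n → k) ≃ₗ[k] (Fin n → k)}
    (h1 : ItC hc.unt V φ φ g X.toLinearMap) :
    ItC hc.unt V φ φ g⁻¹ (X⁻¹ : (Fin n → k) ≃ₗ[k] (Fin n → k)).toLinearMap := by
  intro z hz u
  change X.symm (φ z u) = φ (cj g⁻¹ z) (X.symm u)
  have hz' : cj g⁻¹ z ∈ fixAlg k hc.unt V :=
    cj_mem_fixAlg hz (hc.norm_unt (Subgroup.mem_top _)) (hc.nm (Subgroup.mem_top _))
  have h4 := h1 _ hz' (X.symm u)
  change X (φ _ (X.symm u)) = φ _ (X (X.symm u)) at h4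
  rw [LinearEquiv.apply_symm_apply, cj_cj_inv] at h4
  rw [← h4, LinearEquiv.symm_apply_apply]

theorem itC_of_mem (hc : UH V ⊤ c) {g : A} (hg : g ∈ V) :
    ItC hc.unt V φ φ g (1 : (Fin n → k) ≃ₗ[k] (Fin n → k)).toLinearMap := by
  intro z hz u
  change φ z u = φ (cj g z) u
  rw [invBy_iff_cj.1 (mem_fixAlg.1 hz).2 g hg]

/-- the group of the pairs `(g, X)` -/
def K0 (hc : UH V ⊤ c) (Y : Subgroup A) (φ : MonoidAlgebra k A → Module.End k (Fin n → k)) :
    Subgroup (A × ((Fin n → k) ≃ₗ[k] (Fin n → k))) where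
  carrier := {q | q.1 ∈ Y ∧ ItC hc.unt V φ φ q.1 q.2.toLinearMap ∧ LinearEquiv.det q.2 = 1}
  one_mem' := ⟨Y.one_mem, itC_of_mem hc V.one_mem, map_one _⟩
  mul_mem' := by
    rintro ⟨x, X⟩ ⟨y, X'⟩ ⟨h1, h2, h3⟩ ⟨h4, h5, h6⟩
    refine ⟨Y.mul_mem h1 h4, itC_mul hc h2 h5, ?_⟩
    show LinearEquiv.det (X * X') = 1
    rw [map_mul, h3, h6, one_mul]
  inv_mem' := by
    rintro ⟨x, X⟩ ⟨h1, h2, h3⟩
    refine ⟨Y.inv_mem h1, itC_inv hc h2, ?_⟩
    show LinearEquiv.det (X⁻¹) = 1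
    rw [map_inv, h3, inv_one]

theorem mem_K0 {hc : UH V ⊤ c} {x : A} {Z : (Fin n → k) ≃ₗ[k] (Fin n → k)} :
    (x, Z) ∈ K0 hc Y φ ↔ x ∈ Y ∧ ItC hc.unt V φ φ x Z.toLinearMap ∧ LinearEquiv.det Z = 1 :=
  Iff.rfl

theorem npos {M : Subgroup A} (hφ : CR M V c φ) : n ≠ 0 := by
  rintro rfl
  have := hφ.nontriv
  exact not_subsingleton (Fin 0 → k) inferInstance

theorem det_scalar (c : k) (X X' : (Fin n → k) ≃ₗ[k] (Fin n → k)) (h : ∀ v, X' v = c • X v) :
    (LinearEquiv.det X' : k) = c ^ n * (LinearEquiv.det X : k) := by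
  rw [LinearEquiv.coe_det, LinearEquiv.coe_det]
  have h1 : (X' : (Fin n → k) →ₗ[k] (Fin n → k)) = c • (X : (Fin n → k) →ₗ[k] (Fin n → k)) :=
    LinearMap.ext h
  rw [h1, LinearMap.det_smul, Module.finrank_fin_fun]

/-- an element of `K0` over `1` is a scalar -/
theorem scal [IsAlgClosed k] {hc : UH V ⊤ c} (hφ : CR hc.unt V c φ) (q : K0 hc Y φ)
    (hq : q.1.1 = 1) : ∃ s : k, s ^ n = 1 ∧ ∀ v, q.1.2 v = s • v := by
  have h1 := q.2.2.1
  rw [hq] at h1
  obtain ⟨s, hs⟩ := itC_unique hφ (itC_of_mem (φ := φ) hc V.one_mem) h1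
  have hs' : ∀ v, q.1.2 v = s • v := hs
  refine ⟨s, ?_, hs'⟩
  have h2 := det_scalar s (LinearEquiv.refl k (Fin n → k)) q.1.2 hs'
  have h3 := q.2.2.2
  rw [h3, LinearEquiv.det_refl, Units.val_one, mul_one] at h2
  exact h2.symm

theorem finite_K0 [IsAlgClosed k] [Finite A] {hc : UH V ⊤ c} (hφ : CR hc.unt V c φ) :
    Finite (K0 hc Y φ) := by
  classical
  set f : K0 hc Y φ →* A := (MonoidHom.fst _ _).comp (K0 hc Y φ).subtype with hf
  have h1 : Finite (K0 hc Y φ ⧸ f.ker) :=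
    Finite.of_equiv _ (QuotientGroup.quotientKerEquivRange f).toEquiv.symm
  have h2 : Finite f.ker := by
    have hsc : ∀ q : f.ker, ∃ s : k, s ^ n = 1 ∧ ∀ v, q.1.1.2 v = s • v :=
      fun q => scal hφ q.1 q.2
    have hroot : ∀ q : f.ker, (hsc q).choose ∈ (Polynomial.nthRoots n (1 : k)).toFinset := by
      intro q
      rw [Multiset.mem_toFinset, Polynomial.mem_nthRoots (Nat.pos_of_ne_zero (npos hφ))]
      exact (hsc q).choose_spec.1
    refine Finite.of_injective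
      (fun q : f.ker => (⟨_, hroot q⟩ : {x // x ∈ (Polynomial.nthRoots n (1 : k)).toFinset})) ?_
    intro q r hqr
    have h9 : (hsc q).choose = (hsc r).choose := congrArg Subtype.val hqr
    obtain ⟨_, h6⟩ := (hsc q).choose_spec
    obtain ⟨_, h8⟩ := (hsc r).choose_spec
    apply Subtype.ext
    apply Subtype.ext
    apply Prod.ext
    · have ha : q.1.1.1 = 1 := q.2
      have hb : r.1.1.1 = 1 := r.2
      rw [ha, hb]
    · apply LinearEquiv.ext
      intro v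
      rw [h6, h8, h9]
  exact Finite.of_subgroup_quotient f.ker

/-- intertwiners can be scaled -/
theorem exists_mem [IsAlgClosed k] {hc : UH V ⊤ c} (hφ : CR hc.unt V c φ) {x : A} (hx : x ∈ Y)
    {X : (Fin n → k) ≃ₗ[k] (Fin n → k)} (h : ItC hc.unt V φ φ x X.toLinearMap) :
    ∃ q : K0 hc Y φ, q.1.1 = x := by
  have hn := npos hφ
  obtain ⟨s, hs⟩ := IsAlgClosed.exists_pow_nat_eq ((LinearEquiv.det X : k)⁻¹)
    (Nat.pos_of_ne_zero hn)
  have hd : (LinearEquiv.det X : k) ≠ 0 := Units.ne_zero _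
  have hs0 : s ≠ 0 := by
    rintro rfl
    rw [zero_pow hn] at hs
    exact inv_ne_zero hd hs.symm
  set X' := X.trans (LinearEquiv.smulOfNeZero k (Fin n → k) s hs0) with hX'
  have h1 : ∀ v, X' v = s • X v := fun v => rfl
  refine ⟨⟨(x, X'), mem_K0.2 ⟨hx, ?_, ?_⟩⟩, rfl⟩
  · intro a ha w
    have h2 := h a ha w
    change X (φ a w) = φ _ (X w) at h2
    change X' (φ a w) = φ _ (X' w)
    rw [h1, h1, h2, map_smul]
  · apply Units.ext
    rw [det_scalar s X X' h1, hs, Units.val_one, inv_mul_cancel₀ hd]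

end ExKAux

theorem exists_K [Fact p.Prime] [CharP k p] [IsAlgClosed k] [Fintype A] {V Y : Subgroup A}
    (hVY : V ≤ Y) {c : MonoidAlgebra k A} (hc : UH V ⊤ c) {n : ℕ}
    {φ : MonoidAlgebra k A → Module.End k (Fin n → k)} (hφ : CR hc.unt V c φ)
    {x y : A} (hx : x ∈ Y) (hy : y ∈ Y) {X₁ X₂ : (Fin n → k) ≃ₗ[k] (Fin n → k)}
    (h1 : ItC hc.unt V φ φ x X₁.toLinearMap) (h2 : ItC hc.unt V φ φ y X₂.toLinearMap) :
    ∃ (K : Type u) (_ : Group K) (_ : Finite K) (π : K →* A) (W : Subgroup K)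
      (X : K →* ((Fin n → k) ≃ₗ[k] (Fin n → k))), CX p V π W ∧ (∀ s ∈ W, X s = 1) ∧
        (∀ s, ItC hc.unt V φ φ (π s) (X s).toLinearMap) ∧ π.range ≤ Y ∧ x ∈ π.range ∧
        y ∈ π.range := by
  have hfin : Finite (ExKAux.K0 hc Y φ) := ExKAux.finite_K0 hφ
  obtain ⟨e, -⟩ : ∃ e : Shrink.{u} (ExKAux.K0 hc Y φ) ≃* ExKAux.K0 hc Y φ, True :=
    ⟨Shrink.mulEquiv, trivial⟩
  set π₀ : ExKAux.K0 hc Y φ →* A := (MonoidHom.fst _ _).comp (ExKAux.K0 hc Y φ).subtype with hπ₀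
  set X₀ : ExKAux.K0 hc Y φ →* ((Fin n → k) ≃ₗ[k] (Fin n → k)) :=
    (MonoidHom.snd _ _).comp (ExKAux.K0 hc Y φ).subtype with hX₀
  set π : Shrink.{u} (ExKAux.K0 hc Y φ) →* A := π₀.comp e.toMonoidHom with hπ
  set X : Shrink.{u} (ExKAux.K0 hc Y φ) →* ((Fin n → k) ≃ₗ[k] (Fin n → k)) :=
    X₀.comp e.toMonoidHom with hX
  have eπ : ∀ s, π s = (e s).1.1 := fun s => rfl
  have eX : ∀ s, X s = (e s).1.2 := fun s => rfl
  have hext : ∀ s t, π s = π t → X s = X t → s = t := by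
    intro s t h3 h4
    apply e.injective
    apply Subtype.ext
    exact Prod.ext h3 h4
  have hscal : ∀ s, π s = 1 → ∃ r : k, ∀ v, X s v = r • v := by
    intro s hs
    obtain ⟨r, _, hr⟩ := ExKAux.scal hφ (e s) hs
    exact ⟨r, hr⟩
  set W : Subgroup (Shrink.{u} (ExKAux.K0 hc Y φ)) := V.comap π ⊓ X.ker with hW
  have memW : ∀ s, s ∈ W ↔ π s ∈ V ∧ X s = 1 := fun s => Iff.rfl
  have hrange : ∀ x ∈ Y, ∀ Z : (Fin n → k) ≃ₗ[k] (Fin n → k),
      ItC hc.unt V φ φ x Z.toLinearMap → x ∈ π.range := by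
    intro x hx Z hZ
    obtain ⟨q, hq⟩ := ExKAux.exists_mem hφ hx hZ
    refine ⟨e.symm q, ?_⟩
    rw [eπ, MulEquiv.apply_symm_apply, hq]
  refine ⟨Shrink.{u} (ExKAux.K0 hc Y φ), inferInstance, inferInstance, π, W, X,
    ⟨?_, ?_, ?_, ?_, ?_⟩, fun s hs => ((memW s).1 hs).2, fun s => (e s).2.2.1, ?_,
    hrange x hx X₁ h1, hrange y hy X₂ h2⟩
  · intro s hs
    rw [Subgroup.mem_center_iff]
    intro t
    obtain ⟨r, hr⟩ := hscal s hs
    apply hext
    · rw [map_mul, map_mul, hs, mul_one, one_mul]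
    · rw [map_mul, map_mul]
      apply LinearEquiv.ext
      intro v
      change X t (X s v) = X s (X t v)
      rw [hr, hr, map_smul]
  · intro hp
    obtain ⟨⟨t, ht⟩, hord⟩ := exists_prime_orderOf_dvd_card' p hp
    have hpow : t ^ p = 1 := by
      have h3 : (⟨t, ht⟩ : π.ker) ^ p = 1 := by
        rw [← hord]
        exact pow_orderOf_eq_one _
      exact congrArg Subtype.val h3
    obtain ⟨r, hr⟩ := hscal t ht
    have hpw : ∀ m : ℕ, ∀ v, (X t ^ m) v = r ^ m • v := by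
      intro m
      induction m with
      | zero =>
        intro v
        rw [pow_zero, pow_zero, one_smul]
        rfl
      | succ m ih =>
        intro v
        rw [pow_succ, pow_succ, mul_smul, ← hr v, ← ih]
        rfl
    have hr1 : r ^ p = 1 := by
      have := hφ.nontriv
      obtain ⟨v, hv⟩ := exists_ne (0 : Fin n → k)
      have h3 : (X t ^ p) v = v := by
        rw [← map_pow, hpow, map_one]
        rfl
      rw [hpw p v] at h3
      have h4 : (r ^ p - 1) • v = 0 := by rw [sub_smul, h3, one_smul, sub_self]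
      rcases smul_eq_zero.1 h4 with h5 | h5
      · exact sub_eq_zero.1 h5
      · exact absurd h5 hv
    have hr2 : r = 1 := by
      have h3 : (r - 1) ^ p = 0 := by rw [sub_pow_char, hr1, one_pow, sub_self]
      exact sub_eq_zero.1 (pow_eq_zero_iff (Fact.out : p.Prime).ne_zero |>.1 h3)
    have ht1 : t = 1 := by
      apply hext
      · rw [map_one]; exact ht
      · rw [map_one]
        apply LinearEquiv.ext
        intro v
        rw [hr, hr2, one_smul]
        rfl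
    have h16 : (⟨t, ht⟩ : π.ker) = 1 := Subtype.ext ht1
    rw [h16, orderOf_one] at hord
    exact (Fact.out : p.Prime).one_lt.ne hord
  · constructor
    intro s hs g
    rw [memW] at hs ⊢
    refine ⟨?_, ?_⟩
    · rw [map_mul, map_mul, map_inv]
      exact (Subgroup.mem_normalizer_iff.1 (hc.nm (Subgroup.mem_top (π g))) _).1 hs.1
    · rw [map_mul, map_mul, map_inv, hs.2, mul_one, mul_inv_cancel]
  · intro s hs h3
    apply hext
    · rw [h3, map_one]
    · rw [((memW s).1 hs).2, map_one]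
  · ext v
    rw [Subgroup.mem_map]
    constructor
    · rintro ⟨s, hs, rfl⟩
      exact ((memW s).1 hs).1
    · intro hv
      have h3 : (v, (1 : (Fin n → k) ≃ₗ[k] (Fin n → k))) ∈ ExKAux.K0 hc Y φ :=
        ExKAux.mem_K0.2 ⟨hVY hv, ExKAux.itC_of_mem hc hv, map_one _⟩
      refine ⟨e.symm ⟨_, h3⟩, (memW _).2 ⟨?_, ?_⟩, ?_⟩
      · rw [eπ, MulEquiv.apply_symm_apply]
        exact hv
      · rw [eX, MulEquiv.apply_symm_apply]
      · rw [eπ, MulEquiv.apply_symm_apply]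
  · rintro _ ⟨s, rfl⟩
    exact (e s).2.1

end Pool.Agent.Lib.P0c8ca5.Xx
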