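import Mathlib

/-!
# Module Sup: minimal supplements

PROOF of `core_nil`.  In `G = A / V` the normal subgroup `N = M / V` has no proper supplement, and contains the commutators.  For a Sylow
`q`-subgroup `P` of `G` the subgroup `N P` is normal, so `G = N_G(P) N P = N_G(P) N` (Frattini, `Sylow.normalizer_sup_eq_top`), so `P` is normal; `G` is
nilpotent (`isNilpotent_of_finite_tfae`).  For `q = p`: `P ≤ N` as `p` does not divide the index of `N`, a complement of `P` (Schur-Zassenhaus,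
`Subgroup.exists_right_complement'_of_coprime`) is a supplement of `N`, so it is `G`, and `P = 1`.
PROOF of `suppl`.  A subgroup `Y` of least order with `V ≤ Y` and `M Y = A`; if `Y ≠ A` apply `core_nil` to `Y`.
-/

set_option autoImplicit false

namespace Pool.Agent.Lib.P0c8ca5.Xx

variable {p : ℕ} {A : Type*} [Group A]

namespace SupAux

/-- A finite group with a normal subgroup `N` that contains the commutators and has no proper
supplement is nilpotent. -/
theorem nil_of_no_suppl {G : Type*} [Group G] [Finite G] {N : Subgroup G}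
    (hab : ∀ x y : G, y * x * y⁻¹ * x⁻¹ ∈ N) (hmin : ∀ Y : Subgroup G, N ⊔ Y = ⊤ → Y = ⊤) :
    Group.IsNilpotent G := by
  refine ((Group.isNilpotent_of_finite_tfae (G := G)).out 0 2).mpr ?_
  intro H hH
  have h1 : N ≤ H := by
    by_contra h2
    have h3 : H < N ⊔ H := by
      refine lt_of_le_of_ne le_sup_right ?_
      intro h4
      exact h2 (le_sup_left.trans h4.symm.le)
    exact hH.1 (hmin H (hH.2 _ h3))
  refine ⟨fun x hx y => ?_⟩
  have h2 := H.mul_mem (h1 (hab x y)) hx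
  rwa [inv_mul_cancel_right] at h2

theorem not_dvd_card {G : Type*} [Group G] [Finite G] [Fact p.Prime] {N : Subgroup G}
    (hN : N.Normal) (hnil : Group.IsNilpotent G) (hp : ¬ p ∣ N.index)
    (hmin : ∀ Y : Subgroup G, N ⊔ Y = ⊤ → Y = ⊤) : ¬ p ∣ Nat.card G := by
  intro hd
  obtain ⟨P⟩ := (inferInstance : Nonempty (Sylow p G))
  have hPn : (P : Subgroup G).Normal := by
    have := hnil
    infer_instance
  have hPN : (P : Subgroup G) ≤ N := by
    intro g hg
    obtain ⟨k, hk⟩ := P.isPGroup' ⟨g, hg⟩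
    have hk' : g ^ p ^ k = 1 := by
      have := congrArg Subtype.val hk
      simpa using this
    have h1 : ((g : G ⧸ N)) ^ p ^ k = 1 := by
      rw [← QuotientGroup.mk_pow, hk', QuotientGroup.mk_one]
    have h2 : ((g : G ⧸ N)) ^ N.index = 1 := by
      rw [Subgroup.index_eq_card]
      exact pow_card_eq_one'
    have h3 : Nat.Coprime (p ^ k) N.index :=
      Nat.Coprime.pow_left k ((Nat.Prime.coprime_iff_not_dvd Fact.out).2 hp)
    have h4 : orderOf (g : G ⧸ N) ∣ 1 := by
      rw [← h3]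
      exact Nat.dvd_gcd (orderOf_dvd_of_pow_eq_one h1) (orderOf_dvd_of_pow_eq_one h2)
    have h5 : (g : G ⧸ N) = 1 := orderOf_eq_one_iff.1 (Nat.dvd_one.1 h4)
    exact (QuotientGroup.eq_one_iff g).1 h5
  obtain ⟨K, hK⟩ := Subgroup.exists_right_complement'_of_coprime (N := (P : Subgroup G))
    P.card_coprime_index
  have h1 : N ⊔ K = ⊤ := by
    rw [eq_top_iff, ← hK.sup_eq_top]
    exact sup_le_sup_right hPN K
  have h2 := hmin K h1
  have h3 : (P : Subgroup G) = ⊥ := by
    have := hK.disjoint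
    rw [h2] at this
    exact disjoint_top.1 this
  exact P.ne_bot_of_dvd_card hd h3

end SupAux

theorem core_nil [Fact p.Prime] [Finite A] {V M : Subgroup A} [V.Normal] (hM : M.Normal)
    (hVM : V ≤ M) (hab : ∀ x y : A, y * x * y⁻¹ * x⁻¹ ∈ M) (hp : ¬ p ∣ M.index)
    (hmin : ∀ Y : Subgroup A, V ≤ Y → M ⊔ Y = ⊤ → Y = ⊤) :
    Group.IsNilpotent (A ⧸ V) ∧ ¬ p ∣ V.index := by
  have hs : Function.Surjective (QuotientGroup.mk' V) := QuotientGroup.mk'_surjective V
  have hker : (QuotientGroup.mk' V).ker = V := QuotientGroup.ker_mk' V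
  have hN : (M.map (QuotientGroup.mk' V)).Normal := hM.map _ hs
  have hmin' : ∀ Y : Subgroup (A ⧸ V), M.map (QuotientGroup.mk' V) ⊔ Y = ⊤ → Y = ⊤ := by
    intro Y hY
    have h1 : V ≤ Y.comap (QuotientGroup.mk' V) := by
      exact hker.symm.le.trans ((QuotientGroup.mk' V).ker_le_comap Y)
    have h2 : M ⊔ Y.comap (QuotientGroup.mk' V) = ⊤ := by
      rw [eq_top_iff]
      intro a _
      have h3 : (QuotientGroup.mk' V) a ∈ M.map (QuotientGroup.mk' V) ⊔ Y := by
        rw [hY]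
        exact Subgroup.mem_top _
      obtain ⟨n, hn, y, hy, hny⟩ := Subgroup.mem_sup_of_normal_left.1 h3
      obtain ⟨m, hm, rfl⟩ := hn
      have h4 : m⁻¹ * a ∈ Y.comap (QuotientGroup.mk' V) := by
        rw [Subgroup.mem_comap, map_mul, map_inv, ← hny, inv_mul_cancel_left]
        exact hy
      have h5 : a = m * (m⁻¹ * a) := (mul_inv_cancel_left m a).symm
      rw [h5]
      exact Subgroup.mul_mem_sup hm h4
    have h3 := hmin _ h1 h2
    have h4 := congrArg (Subgroup.map (QuotientGroup.mk' V)) h3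
    rwa [Subgroup.map_comap_eq_self_of_surjective hs, Subgroup.map_top_of_surjective _ hs] at h4
  have hab' : ∀ x y : A ⧸ V, y * x * y⁻¹ * x⁻¹ ∈ M.map (QuotientGroup.mk' V) := by
    intro x y
    obtain ⟨a, rfl⟩ := hs x
    obtain ⟨b, rfl⟩ := hs y
    exact ⟨b * a * b⁻¹ * a⁻¹, hab a b, by simp only [map_mul, map_inv]⟩
  have hidx : (M.map (QuotientGroup.mk' V)).index = M.index :=
    Subgroup.index_map_eq M hs (by rw [hker]; exact hVM)
  have hnil := SupAux.nil_of_no_suppl hab' hmin'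
  refine ⟨hnil, ?_⟩
  rw [Subgroup.index_eq_card]
  exact SupAux.not_dvd_card hN hnil (by rwa [hidx]) hmin'

theorem suppl [Fact p.Prime] [Finite A] {V M : Subgroup A} [V.Normal] (hM : M.Normal)
    (hVM : V ≤ M) (hab : ∀ x y : A, y * x * y⁻¹ * x⁻¹ ∈ M) (hp : ¬ p ∣ M.index) :
    (Group.IsNilpotent (A ⧸ V) ∧ ¬ p ∣ V.index) ∨
      ∃ Y : Subgroup A, V ≤ Y ∧ Y ≠ ⊤ ∧ M ⊔ Y = ⊤ ∧ ¬ p ∣ V.relIndex Y := by
  classical
  obtain ⟨Y, ⟨hVY, hMY⟩, hYmin⟩ : ∃ Y : Subgroup A, (V ≤ Y ∧ M ⊔ Y = ⊤) ∧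
      ∀ Z : Subgroup A, (V ≤ Z ∧ M ⊔ Z = ⊤) → Z ≤ Y → Z = Y := by
    obtain ⟨Y, hY⟩ := Set.Finite.exists_minimal (s := {Y : Subgroup A | V ≤ Y ∧ M ⊔ Y = ⊤})
      (Set.toFinite _) ⟨⊤, le_top, sup_top_eq _⟩
    exact ⟨Y, hY.1, fun Z hZ hZY => le_antisymm hZY (hY.2 hZ hZY)⟩
  by_cases hY : Y = ⊤
  · left
    refine core_nil hM hVM hab hp ?_
    intro Z hVZ hMZ
    rw [← hY]
    exact hYmin Z ⟨hVZ, hMZ⟩ (by rw [hY]; exact le_top)
  · right
    refine ⟨Y, hVY, hY, hMY, ?_⟩
    have hV' : (V.subgroupOf Y).Normal := inferInstance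
    have hM' : (M.subgroupOf Y).Normal := inferInstance
    have hVM' : V.subgroupOf Y ≤ M.subgroupOf Y := fun x hx => hVM hx
    have hab' : ∀ x y : Y, y * x * y⁻¹ * x⁻¹ ∈ M.subgroupOf Y := by
      intro x y
      rw [Subgroup.mem_subgroupOf]
      exact hab x y
    have hidx : (M.subgroupOf Y).index = M.index := by
      have h1 := Subgroup.relIndex_sup_left (H := Y) (K := M)
      rw [hMY, Subgroup.relIndex_top_right] at h1
      exact h1.symm
    have hmin' : ∀ Z : Subgroup Y, V.subgroupOf Y ≤ Z → M.subgroupOf Y ⊔ Z = ⊤ → Z = ⊤ := by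
      intro Z hVZ hMZ
      have h1 : V ≤ Z.map Y.subtype := by
        intro v hv
        exact ⟨⟨v, hVY hv⟩, hVZ (Subgroup.mem_subgroupOf.2 hv), rfl⟩
      have h2 : M ⊔ Z.map Y.subtype = ⊤ := by
        rw [eq_top_iff, ← hMY]
        refine sup_le le_sup_left ?_
        have h3 := congrArg (Subgroup.map Y.subtype) hMZ
        rw [Subgroup.map_sup, ← MonoidHom.range_eq_map, Subgroup.range_subtype] at h3
        refine h3.symm.le.trans (sup_le_sup_right ?_ _)
        rintro _ ⟨m, hm, rfl⟩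
        exact hm
      have h3 : Z.map Y.subtype = Y := hYmin _ ⟨h1, h2⟩ (Subgroup.map_subtype_le Z)
      rw [eq_top_iff]
      intro y _
      have h4 : (y : A) ∈ Z.map Y.subtype := by
        rw [h3]
        exact y.2
      obtain ⟨z, hz, hzy⟩ := h4
      have h5 : z = y := Subtype.ext hzy
      rwa [← h5]
    exact (core_nil hM' hVM' hab' (by rwa [hidx]) hmin').2

end Pool.Agent.Lib.P0c8ca5.Xx
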