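import Mathlib
import Pool.Agent.Lib.P0c8ca5X.LfA
import Pool.Agent.Lib.P0c8ca5H.Om

/-!
# Module T2x: transport of the sums over the cosets

The p-subgroups `P` of `W` correspond to the p-subgroups `P.map π` of `V`; the stabilizers of the chains, the elements of the cosets
`W x` and `V (π x)`, the classes of irreducible representations and the symbols correspond.
-/

set_option autoImplicit false

namespace Pool.Agent.Lib.P0c8ca5.Xx

open MonoidAlgebra Ps Bq Zz Hh Gg Un8 InvAux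

universe u v

variable {p : ℕ} {k : Type v} [Field k] {A : Type u} [Group A] {K : Type u} [Group K]
  {V : Subgroup A} {π : K →* A} {W : Subgroup K}

namespace T2xAux

section rep

variable {S : Subgroup K} {S' : Subgroup A} (E : ↥S ≃* ↥S')

/-- the pull-back of a representation along an isomorphism -/
def pb {n : ℕ} (ρ : Rp k S' n) : Rp k S n := MonoidHom.comp ρ E.toMonoidHom

theorem pb_apply {n : ℕ} (ρ : Rp k S' n) (s : ↥S) (v : Fin n → k) :
    pb E ρ s v = ρ (E s) v := rfl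

theorem irr_pb {n : ℕ} {ρ : Rp k S' n} (h : Irr' ρ) : Irr' (pb E ρ) := by
  refine ⟨h.nontriv, fun U hU => h.sub U fun g w hw => ?_⟩
  have h1 := hU (E.symm g) w hw
  rwa [pb_apply, E.apply_symm_apply] at h1

theorem iso_pb {n m : ℕ} {ρ : Rp k S' n} {ρ' : Rp k S' m} :
    Iso (pb E ρ) (pb E ρ') ↔ Iso ρ ρ' := by
  constructor
  · rintro ⟨P, hP⟩
    refine ⟨P, fun x v => ?_⟩
    have h1 := hP (E.symm x) v
    rwa [pb_apply, pb_apply, E.apply_symm_apply] at h1
  · rintro ⟨P, hP⟩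
    exact ⟨P, fun x v => hP (E x) v⟩

theorem pb_symm {n : ℕ} (ρ : Rp k S n) : pb E (pb E.symm ρ) = ρ := by
  apply MonoidHom.ext
  intro s
  change ρ (E.symm (E s)) = ρ s
  rw [E.symm_apply_apply]

variable (hE : ∀ s : ↥S, ((E s : ↥S') : A) = π s)

include hE

theorem act_pb {n : ℕ} (ρ : Rp k S' n) {e : MonoidAlgebra k K}
    {e' : MonoidAlgebra k A} (he : ∀ s ∈ S, e.coeff s = e'.coeff (π s)) :
    act (pb E ρ) e = act ρ e' := by
  unfold act
  refine finsum_eq_of_bijective E E.bijective fun s => ?_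
  rw [he s s.2, ← hE s]
  rfl

theorem itw_pb {n : ℕ} (ρ : Rp k S' n) {x : K}
    (hx : ∀ s ∈ S, ∀ s' ∈ S, π s' = π (x * s * x⁻¹) → s' = x * s * x⁻¹)
    (X : (Fin n → k) ≃ₗ[k] (Fin n → k)) : Itw S (pb E ρ) x X ↔ Itw S' ρ (π x) X := by
  constructor
  · intro h g g' hg v
    have h1 : π (E.symm g) = g := by rw [← hE, E.apply_symm_apply]
    have h2 : π (E.symm g') = g' := by rw [← hE, E.apply_symm_apply]
    have h3 := h (E.symm g) (E.symm g') (hx _ (E.symm g).2 _ (E.symm g').2 (by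
      rw [h2, hg, map_mul, map_mul, map_inv, h1])) v
    rwa [pb_apply, pb_apply, E.apply_symm_apply, E.apply_symm_apply] at h3
  · intro h g g' hg v
    refine h (E g) (E g') ?_ v
    rw [hE, hE, hg, map_mul, map_mul, map_inv]

theorem omw_pb {n : ℕ} (ρ : Rp k S' n) {x y : K}
    (hx : ∀ s ∈ S, ∀ s' ∈ S, π s' = π (x * s * x⁻¹) → s' = x * s * x⁻¹)
    (hy : ∀ s ∈ S, ∀ s' ∈ S, π s' = π (y * s * y⁻¹) → s' = y * s * y⁻¹)
    {e : MonoidAlgebra k K} {e' : MonoidAlgebra k A}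
    (he : ∀ s ∈ S, e.coeff s = e'.coeff (π s)) :
    omw S (pb E ρ) x y e = omw S' ρ (π x) (π y) e' := by
  unfold omw
  refine OmBAux.dite_choose fun t => ?_
  unfold Omw
  rw [act_pb E hE ρ he]
  refine exists_congr fun X => exists_congr fun Y => ?_
  rw [itw_pb E hE ρ hx, itw_pb E hE ρ hy]

variable [Finite K] [Finite A] {f : MonoidAlgebra k K} {f' : MonoidAlgebra k A}

/-- the classes of the irreducible representations -/
noncomputable def cls (hf : ∀ s ∈ S, f.coeff s = f'.coeff (π s)) : IrX S' f' → IrX S f :=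
  Quotient.map (fun γ => mkIrr (pb E γ.ρ) (irr_pb E (irr_iff.1 γ.irr))
      (by rw [act_pb E hE _ hf]; exact act_iff.2 γ.blk))
    (fun _ _ h => iso_iff.1 ((iso_pb E).2 (iso_iff.2 h)))

theorem cls_bij (hf : ∀ s ∈ S, f.coeff s = f'.coeff (π s)) :
    Function.Bijective (cls E hE hf) := by
  constructor
  · intro a b
    induction a using Quotient.inductionOn with
    | _ γ =>
    induction b using Quotient.inductionOn with
    | _ δ =>
      intro h
      have h1 : Iso (pb E γ.ρ) (pb E δ.ρ) := mk_eq_mk.1 h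
      exact mk_eq_mk.2 ((iso_pb E).1 h1)
  · intro a
    induction a using Quotient.inductionOn with
    | _ γ =>
      have h1 : act (pb E.symm γ.ρ) f' = 1 := by
        rw [← act_pb E hE _ hf, pb_symm]
        exact act_iff.2 γ.blk
      refine ⟨⟦mkIrr (pb E.symm γ.ρ) (irr_pb E.symm (irr_iff.1 γ.irr)) h1⟧, ?_⟩
      apply mk_eq_mk.2
      change Iso (pb E (pb E.symm γ.ρ)) γ.ρ
      rw [pb_symm]
      exact Iso.refl _

theorem sum_cls [Fact p.Prime] [CharP k p] (hf : ∀ s ∈ S, f.coeff s = f'.coeff (π s)) {x y : K}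
    (hx : ∀ s ∈ S, ∀ s' ∈ S, π s' = π (x * s * x⁻¹) → s' = x * s * x⁻¹)
    (hy : ∀ s ∈ S, ∀ s' ∈ S, π s' = π (y * s * y⁻¹) → s' = y * s * y⁻¹)
    {e : MonoidAlgebra k K} {e' : MonoidAlgebra k A}
    (he : ∀ s ∈ S, e.coeff s = e'.coeff (π s)) :
    (∑ᶠ m : IrX S f, WittVector.teichmuller p (omwX S f m x y e)) =
      ∑ᶠ m : IrX S' f', WittVector.teichmuller p (omwX S' f' m (π x) (π y) e') := by
  symm
  refine finsum_eq_of_bijective (cls E hE hf) (cls_bij E hE hf) fun m => ?_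
  congr 1
  induction m using Quotient.inductionOn with
  | _ γ =>
    change omwX S' f' ⟦γ⟧ (π x) (π y) e' = omwX S f ⟦_⟧ x y e
    rw [omwX_mk, omwX_mk]
    exact (omw_pb E hE γ.ρ hx hy he).symm

end rep

section chains

open Classical in
/-- the image of a chain -/
noncomputable def im (π : K →* A) (σ : Finset (Subgroup K)) : Finset (Subgroup A) :=
  σ.image (Subgroup.map π)

theorem mem_im {σ : Finset (Subgroup K)} {P : Subgroup A} :
    P ∈ im π σ ↔ ∃ Q ∈ σ, Q.map π = P := by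
  classical
  rw [im, Finset.mem_image]

theorem sup_im (σ : Finset (Subgroup K)) : (im π σ).sup id = (σ.sup id).map π := by
  classical
  rw [im, Finset.sup_image]
  exact (Finset.apply_sup_eq_sup_comp (Subgroup.map π) (fun a b => Subgroup.map_sup a b π)
    (Subgroup.map_bot π)).symm

variable (h : CX p V π W)

include h

theorem im_inj {σ τ : Finset (Subgroup K)} (hσ : ∀ Q ∈ σ, Q ≤ W) (hτ : ∀ Q ∈ τ, Q ≤ W)
    (he : im π σ = im π τ) : σ ⊆ τ := by
  intro Q hQ
  have h1 : Q.map π ∈ im π τ := by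
    rw [← he]
    exact mem_im.2 ⟨Q, hQ, rfl⟩
  obtain ⟨R, hR, hRQ⟩ := mem_im.1 h1
  have h2 : Q = R := le_antisymm ((h.map_inj (hσ Q hQ) (hτ R hR)).1 hRQ.ge)
    ((h.map_inj (hτ R hR) (hσ Q hQ)).1 hRQ.le)
  rwa [h2]

theorem im_card {σ : Finset (Subgroup K)} (hσ : ∀ Q ∈ σ, Q ≤ W) : (im π σ).card = σ.card := by
  classical
  rw [im]
  apply Finset.card_image_of_injOn
  intro Q hQ R hR hQR
  exact le_antisymm ((h.map_inj (hσ Q hQ) (hσ R hR)).1 (le_of_eq hQR))
    ((h.map_inj (hσ R hR) (hσ Q hQ)).1 (le_of_eq hQR.symm))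

theorem im_mem [Fintype K] [Fintype A] {σ : Finset (Subgroup K)} (hσ : σ ∈ Ch (famAll p W)) :
    im π σ ∈ Ch (famAll p V) := by
  rw [mem_Ch] at hσ ⊢
  refine ⟨?_, ?_⟩
  · intro P hP
    obtain ⟨Q, hQ, rfl⟩ := mem_im.1 hP
    obtain ⟨h1, h2, h3⟩ := mem_famAll.1 (hσ.1 hQ)
    exact mem_famAll.2 ⟨h.map_le h1, (h.map_pgroup h1).2 h2, fun h0 => h3 ((h.map_ne_bot h1).1 h0)⟩
  · intro P hP R hR hPR
    obtain ⟨P, hP', rfl⟩ := mem_im.1 hP
    obtain ⟨R, hR', rfl⟩ := mem_im.1 hR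
    rcases hσ.2 hP' hR' (fun h0 => hPR (by rw [h0])) with h1 | h1
    · exact Or.inl (Subgroup.map_mono h1)
    · exact Or.inr (Subgroup.map_mono h1)

theorem im_surj [Fintype K] [Fintype A] {τ : Finset (Subgroup A)} (hτ : τ ∈ Ch (famAll p V)) :
    ∃ σ ∈ Ch (famAll p W), im π σ = τ := by
  classical
  rw [mem_Ch] at hτ
  refine ⟨Finset.univ.filter (fun Q => Q ≤ W ∧ Q.map π ∈ τ), ?_, ?_⟩
  · rw [mem_Ch]
    refine ⟨?_, ?_⟩
    · intro Q hQ
      obtain ⟨-, h1, h2⟩ := Finset.mem_filter.1 hQ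
      obtain ⟨-, h4, h5⟩ := mem_famAll.1 (hτ.1 h2)
      exact mem_famAll.2 ⟨h1, (h.map_pgroup h1).1 h4, fun h0 => h5 ((h.map_ne_bot h1).2 h0)⟩
    · intro P hP R hR hPR
      obtain ⟨-, h1, h2⟩ := Finset.mem_filter.1 (Finset.mem_coe.1 hP)
      obtain ⟨-, h3, h4⟩ := Finset.mem_filter.1 (Finset.mem_coe.1 hR)
      have h5 : P.map π ≠ R.map π := by
        intro h0
        exact hPR (le_antisymm ((h.map_inj h1 h3).1 h0.le) ((h.map_inj h3 h1).1 h0.ge))
      rcases hτ.2 h2 h4 h5 with h6 | h6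
      · exact Or.inl ((h.map_inj h1 h3).1 h6)
      · exact Or.inr ((h.map_inj h3 h1).1 h6)
  · ext P
    rw [mem_im]
    constructor
    · rintro ⟨Q, hQ, rfl⟩
      exact (Finset.mem_filter.1 hQ).2.2
    · intro hP
      obtain ⟨Q, hQ, hQP⟩ := h.exists_sub (mem_famAll.1 (hτ.1 hP)).1
      exact ⟨Q, Finset.mem_filter.2 ⟨Finset.mem_univ _, hQ, by rwa [hQP]⟩, hQP⟩

theorem stab_im {σ : Finset (Subgroup K)} (hσ : ∀ Q ∈ σ, Q ≤ W) (x : K) :
    π x ∈ stab ⊤ (im π σ) ↔ x ∈ stab ⊤ σ := by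
  rw [mem_stab, mem_stab]
  constructor
  · rintro ⟨-, h1⟩
    refine ⟨Subgroup.mem_top _, fun Q hQ => (h.normalizer (hσ Q hQ) x).2 ?_⟩
    exact h1 _ (mem_im.2 ⟨Q, hQ, rfl⟩)
  · rintro ⟨-, h1⟩
    refine ⟨Subgroup.mem_top _, fun P hP => ?_⟩
    obtain ⟨Q, hQ, rfl⟩ := mem_im.1 hP
    exact (h.normalizer (hσ Q hQ) x).1 (h1 Q hQ)

theorem map_stab {σ : Finset (Subgroup K)} (hσ : ∀ Q ∈ σ, Q ≤ W) :
    (stab W σ).map π = stab V (im π σ) := by
  ext a
  constructor
  · rintro ⟨x, hx, rfl⟩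
    rw [SetLike.mem_coe, mem_stab] at hx
    have h1 := (stab_im h hσ x).2 (mem_stab.2 ⟨Subgroup.mem_top _, hx.2⟩)
    exact mem_stab.2 ⟨h.mem hx.1, (mem_stab.1 h1).2⟩
  · intro ha
    rw [mem_stab] at ha
    obtain ⟨x, hx, rfl⟩ := h.exists_mem ha.1
    have h1 := (stab_im h hσ x).1 (mem_stab.2 ⟨Subgroup.mem_top _, ha.2⟩)
    exact ⟨x, mem_stab.2 ⟨hx, (mem_stab.1 h1).2⟩, rfl⟩

theorem card_map {S : Subgroup K} (hS : S ≤ W) : Nat.card ↥(S.map π) = Nat.card ↥S := by
  symm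
  refine Nat.card_congr (Equiv.ofBijective (π.subgroupMap S) ⟨?_, π.subgroupMap_surjective S⟩)
  rw [injective_iff_map_eq_one]
  intro s hs
  exact Subtype.ext (h.inj s (hS s.2) (congrArg Subtype.val hs))

theorem relIndex_map [Finite K] {S : Subgroup K} (hS : S ≤ W) :
    (S.map π).relIndex V = S.relIndex W := by
  have h1 := Subgroup.relIndex_mul_relIndex ⊥ S W bot_le hS
  have h2 := Subgroup.relIndex_mul_relIndex ⊥ (S.map π) V bot_le (h.map_le hS)
  rw [Subgroup.relIndex_bot_left, Subgroup.relIndex_bot_left] at h1 h2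
  rw [card_map h hS, ← h.map, card_map h le_rfl, ← h1] at h2
  rw [← h.map]
  exact Nat.eq_of_mul_eq_mul_left Nat.card_pos h2

end chains

end T2xAux

open T2xAux

theorem T2_lf [Fact p.Prime] [CharP k p] [IsAlgClosed k] [Fintype K] [Fintype A]
    (h : CX p V π W) {c : MonoidAlgebra k A} (hc : IsBlock V c) (x y : K) {w : MonoidAlgebra k A}
    (hw : ∀ z, w.coeff z ≠ 0 → z * π (y * x * y⁻¹ * x⁻¹) ∈ V) (hwi : InvBy V w) :
    T2 p W (famAll p W) (lf π W 1 c) x y (lf π W (y * x * y⁻¹ * x⁻¹)⁻¹ w)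
      = T2 p V (famAll p V) c (π x) (π y) w := by
  classical
  have hWn := h.nW
  -- the sums over the cosets
  have hcos : ∀ {R : Type v} [AddCommMonoid R] (g : K) (F : A → R),
      ∑ u ∈ csF W g, F (π u) = ∑ a ∈ csF V (π g), F a := by
    intro R _ g F
    refine Finset.sum_bij (fun u _ => π u) ?_ ?_ ?_ ?_
    · intro u hu
      rw [mem_csF] at hu ⊢
      rw [← map_inv, ← map_mul]
      exact h.mem hu
    · intro u hu u' hu' he
      rw [mem_csF] at hu hu'
      refine h.eq_of ?_ he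
      have e : u * u'⁻¹ = u * g⁻¹ * (u' * g⁻¹)⁻¹ := by group
      rw [e]
      exact W.mul_mem hu (W.inv_mem hu')
    · intro a ha
      rw [mem_csF] at ha
      obtain ⟨s, hs, rfl⟩ := h.exists_coset g ha
      exact ⟨s, mem_csF.2 hs, rfl⟩
    · intro u _
      rfl
  -- the values of the pairs
  have key : ∀ u ∈ csF W x, ∀ v ∈ csF W y,
      dlw p W (famAll p W) (lf π W 1 c) u v (lf π W (y * x * y⁻¹ * x⁻¹)⁻¹ w) =
        dlw p V (famAll p V) c (π u) (π v) w := by
    intro u hu v hv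
    rw [mem_csF] at hu hv
    unfold dlw
    have hleW : ∀ {σ : Finset (Subgroup K)}, σ ∈ Ch (famAll p W) → ∀ Q ∈ σ, Q ≤ W :=
      fun hσ Q hQ => (mem_famAll.1 ((mem_Ch.1 hσ).1 hQ)).1
    refine Finset.sum_bij (fun σ _ => im π σ) ?_ ?_ ?_ ?_
    · intro σ hσ
      rw [Finset.mem_filter] at hσ ⊢
      exact ⟨im_mem h hσ.1, (stab_im h (hleW hσ.1) u).2 hσ.2.1,
        (stab_im h (hleW hσ.1) v).2 hσ.2.2⟩
    · intro σ hσ τ hτ he
      have h1 := hleW (Finset.mem_filter.1 hσ).1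
      have h2 := hleW (Finset.mem_filter.1 hτ).1
      exact Finset.Subset.antisymm (im_inj h h1 h2 he) (im_inj h h2 h1 he.symm)
    · intro τ hτ
      rw [Finset.mem_filter] at hτ
      obtain ⟨σ, hσ, rfl⟩ := im_surj h hτ.1
      exact ⟨σ, Finset.mem_filter.2 ⟨hσ, (stab_im h (hleW hσ) u).1 hτ.2.1,
        (stab_im h (hleW hσ) v).1 hτ.2.2⟩, rfl⟩
    · intro σ hσ
      rw [Finset.mem_filter] at hσ
      have hle := hleW hσ.1
      have hSW : stab W σ ≤ W := fun s hs => (mem_stab.1 hs).1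
      have hQW : σ.sup id ≤ W := Finset.sup_le hle
      have hcard : (im π σ).card = σ.card := im_card h hle
      have hrel : (stab V (im π σ)).relIndex V = (stab W σ).relIndex W := by
        rw [← map_stab h hle]
        exact relIndex_map h hSW
      rw [hcard, hrel]
      congr 1
      let E₀ : ↥(stab W σ) ≃* ↥((stab W σ).map π) :=
        MulEquiv.ofBijective (π.subgroupMap (stab W σ)) ⟨by
          rw [injective_iff_map_eq_one]
          intro s hs
          exact Subtype.ext (h.inj s (hSW s.2) (congrArg Subtype.val hs)),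
          π.subgroupMap_surjective _⟩
      let E : ↥(stab W σ) ≃* ↥(stab V (im π σ)) :=
        E₀.trans (MulEquiv.subgroupCongr (map_stab h hle))
      have hE : ∀ s : ↥(stab W σ), ((E s : ↥(stab V (im π σ))) : A) = π s := fun s => rfl
      have hinj : ∀ z : K, ∀ s ∈ stab W σ, ∀ s' ∈ stab W σ,
          π s' = π (z * s * z⁻¹) → s' = z * s * z⁻¹ := by
        intro z s hs s' hs' he
        refine h.eq_of ?_ he
        exact W.mul_mem (hSW hs') (W.inv_mem (hWn.conj_mem _ (hSW hs) z))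
      refine sum_cls E hE ?_ (hinj u) (hinj v) ?_
      · intro s hs
        rw [lf_cS h hQW, coeff_lf, sup_im]
        rw [inv_one, mul_one]
        exact hSW hs
      · intro s hs
        rw [coeff_single_mul_apply, one_mul, coeff_single_mul_apply, one_mul, lf_cS h hQW,
          coeff_lf, sup_im, map_mul, map_inv]
        · simp only [map_mul, map_inv]
        · -- the commutators agree modulo `W`
          obtain ⟨g, hg⟩ : ∃ g, g = v * u * v⁻¹ * u⁻¹ := ⟨_, rfl⟩
          obtain ⟨g₀, hg₀⟩ : ∃ g₀, g₀ = y * x * y⁻¹ * x⁻¹ := ⟨_, rfl⟩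
          have h1 : ((u : K) : K ⧸ W) = (x : K) := by
            have h2 : x * u⁻¹ ∈ W := by
              have e : x * u⁻¹ = (u * x⁻¹)⁻¹ := by group
              rw [e]
              exact W.inv_mem hu
            rw [QuotientGroup.eq]
            have e : u⁻¹ * x = u⁻¹ * (x * u⁻¹) * u⁻¹⁻¹ := by group
            rw [e]
            exact hWn.conj_mem _ h2 _
          have h2 : ((v : K) : K ⧸ W) = (y : K) := by
            have h2 : y * v⁻¹ ∈ W := by
              have e : y * v⁻¹ = (v * y⁻¹)⁻¹ := by group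
              rw [e]
              exact W.inv_mem hv
            rw [QuotientGroup.eq]
            have e : v⁻¹ * y = v⁻¹ * (y * v⁻¹) * v⁻¹⁻¹ := by group
            rw [e]
            exact hWn.conj_mem _ h2 _
          have h3 : ((g : K) : K ⧸ W) = (g₀ : K) := by
            rw [hg, hg₀]
            simp only [QuotientGroup.mk_mul, QuotientGroup.mk_inv, h1, h2]
          rw [← hg, ← hg₀, inv_inv]
          have h4 : ((g⁻¹ * s * g₀ : K) : K ⧸ W) = 1 := by
            have h5 : ((s : K) : K ⧸ W) = 1 := (QuotientGroup.eq_one_iff s).2 (hSW hs)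
            simp only [QuotientGroup.mk_mul, QuotientGroup.mk_inv, h3, h5, mul_one, inv_mul_cancel]
          exact (QuotientGroup.eq_one_iff _).1 h4
  unfold T2
  rw [← hcos x]
  apply Finset.sum_congr rfl
  intro u hu
  rw [← hcos y]
  apply Finset.sum_congr rfl
  intro v hv
  exact key u hu v hv

end Pool.Agent.Lib.P0c8ca5.Xx
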