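import Mathlib
import Pool.Agent.Lib.P0c8ca5U.UntC
import Pool.Agent.Lib.P0c8ca5U.UntD

/-!
# Module HasB: the Brauer subgroups of a block over `c`

PROOF.  `b = ∑ b_q` over the cosets `q = V x` of `V` in `M = h.unt` (`sum_comp'`), `b_q` is in `(kM)^V`, and `b_q = z_q w_q` with `w_q` the unit over `x` (`UP`) and
`z_q = b_q v_q` in `(kV)^V`, `z_q c = z_q`.  If `Br_P(b) = 0` then `Br_P(b_q) = 0` (the coset components of `cS P b`), so `Br_P(z_q) = Br_P(b_q) Br_P(v_q) = 0`
(`resS_mul`), so `z_q` is not a unit of the local ring `(kV)^V c` (as `Br_P(c) ≠ 0`), so it is nilpotent (`UH.nilp_or_unit`), and it is central in `(kM)^V`; so `b` is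
nilpotent, `b * b = b ≠ 0`: contradiction.
-/

set_option autoImplicit false

namespace Pool.Agent.Lib.P0c8ca5.Un8

open MonoidAlgebra Bq Ps

variable {p : ℕ} {k : Type*} [Field k] {A : Type*} [Group A]

namespace HasBAux

theorem pow_add_form {R : Type*} [Ring R] {z u a : R} (hc : ∀ r : R, z * r = r * z) (n : ℕ) :
    ∃ r, (z * u + a) ^ n = z * r + a ^ n := by
  induction n with
  | zero => exact ⟨0, by rw [pow_zero, pow_zero, mul_zero, zero_add]⟩
  | succ n ih =>
    obtain ⟨r, hr⟩ := ih
    refine ⟨r * (z * u + a) + a ^ n * u, ?_⟩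
    rw [pow_succ, hr, add_mul, mul_add (a ^ n), ← mul_assoc (a ^ n) z, ← hc (a ^ n), mul_add z,
      mul_assoc, mul_assoc z (a ^ n), ← add_assoc, ← pow_succ]

theorem nilp_add {R : Type*} [Ring R] {z u a : R} (hc : ∀ r : R, z * r = r * z)
    (hz : IsNilpotent z) (ha : IsNilpotent a) : IsNilpotent (z * u + a) := by
  obtain ⟨n, hn⟩ := ha
  obtain ⟨m, hm⟩ := hz
  obtain ⟨r, hr⟩ := pow_add_form (u := u) (a := a) hc n
  refine ⟨n * m, ?_⟩
  rw [pow_mul, hr, hn, add_zero, Commute.mul_pow (hc r), hm, zero_mul]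

theorem nilp_sum {R : Type*} [Ring R] {ι : Type*} (s : Finset ι) (z u : ι → R)
    (hz : ∀ i, IsNilpotent (z i)) (hc : ∀ i, ∀ r : R, z i * r = r * z i) :
    IsNilpotent (∑ i ∈ s, z i * u i) := by
  classical
  induction s using Finset.induction_on with
  | empty =>
    rw [Finset.sum_empty]
    exact IsNilpotent.zero
  | insert i s hi ih =>
    rw [Finset.sum_insert hi]
    exact nilp_add (hc i) (hz i) ih

end HasBAux

open HasBAux

theorem hasBr_of_unt [Fact p.Prime] [CharP k p] [Fintype A] {V : Subgroup A}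
    {c b : MonoidAlgebra k A} (h : UH V ⊤ c) (hb : InvBy ⊤ b) (hbb : b * b = b) (hb0 : b ≠ 0)
    (hbc : b * c = b) (hbM : SuppIn h.unt b) {P : Subgroup A} (hPV : P ≤ V) (hP : IsPGroup p P)
    (hbr : HasBr P c) : HasBr P b := by
  classical
  by_contra hno
  have hbV : InvBy V b := hb.mono le_top
  have hnm : ∀ x : A, x ∈ Subgroup.normalizer (V : Set A) := fun x => h.nm (Subgroup.mem_top x)
  have hC : ∀ x ∈ Subgroup.centralizer (P : Set A), b.coeff x = 0 := by
    intro x hx
    by_contra h0
    exact hno ⟨x, hx, h0⟩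
  -- the components
  have key : ∀ q : Quotient (QuotientGroup.rightRel V), ∃ z u : ↥(fixAlg k (⊤ : Subgroup A) V),
      IsNilpotent z ∧ (∀ r : ↥(fixAlg k (⊤ : Subgroup A) V), z * r = r * z) ∧
      (z : MonoidAlgebra k A) * u = resS (cos V q.out) b := by
    intro q
    obtain ⟨x, hx⟩ : ∃ x, x = q.out := ⟨_, rfl⟩
    rw [← hx]
    obtain ⟨bq, hbq⟩ : ∃ a, a = resS (cos V x) b := ⟨_, rfl⟩
    have hbqs : ∀ z, bq.coeff z ≠ 0 → z * x⁻¹ ∈ V := by
      intro z hz
      rw [hbq] at hz
      exact supp_comp' hz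
    have hbqi : InvBy V bq := by
      rw [hbq]
      exact inv_comp' (hnm x) hbV
    by_cases hxM : x ∈ h.unt
    swap
    · refine ⟨0, 0, IsNilpotent.zero, fun r => by rw [zero_mul, mul_zero], ?_⟩
      rw [← hbq]
      have h1 : bq = 0 := by
        ext z
        by_contra h0
        have h2 := hbqs z h0
        have h3 : b.coeff z ≠ 0 := by
          intro h4
          apply h0
          rw [hbq]
          by_cases hz : z ∈ cos V x
          · rw [coeff_resS_of_mem _ hz, h4]
            rfl
          · rw [coeff_resS_of_notMem _ hz]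
            rfl
        have h5 := hbM z h3
        apply hxM
        have e : x = (z * x⁻¹)⁻¹ * z := by group
        rw [e]
        exact h.unt.mul_mem (h.unt.inv_mem (h.le_unt h2)) h5
      rw [h1]
      exact mul_zero _
    · obtain ⟨-, u, v, huv⟩ := h.mem_unt.1 hxM
      -- `b_q c = b_q`
      have hbqc : bq * c = bq := by
        have h1 : c * b = b := by
          rw [← h.comm' hbV, hbc]
        have h2 := resS_mul_hom (y := x) (hnm 1) (u := c) (fun z hz => by
          rw [inv_one, mul_one]
          exact h.blk.suppIn z hz) b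
        rw [one_mul, h1, ← hbq] at h2
        rw [h.comm' hbqi]
        exact h2.symm
      -- `z = b_q v`
      have hzs : SuppIn V (bq * v) := by
        intro z hz
        have h1 := coset_mul (y := x⁻¹) (hnm x) hbqs
          (fun z hz => by rw [inv_inv]; exact huv.sv z hz) z hz
        rwa [mul_inv_cancel, inv_one, mul_one] at h1
      have hzi : InvBy V (bq * v) := invMul hbqi huv.iv
      have hzc : bq * v * c = bq * v := by rw [mul_assoc, huv.vc]
      have hzN : bq * v ∈ fixAlg k V V := mem_fixAlg.2 ⟨hzs, hzi⟩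
      have hBr : resS (Subgroup.centralizer (P : Set A) : Set A) (bq * v) = 0 := by
        rw [resS_mul hP (hbqi.mono hPV) (huv.iv.mono hPV)]
        have h1 : resS (Subgroup.centralizer (P : Set A) : Set A) bq = 0 := by
          ext y
          by_cases hy : y ∈ (Subgroup.centralizer (P : Set A) : Set A)
          · rw [coeff_resS_of_mem _ hy, hbq]
            by_cases hz : y ∈ cos V x
            · rw [coeff_resS_of_mem _ hz, hC y hy]
              rfl
            · rw [coeff_resS_of_notMem _ hz]
              rfl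
          · rw [coeff_resS_of_notMem _ hy]
            rfl
        rw [h1, zero_mul]
      have hznil : IsNilpotent (bq * v) := by
        rcases h.nilp_or_unit hzN hzc with h1 | ⟨u', hu', -, h3⟩
        · exact h1
        · exfalso
          obtain ⟨y, hy, hcy⟩ := hbr
          apply hcy
          have h4 := resS_mul hP (hzi.mono hPV) ((mem_fixAlg.1 hu').2.mono hPV)
          rw [h3, hBr, zero_mul] at h4
          have h5 : (resS (Subgroup.centralizer (P : Set A) : Set A) c).coeff y =
              (0 : MonoidAlgebra k A).coeff y :=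
            congrArg (fun a : MonoidAlgebra k A => a.coeff y) h4
          rw [coeff_resS_of_mem _ hy] at h5
          rw [h5]
          rfl
      have hsT : ∀ a : MonoidAlgebra k A, SuppIn (⊤ : Subgroup A) a := fun a z _ =>
        Subgroup.mem_top z
      refine ⟨⟨bq * v, mem_fixAlg.2 ⟨hsT _, hzi⟩⟩, ⟨u, mem_fixAlg.2 ⟨hsT _, huv.iu⟩⟩, ?_, ?_, ?_⟩
      · obtain ⟨n, hn⟩ := hznil
        exact ⟨n, Subtype.ext hn⟩
      · intro r
        exact Subtype.ext (commute_of hzs (mem_fixAlg.1 r.2).2)
      · change bq * v * u = _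
        rw [mul_assoc, huv.vu, hbqc, hbq]
  choose z u hz hc hzu using key
  have hnil : IsNilpotent (∑ q : Quotient (QuotientGroup.rightRel V), z q * u q) :=
    nilp_sum _ z u hz hc
  have hsum : ((∑ q : Quotient (QuotientGroup.rightRel V), z q * u q :
      ↥(fixAlg k (⊤ : Subgroup A) V)) : MonoidAlgebra k A) = b := by
    rw [AddSubmonoidClass.coe_finsetSum]
    conv_rhs => rw [sum_comp' V b]
    apply Finset.sum_congr rfl
    intro q _
    exact hzu q
  obtain ⟨n, hn⟩ := hnil
  have hbn : b ^ n = 0 := by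
    rw [← hsum]
    exact congrArg Subtype.val hn
  have hpow : ∀ m : ℕ, b ^ (m + 1) = b := by
    intro m
    induction m with
    | zero => rw [zero_add, pow_one]
    | succ m ih => rw [pow_succ, ih, hbb]
  apply hb0
  rw [← hpow n, pow_succ, hbn, zero_mul]

end Pool.Agent.Lib.P0c8ca5.Un8
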