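import Mathlib
import Pool.Agent.Lib.P0c8ca5M.IsoD

/-!
# Module Iso: the isolation with the weight equality for the twisted extensions as a hypothesis

PROOF.  As `Mm.bl_tw` (P0c8ca5M.TwF), `Mm.sum_det`, `Mm.sum_det_one` (TwG) and `Mm.Sit.iso` (IsoD), with `HW` in place of `weq_tw`, for all pairs `(x, y)`
(no condition `M ⊔ closure {x, y} ≠ ⊤`).
-/

set_option autoImplicit false

namespace Pool.Agent.Lib.P0c8ca5.Xx

open MonoidAlgebra Ps Bq Zz Hh Gg Un8 Mm

universe u v

variable {p : ℕ} {k : Type v} [Field k] {K : Type u} [Group K]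

/-- the weight equality for the twisted central extensions of the subgroups above `M` -/
def HW (p : ℕ) [Fact p.Prime] [Fintype K] (M : Subgroup K) (b : MonoidAlgebra k K) : Prop :=
  ∀ (Y : Subgroup K) (m : ℕ) [NeZero m] (τ : TD M Y m) (χ : AddChar (ZMod m) k), M ≤ Y →
    ¬ p ∣ m → ∀ (X : Subgroup (Tw τ)) (f : MonoidAlgebra k (Tw τ)), f ∈ fixAlg k X X →
      f * f = f →
      (∀ P : Subgroup (Tw τ), P ≤ X → IsPGroup p P → HasBr P f → HasBr P (twA τ χ b)) →
      Cy.WEq p X f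


namespace IsoAux

variable {M Y V : Subgroup K} {m : ℕ} [NeZero m]

/-- the data -/
structure Dt (p : ℕ) [Fact p.Prime] [CharP k p] [Fintype K] (V M : Subgroup K)
    (c b : MonoidAlgebra k K) : Prop where
  nV : V.Normal
  cblk : IsBlock V c
  cinv : InvBy ⊤ c
  cb : c * b = b
  inv : InvBy ⊤ b
  idem : b * b = b
  br : ∃ P : Subgroup K, P ≤ V ∧ IsPGroup p P ∧ P ≠ ⊥ ∧ HasBr P c
  nM : M.Normal
  hVM : V ≤ M
  supp : SuppIn M b
  hW : HW p M b

/-- the alternating sum vanishes in the twisted central extension -/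
theorem bl_zero [Fact p.Prime] [CharP k p] [IsAlgClosed k] [Fintype K]
    {c b : MonoidAlgebra k K} (h : Dt p V M c b) {D : Finset (Subgroup K)} (hD : Fam p ⊤ V D)
    (hpm : ¬ p ∣ m) (hMY : M ≤ Y) (τ : TD M Y m) (χ : AddChar (ZMod m) k) :
    Bl (⊤ : Subgroup (Tw τ)) (smc τ D) (twA τ χ b) = 0 := by
  classical
  have hm : (m : k) ≠ 0 := by
    intro h0
    exact hpm ((CharP.cast_eq_zero_iff k p m).1 h0)
  have hVM := h.hVM
  have hb := h.supp
  have hn : Y ≤ Subgroup.normalizer (M : Set K) := by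
    have := h.nM
    rw [Subgroup.normalizer_eq_top]
    exact le_top
  have hfam := fam_tw (τ := τ) hpm hMY hn hVM hD
  obtain ⟨P, hPV, hPp, hP1, hbr⟩ := h.br
  have hPM : P ≤ M := hPV.trans hVM
  have hcM : SuppIn M c := h.cblk.suppIn.mono hVM
  have htop : ∀ X : Subgroup K, (⊤ : Subgroup (Tw τ)) = (⊤ : Subgroup K).comap (Tw.pr τ) :=
    fun _ => (Subgroup.comap_top _).symm
  have hVn : (⊤ : Subgroup (Tw τ)) ≤
      Subgroup.normalizer ((V.comap (Tw.pr τ) : Subgroup (Tw τ)) : Set (Tw τ)) := by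
    have := h.nV
    have h1 : (V.comap (Tw.pr τ)).Normal := h.nV.comap _
    rw [Subgroup.normalizer_eq_top]
  have hci : InvBy (⊤ : Subgroup (Tw τ)) (twA τ χ c) := by
    rw [htop M]
    exact twA_invBy hn hcM h.cinv
  have hfi : InvBy (⊤ : Subgroup (Tw τ)) (twA τ χ b) := by
    rw [htop M]
    exact twA_invBy hn hb h.inv
  have hff : twA τ χ b * twA τ χ b = twA τ χ b := by
    rw [twA_mul hMY hm hb, h.idem]
  have hf : twA τ χ b ∈ fixAlg k (⊤ : Subgroup (Tw τ)) ⊤ :=
    mem_fixAlg.2 ⟨fun _ _ => Subgroup.mem_top _, hfi⟩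
  have hcf : twA τ χ c * twA τ χ b = twA τ χ b := by
    rw [twA_mul hMY hm hcM, h.cb]
  rw [← hfam.bl_eq le_top hVn (twA_block hm hVM hMY hn h.cblk) hci
    ((smap_le_comap P).trans (Subgroup.comap_mono hPV)) (smap_isPGroup hPp)
    (smap_ne_bot hMY hPM hP1) (twA_hasBr hm hMY hPM (hcM.mono hMY) hbr) hf hcf ?_]
  · have h1 := h.hW Y m τ χ hMY hpm ⊤ _ hf hff (fun P _ _ hP => hP)
    unfold Cy.WEq at h1
    rw [h1, sub_self]
  · intro σ hσ hne
    obtain ⟨hσD, hch⟩ := InvAux.mem_Ch.1 hσ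
    have hSσ : σ.sup id ∈ σ := sup_mem_chain hne hch
    have hctx : Ctx p ⊤ (stab ⊤ σ) (σ.sup id) (twA τ χ b) :=
      { hHX := inf_le_left
        hS := hfam.pgrp _ (hσD hSσ)
        hHS := fun x hx => (mem_stab.1 hx).2 _ hSσ
        hCS := by
          intro x hx
          rw [mem_stab]
          refine ⟨hx.1, fun R hR => ?_⟩
          have hRS : R ≤ σ.sup id := Finset.le_sup (f := id) hR
          exact Subgroup.centralizer_le_normalizer _ (Subgroup.centralizer_le hRS hx.2)
        supp := (mem_fixAlg.1 hf).1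
        inv := (mem_fixAlg.1 hf).2 }
    exact h.hW Y m τ χ hMY hpm _ _ (mem_fixAlg.2 ⟨hctx.cS_supp, hctx.cS_inv⟩)
      (hctx.cS_idem le_top hff) (fun P _ _ hP => hasBr_cS hP)

theorem sum_det [Fact p.Prime] [CharP k p] [IsAlgClosed k] [Fintype K] [Fintype ↥Y]
    {V : Subgroup K}
    {c b : MonoidAlgebra k K} (h : Dt p V M c b) {D : Finset (Subgroup K)} (hD : Fam p ⊤ V D)
    (hab : ∀ x y : K, y * x * y⁻¹ * x⁻¹ ∈ M) (hp : ¬ p ∣ M.index) (hMY : M ≤ Y)
    (hpm : ¬ p ∣ m) (τ : TD M Y m) (χ : AddChar (ZMod m) k) :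
    ∑ u : ↥Y, ∑ v : ↥Y, WittVector.teichmuller p (χ (τ.det u v)) *
      dl p M D b (u : K) (v : K) = 0 := by
  classical
  have hm : (m : k) ≠ 0 := by
    intro h0
    exact hpm ((CharP.cast_eq_zero_iff k p m).1 h0)
  have hM := h.nM
  have hVM := h.hVM
  have hb := h.supp
  have hn : Y ≤ Subgroup.normalizer (M : Set K) := by
    rw [Subgroup.normalizer_eq_top]
    exact le_top
  have hDM : ∀ Q ∈ D, Q ≤ M := fun Q hQ => (hD.le Q hQ).trans hVM
  have hfam := fam_tw (τ := τ) hpm hMY hn hVM hD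
  have h0 := bl_zero h hD hpm hMY τ χ
  have hMn : (M.comap (Tw.pr τ)).Normal := hM.comap _
  have htop : (⊤ : Subgroup (Tw τ)) = (⊤ : Subgroup K).comap (Tw.pr τ) :=
    (Subgroup.comap_top _).symm
  have hfi : InvBy (⊤ : Subgroup (Tw τ)) (twA τ χ b) := by
    rw [htop]
    exact twA_invBy hn hb h.inv
  have hff : twA τ χ b * twA τ χ b = twA τ χ b := by
    rw [twA_mul hMY hm hb, h.idem]
  have h1 := bl_pairs (p := p) (M := M.comap (Tw.pr τ)) (Y := ⊤) le_top (by
      rw [Subgroup.normalizer_eq_top]) (D := smc τ D)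
    (fun Q hQ => ⟨le_top, hfam.pgrp Q hQ⟩) (twA_suppIn hb) hfi hff
  rw [h0, Int.cast_zero, mul_zero] at h1
  -- all pairs occur
  have h2 : (prs (M.comap (Tw.pr τ)) (⊤ : Subgroup (Tw τ))).filter
      (fun z => Prm p (M.comap (Tw.pr τ)) z.1) = Finset.univ := by
    ext z
    simp only [Finset.mem_filter, mem_prs, Finset.mem_univ, iff_true]
    refine ⟨⟨Subgroup.mem_top _, Subgroup.mem_top _, hab _ _⟩, M.index, hp, ?_⟩
    show ((z.1 ^ M.index : Tw τ).g : K) ∈ M
    have h3 : ((z.1 ^ M.index : Tw τ).g : K) = (z.1.g : K) ^ M.index := map_pow (Tw.pr τ) _ _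
    rw [h3]
    exact M.pow_index_mem _
  rw [h2, ← Finset.univ_product_univ, Finset.sum_product] at h1
  have h3 : ∀ a b' : Tw τ, dl p (M.comap (Tw.pr τ)) (smc τ D) (twA τ χ b) a b' =
      WittVector.teichmuller p (χ (τ.det a.g b'.g)) * dl p M D b (a.g : K) b'.g :=
    fun a b' => dl_tw hm hMY hn hDM b a b'
  simp only [h3] at h1
  -- sum over the fibres
  have h4 : ∀ F : ↥Y → WittVector p k, ∑ a : Tw τ, F a.g = (m : WittVector p k) * ∑ u : ↥Y, F u := by
    intro F
    rw [← (Tw.equivProd τ).symm.sum_comp, Fintype.sum_prod_type]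
    have h6 : ∀ (g : ↥Y) (c : ZMod m), F ((Tw.equivProd τ).symm (g, c)).g = F g :=
      fun _ _ => rfl
    rw [Finset.sum_congr rfl fun g _ => Finset.sum_congr rfl fun c _ => h6 g c]
    simp only [Finset.sum_const, Finset.card_univ, ZMod.card, nsmul_eq_mul]
    rw [← Finset.mul_sum]
  have h5 : ∀ a : Tw τ, ∑ b' : Tw τ, WittVector.teichmuller p (χ (τ.det a.g b'.g)) *
      dl p M D b (a.g : K) b'.g = (m : WittVector p k) * ∑ v : ↥Y,
        WittVector.teichmuller p (χ (τ.det a.g v)) * dl p M D b (a.g : K) v := fun a =>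
    h4 (fun v => WittVector.teichmuller p (χ (τ.det a.g v)) * dl p M D b (a.g : K) v)
  rw [Finset.sum_congr rfl fun a _ => h5 a, ← Finset.mul_sum,
    h4 (fun u => ∑ v : ↥Y, WittVector.teichmuller p (χ (τ.det u v)) * dl p M D b (u : K) v)] at h1
  have hmW : (m : WittVector p k) ≠ 0 := by
    intro h6
    have h7 : ((m : ℤ) : WittVector p k) = 0 := by
      rw [Int.cast_natCast]
      exact h6
    have h8 := int_inj p h7
    exact NeZero.ne m (by exact_mod_cast h8)
  have h9 : (m : WittVector p k) * ((m : WittVector p k) * ∑ u : ↥Y, ∑ v : ↥Y,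
      WittVector.teichmuller p (χ (τ.det u v)) * dl p M D b (u : K) v) = 0 := h1.symm
  rcases mul_eq_zero.1 h9 with h10 | h10
  · exact absurd h10 hmW
  · rcases mul_eq_zero.1 h10 with h11 | h11
    · exact absurd h11 hmW
    · exact h11

/-- the pairs of determinant `1` -/
theorem sum_det_one [Fact p.Prime] [CharP k p] [IsAlgClosed k] [Fintype K] [Fintype ↥Y]
    {V : Subgroup K}
    {c b : MonoidAlgebra k K} (h : Dt p V M c b) {D : Finset (Subgroup K)} (hD : Fam p ⊤ V D)
    (hab : ∀ x y : K, y * x * y⁻¹ * x⁻¹ ∈ M) (hp : ¬ p ∣ M.index) (hMY : M ≤ Y)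
    (hpm : ¬ p ∣ m) (τ : TD M Y m) :
    ∑ u : ↥Y, ∑ v : ↥Y, (if τ.det u v = 1 then dl p M D b (u : K) (v : K) else 0) = 0 := by
  classical
  -- a primitive root of unity
  have hm : (m : k) ≠ 0 := by
    intro h0
    exact hpm ((CharP.cast_eq_zero_iff k p m).1 h0)
  have : NeZero (m : k) := ⟨hm⟩
  obtain ⟨ζ, hζ⟩ : ∃ ζ : k, IsPrimitiveRoot ζ m := by
    have := HasEnoughRootsOfUnity.exists_primitiveRoot k m
    exact this
  let χ : ℕ → AddChar (ZMod m) k := fun r =>
    AddChar.zmodChar m (ζ := ζ ^ r) (by rw [← pow_mul, mul_comm, pow_mul, hζ.pow_eq_one, one_pow])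
  have hχ : ∀ r (d : ZMod m), χ r d = (ζ ^ d.val) ^ r := by
    intro r d
    show AddChar.zmodChar m _ d = _
    rw [AddChar.zmodChar_apply, ← pow_mul, ← pow_mul, mul_comm]
  let w : WittVector p k := WittVector.teichmuller p ζ
  have hw : IsPrimitiveRoot w m := hζ.map_of_injective (fun a b hab' => by
    have h1 := congrArg (fun z => WittVector.coeff z 0) hab'
    simpa [WittVector.teichmuller_coeff_zero] using h1)
  have key : ∀ r, ∑ u : ↥Y, ∑ v : ↥Y, (w ^ (τ.det u v).val) ^ r * dl p M D b (u : K) (v : K) = 0 := by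
    intro r
    rw [← sum_det h hD hab hp hMY hpm τ (χ r)]
    refine Finset.sum_congr rfl fun u _ => Finset.sum_congr rfl fun v _ => ?_
    rw [hχ, map_pow, map_pow]
  have hmpos : 0 < m := Nat.pos_of_ne_zero (NeZero.ne m)
  -- the inverse of `w`
  let w' : WittVector p k := w ^ (m - 1)
  have hww : w' * w = 1 := by
    show w ^ (m - 1) * w = 1
    rw [← pow_succ, Nat.sub_add_cancel hmpos, hw.pow_eq_one]
  have hgeo : ∀ d : ZMod m, ∑ r ∈ Finset.range m, (w' * w ^ d.val) ^ r =
      if d = 1 then (m : WittVector p k) else 0 := by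
    intro d
    by_cases hd : d = 1
    · rw [if_pos hd]
      have h1 : w' * w ^ d.val = 1 := by
        have h2 : w ^ d.val = w := by
          rw [hd]
          rcases Nat.lt_or_ge 1 m with h3 | h3
          · have : Fact (1 < m) := ⟨h3⟩
            rw [ZMod.val_one, pow_one]
          · have h4 : m = 1 := le_antisymm h3 hmpos
            have h5 : w = 1 := by
              have h6 := hw.pow_eq_one
              rwa [h4, pow_one] at h6
            rw [h5, one_pow]
        rw [h2, hww]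
      rw [h1]
      simp
    · rw [if_neg hd]
      have h1 : w' * w ^ d.val - 1 ≠ 0 := by
        intro h2
        apply hd
        have h3 : w' * w ^ d.val = w' * w := by rw [hww]; exact sub_eq_zero.1 h2
        have h4 : w' ≠ 0 := left_ne_zero_of_mul (a := w') (b := w) (by rw [hww]; exact one_ne_zero)
        have h5 : w ^ d.val = w ^ 1 := by rw [pow_one]; exact mul_left_cancel₀ h4 h3
        rcases Nat.lt_or_ge 1 m with h6 | h6
        · have h7 := hw.pow_inj (ZMod.val_lt d) h6 h5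
          have h8 : ((d.val : ℕ) : ZMod m) = ((1 : ℕ) : ZMod m) := by rw [h7]
          rwa [ZMod.natCast_zmod_val, Nat.cast_one] at h8
        · have h7 : m = 1 := le_antisymm h6 hmpos
          subst h7
          exact Subsingleton.elim _ _
      have h2 : (w' * w ^ d.val - 1) * ∑ r ∈ Finset.range m, (w' * w ^ d.val) ^ r = 0 := by
        rw [mul_geom_sum]
        have h3 : (w' * w ^ d.val) ^ m = 1 := by
          show (w ^ (m - 1) * w ^ d.val) ^ m = 1
          rw [← pow_add, ← pow_mul, mul_comm, pow_mul, hw.pow_eq_one, one_pow]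
        rw [h3, sub_self]
      rcases mul_eq_zero.1 h2 with h3 | h3
      · exact absurd h3 h1
      · exact h3
  have h7 : (m : WittVector p k) * ∑ u : ↥Y, ∑ v : ↥Y,
      (if τ.det u v = 1 then dl p M D b (u : K) (v : K) else 0) = 0 := by
    have h8 : ∑ r ∈ Finset.range m, w' ^ r * ∑ u : ↥Y, ∑ v : ↥Y,
        (w ^ (τ.det u v).val) ^ r * dl p M D b (u : K) (v : K) = 0 := by
      refine Finset.sum_eq_zero fun r _ => ?_
      rw [key r, mul_zero]
    refine Eq.trans ?_ h8
    simp only [Finset.mul_sum]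
    symm
    rw [Finset.sum_comm]
    refine Finset.sum_congr rfl fun u _ => ?_
    rw [Finset.sum_comm]
    refine Finset.sum_congr rfl fun v _ => ?_
    have h9 : ∀ r, w' ^ r * ((w ^ (τ.det u v).val) ^ r * dl p M D b (u : K) (v : K)) =
        (w' * w ^ (τ.det u v).val) ^ r * dl p M D b (u : K) (v : K) := by
      intro r
      rw [mul_pow, mul_assoc]
    rw [Finset.sum_congr rfl fun r _ => h9 r, ← Finset.sum_mul, hgeo]
    by_cases hd : τ.det u v = 1
    · rw [if_pos hd, if_pos hd]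
    · rw [if_neg hd, if_neg hd, zero_mul, mul_zero]
  have hmW : (m : WittVector p k) ≠ 0 := by
    intro h6
    have h7 : ((m : ℤ) : WittVector p k) = 0 := by
      rw [Int.cast_natCast]
      exact h6
    have h8 := int_inj p h7
    exact NeZero.ne m (by exact_mod_cast h8)
  rcases mul_eq_zero.1 h7 with h8 | h8
  · exact absurd h8 hmW
  · exact h8

theorem iso [Fact p.Prime] [CharP k p] [IsAlgClosed k] [Fintype K] {V : Subgroup K}
    {c b : MonoidAlgebra k K} (h : Dt p V M c b) {D : Finset (Subgroup K)} (hD : Fam p ⊤ V D)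
    (hab : ∀ x y : K, y * x * y⁻¹ * x⁻¹ ∈ M) (hp : ¬ p ∣ M.index) (x y : K) : T1 p M D b x y = 0 := by
  classical
  have hM := h.nM
  induction hn : Nat.card ↥(M ⊔ Subgroup.closure {x, y}) using Nat.strong_induction_on
    generalizing x y with
  | _ n ih =>
  have hMY : M ≤ M ⊔ Subgroup.closure {x, y} := le_sup_left
  obtain ⟨m, _, τ, X, Z, hX, hZ, hpm, h1, h2, h3, h4, hT⟩ :=
    exists_td (p := p) (k := k) hM hab x y hp
  have hs := sum_det_one h hD hab hp hMY hpm τ
  have hs2 := sum_T1 (p := p) (k := k) hMY D b (fun u v => τ.det u v = 1)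
    (fun u u' v v' hu hv => by rw [det_congr τ hu hv])
  rw [hs, mul_zero, mul_zero] at hs2
  -- the pairs of determinant one have the value of `(x, y)` or `0`
  let G : ↥(M ⊔ Subgroup.closure {x, y}) → ↥(M ⊔ Subgroup.closure {x, y}) → Prop :=
    fun u v => τ.det u v = 1 ∧
      M ⊔ Subgroup.closure {(u : K), (v : K)} = M ⊔ Subgroup.closure {x, y}
  have h5 : ∀ u v : ↥(M ⊔ Subgroup.closure {x, y}),
      (if τ.det u v = 1 then T1 p M D b (u : K) (v : K) else 0) =
        if G u v then T1 p M D b x y else 0 := by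
    intro u v
    by_cases hd : τ.det u v = 1
    · rw [if_pos hd]
      by_cases hg : M ⊔ Subgroup.closure {(u : K), (v : K)} = M ⊔ Subgroup.closure {x, y}
      · rw [if_pos ⟨hd, hg⟩]
        exact hT D b u v hg hd
      · rw [if_neg fun h => hg h.2]
        have hle : M ⊔ Subgroup.closure {(u : K), (v : K)} ≤ M ⊔ Subgroup.closure {x, y} := by
          refine sup_le le_sup_left ?_
          rw [Subgroup.closure_le]
          rintro z (rfl | rfl)
          · exact u.2
          · exact v.2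
        have hlt := lt_of_le_of_ne hle hg
        refine ih _ ?_ (u : K) (v : K) rfl
        rw [← hn]
        exact lt_of_le_of_ne (Subgroup.card_le_of_le hle) fun h0 =>
          hg (Subgroup.eq_of_le_of_card_ge hle h0.ge)
    · rw [if_neg hd, if_neg fun h => hd h.1]
  have h6 : ∑ u : ↥(M ⊔ Subgroup.closure {x, y}), ∑ v : ↥(M ⊔ Subgroup.closure {x, y}),
      (if G u v then T1 p M D b x y else 0) = 0 := by
    refine Eq.trans ?_ hs2
    exact Finset.sum_congr rfl fun u _ => Finset.sum_congr rfl fun v _ => (h5 u v).symm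
  have h7 : ∑ z : ↥(M ⊔ Subgroup.closure {x, y}) × ↥(M ⊔ Subgroup.closure {x, y}),
      (if G z.1 z.2 then T1 p M D b x y else 0) = 0 := by
    rw [Fintype.sum_prod_type]
    exact h6
  rw [← Finset.sum_filter, Finset.sum_const, nsmul_eq_mul] at h7
  have hGx : G X Z := by
    refine ⟨?_, by rw [hX, hZ]⟩
    rw [TD.det, h1, h2, h3, h4]
    ring
  have hpos : (Finset.univ.filter fun z : ↥(M ⊔ Subgroup.closure {x, y}) ×
      ↥(M ⊔ Subgroup.closure {x, y}) => G z.1 z.2).card ≠ 0 := by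
    rw [Finset.card_ne_zero]
    exact ⟨(X, Z), Finset.mem_filter.2 ⟨Finset.mem_univ _, hGx⟩⟩
  rcases mul_eq_zero.1 h7 with h8 | h8
  · exfalso
    apply hpos
    have h9 : (((Finset.univ.filter fun z : ↥(M ⊔ Subgroup.closure {x, y}) ×
      ↥(M ⊔ Subgroup.closure {x, y}) => G z.1 z.2).card : ℤ) : WittVector p k) = 0 := by
      rw [Int.cast_natCast]
      exact h8
    have h10 := int_inj p h9
    exact_mod_cast h10
  · exact h8

end IsoAux

theorem T1_zero [Fact p.Prime] [CharP k p] [IsAlgClosed k] [Fintype K] {V M : Subgroup K}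
    {c b : MonoidAlgebra k K} (hV : V.Normal) (hc : IsBlock V c) (hci : InvBy ⊤ c)
    (hcb : c * b = b) (hbI : InvBy ⊤ b) (hbb : b * b = b)
    (hbr : ∃ P : Subgroup K, P ≤ V ∧ IsPGroup p P ∧ P ≠ ⊥ ∧ HasBr P c) (hM : M.Normal)
    (hVM : V ≤ M) (hbM : SuppIn M b) (hab : ∀ x y : K, y * x * y⁻¹ * x⁻¹ ∈ M)
    (hp : ¬ p ∣ M.index) (hW : HW p M b) {D : Finset (Subgroup K)} (hD : Fam p ⊤ V D)
    (x y : K) : T1 p M D b x y = 0 :=
  IsoAux.iso (c := c) ⟨hV, hc, hci, hcb, hbI, hbb, hbr, hM, hVM, hbM, hW⟩ hD hab hp x y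

end Pool.Agent.Lib.P0c8ca5.Xx
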