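import Mathlib
import Pool.Agent.Lib.P0c8ca5X.LfB
import Pool.Agent.Lib.P0c8ca5X.HasB
import Pool.Agent.Lib.P0c8ca5X.Iso
import Pool.Agent.Lib.P0c8ca5G.SitA
import Pool.Agent.Lib.P0c8ca5G.AsmC


/-!
# The weight equality for the twisted extensions of `K`
-/

set_option autoImplicit false

namespace Pool.Agent.Lib.P0c8ca5.Xx

open MonoidAlgebra Ps Bq Zz Hh Gg Un8 Mm

universe u v

variable {p : ℕ} {k : Type v} [Field k] {A : Type u} [Group A] {K : Type u} [Group K]
  {V : Subgroup A} {π : K →* A} {W : Subgroup K}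

/-- the elements over the centre are central -/
theorem comap_center (hx : CX p V π W) (hZ : Subgroup.center A ≤ V) :
    (Subgroup.center A).comap π ≤ Subgroup.center K := by
  intro s hs
  have hs' : π s ∈ Subgroup.center A := hs
  obtain ⟨w, hw, hws⟩ := hx.exists_mem (hZ hs')
  have h1 : w ∈ Subgroup.center K := by
    rw [Subgroup.mem_center_iff]
    intro g
    have h2 : g * w * g⁻¹ = w := by
      apply hx.eq_of (W.mul_mem (hx.nW.conj_mem _ hw g) (W.inv_mem hw))
      rw [map_mul, map_mul, map_inv, hws, Subgroup.mem_center_iff.1 hs', mul_inv_cancel_right]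
    exact mul_inv_eq_iff_eq_mul.1 h2
  have h2 : w⁻¹ * s ∈ π.ker := by
    rw [MonoidHom.mem_ker, map_mul, map_inv, hws, inv_mul_cancel]
  have e : s = w * (w⁻¹ * s) := by group
  rw [e]
  exact Subgroup.mul_mem _ h1 (hx.ker h2)

variable {M Y' : Subgroup K} {m : ℕ} [NeZero m] {τ : TD M Y' m}

/-- the projection of a subgroup to `A / Z(A)` -/
def psi' (π : K →* A) (X : Subgroup (Tw τ)) : ↥X →* A ⧸ Subgroup.center A :=
  (((QuotientGroup.mk' (Subgroup.center A)).comp π).comp (Tw.pr τ)).comp X.subtype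

theorem mem_ker_psi' {X : Subgroup (Tw τ)} {x : ↥X} :
    x ∈ (psi' π X).rangeRestrict.ker ↔ π (x.1.g : K) ∈ Subgroup.center A := by
  rw [MonoidHom.ker_rangeRestrict, MonoidHom.mem_ker]
  exact QuotientGroup.eq_one_iff _

theorem ker_psi_le' (hx : CX p V π W) (hZ : Subgroup.center A ≤ V) (hVM : V.comap π ≤ M)
    (X : Subgroup (Tw τ)) : (psi' π X).rangeRestrict.ker ≤ Subgroup.center ↥X := by
  intro x hxx
  rw [mem_ker_psi'] at hxx
  have h1 : x.1 ∈ Subgroup.center (Tw τ) := Tw.comap_center_le (comap_center hx hZ)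
    ((Subgroup.comap_mono hZ).trans hVM) hxx
  rw [Subgroup.mem_center_iff]
  intro y
  exact Subtype.ext (Subgroup.mem_center_iff.1 h1 y.1)

theorem card_comap_center [Finite A] [Finite K] [Fact p.Prime] (hx : CX p V π W)
    (hZp : ¬ p ∣ Nat.card (Subgroup.center A)) :
    ¬ p ∣ Nat.card ((Subgroup.center A).comap π) := by
  intro hd
  have hker : π.ker ≤ (Subgroup.center A).comap π := by
    intro s hs
    rw [Subgroup.mem_comap, (MonoidHom.mem_ker).1 hs]
    exact Subgroup.one_mem _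
  have h1 := Subgroup.relIndex_mul_relIndex ⊥ π.ker _ bot_le hker
  rw [Subgroup.relIndex_bot_left, Subgroup.relIndex_bot_left] at h1
  rw [← h1] at hd
  rcases (Nat.Prime.dvd_mul Fact.out).1 hd with h2 | h2
  · exact hx.kerp h2
  · apply hZp
    refine h2.trans ?_
    have h3 : π.ker.relIndex ((Subgroup.center A).comap π)
        = Nat.card (((Subgroup.center A).comap π).map π) := by
      rw [← MonoidHom.comap_bot, Subgroup.relIndex_comap, Subgroup.relIndex_bot_left]
    rw [h3]
    exact Subgroup.card_dvd_of_le (Subgroup.map_comap_le _ _)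

/-- the p-subgroups of the twisted extension are over their images -/
theorem ov_tw' [Fact p.Prime] [Finite A] [Finite K] (hx : CX p V π W)
    (hZ : Subgroup.center A ≤ V) (hVM : V.comap π ≤ M) (hMY : M ≤ Y') (hpm : ¬ p ∣ m)
    (hZp : ¬ p ∣ Nat.card (Subgroup.center A))
    (X : Subgroup (Tw τ)) (P : Subgroup ↥X) :
    Ov p (((P.map X.subtype).map (Tw.pr τ)).map π) P := by
  refine ⟨↥(psi' π X).range, inferInstance, (psi' π X).rangeRestrict,
    (psi' π X).rangeRestrict_surjective, ker_psi_le' hx hZ hVM X, ?_, ?_⟩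
  · intro hd
    have h1 : Nat.card (psi' π X).rangeRestrict.ker ∣
        Nat.card (((Subgroup.center A).comap π).comap (Tw.pr τ)) := by
      have h2 : ((psi' π X).rangeRestrict.ker).map X.subtype ≤
          ((Subgroup.center A).comap π).comap (Tw.pr τ) := by
        rintro _ ⟨x, hx', rfl⟩
        exact mem_ker_psi'.1 hx'
      have h3 : Nat.card ↥(((psi' π X).rangeRestrict.ker).map X.subtype) =
          Nat.card (psi' π X).rangeRestrict.ker :=
        (Nat.card_congr (((psi' π X).rangeRestrict.ker).equivMapOfInjective _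
          X.subtype_injective).toEquiv).symm
      rw [← h3]
      exact Subgroup.card_dvd_of_le h2
    rw [Tw.card_comap (((Subgroup.comap_mono hZ).trans hVM).trans hMY)] at h1
    rcases (Nat.Prime.dvd_mul Fact.out).1 (hd.trans h1) with h4 | h4
    · exact card_comap_center hx hZp h4
    · exact hpm h4
  · refine ⟨(psi' π X).range, MonoidHom.id _, Function.surjective_id, ?_⟩
    rintro _ ⟨x, hx', rfl⟩
    refine ⟨(psi' π X).rangeRestrict x, ?_, rfl⟩
    rw [SetLike.mem_coe, Subgroup.mem_subgroupOf]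
    exact ⟨π (Tw.pr τ (x : Tw τ)), ⟨_, ⟨(x : Tw τ), ⟨x, hx', rfl⟩, rfl⟩, rfl⟩, rfl⟩

/-- the subgroups of the twisted extension are small -/
theorem index_tw' [Finite A] [Finite K] (hx : CX p V π W) (hZ : Subgroup.center A ≤ V)
    (hVM : V.comap π ≤ M) {Y : Subgroup A} (hY : Y ≠ ⊤) (hZY : Subgroup.center A ≤ Y)
    (hπ : π.range ≤ Y)
    (X : Subgroup (Tw τ)) :
    (Subgroup.center ↥X).index < (Subgroup.center A).index := by
  refine lt_of_le_of_lt (Fg.index_center_le_of (psi' π X).rangeRestrict_surjective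
    (ker_psi_le' hx hZ hVM X)) ?_
  have h1 : (psi' π X).range ≠ ⊤ := by
    intro h0
    apply hY
    rw [eq_top_iff]
    intro x _
    have h2 : (QuotientGroup.mk' (Subgroup.center A)) x ∈ (psi' π X).range := by
      rw [h0]; exact Subgroup.mem_top _
    obtain ⟨b, hb⟩ := h2
    have h3 : (π (b.1.g : K))⁻¹ * x ∈ Subgroup.center A := by
      rw [← QuotientGroup.eq]
      exact hb
    have h4 := Y.mul_mem (hπ ⟨(b.1.g : K), rfl⟩) (hZY h3)
    rwa [mul_inv_cancel_left] at h4
  have h5 : Nat.card (psi' π X).range < Nat.card (A ⧸ Subgroup.center A) :=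
    lt_of_le_of_ne (Subgroup.card_le_card_group _)
      (fun h => h1 (Subgroup.eq_top_of_card_eq _ h))
  exact h5

theorem hw_of_sit [Fact p.Prime] [CharP k p] [IsAlgClosed k] [Fintype A] [Fintype K]
    {c b : MonoidAlgebra k A} (h : Sit p V c b) (hx : CX p V π W) {Y : Subgroup A}
    (hY : Y ≠ ⊤) (hVY : V ≤ Y) (hπ : π.range ≤ Y) (hpW : ¬ p ∣ W.index)
    (hw : UH W ⊤ (lf π W 1 c)) {e : MonoidAlgebra k K}
    (he : IsBlock hw.unt e) (hei : InvBy ⊤ e) (hec : e * lf π W 1 c = e) :
    HW p hw.unt e := by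
  classical
  intro Y' m _ τ χ hMY hpm X f hf hff hbr
  have hZp := h.center_prime
  have hbc : b * c = b := by
    rw [← commute_of (K := ⊤) (fun _ _ => Subgroup.mem_top _) h.blk.invBy, h.cb]
  have hbM : SuppIn h.uh.unt b := h.uh.supp_unt h.blk.mem h.blk.idem hbc
  have hVM : V.comap π ≤ hw.unt := by
    rw [unt_lf hx h.uh hw]
    exact Subgroup.comap_mono h.uh.le_unt
  obtain ⟨hs, hi⟩ := mem_fixAlg.1 hf
  refine Cy.weq_of_blocks hs hi hff (fun g hg hgf => ?_)
  apply navarro_transport hg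
  refine h.below ↥X (index_tw' hx h.zV hVM hY (h.zV.trans hVY) hπ X) _ (dn_isBlock hg) ?_
  intro P' hP' hbr'
  have hPX : P'.map X.subtype ≤ X := by
    rintro _ ⟨y, _, rfl⟩
    exact y.2
  have hcomm : f * g = g * f := commute_of hs hg.invBy
  have hmul : g * f = g := by
    rcases hg.mul_eq hf hff with h1 | h1
    · rw [hcomm] at h1; exact absurd h1 hgf
    · rw [← hcomm]; exact h1
  refine ⟨((P'.map X.subtype).map (Tw.pr τ)).map π, ((hP'.map _).map _).map _, ?_,
    ov_tw' hx h.zV hVM hMY hpm hZp X P'⟩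
  have h1 : HasBr ((P'.map X.subtype).map (Tw.pr τ)) e :=
    hasBr_tw (hbr _ hPX (hP'.map _) (hasBr_of_mul (hP'.map _) (hg.invBy.mono hPX)
      (hi.mono hPX) hmul (RedAux.hasBr_up' hbr')))
  have hPp : IsPGroup p ↥((P'.map X.subtype).map (Tw.pr τ)) := (hP'.map _).map _
  have hPW : (P'.map X.subtype).map (Tw.pr τ) ≤ W := by
    have hWn := hx.nW
    intro s hs'
    obtain ⟨n, hn⟩ := hPp ⟨s, hs'⟩
    have hn' : s ^ p ^ n = 1 := congrArg Subtype.val hn
    have h2 : (QuotientGroup.mk s : K ⧸ W) ^ p ^ n = 1 := by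
      rw [← QuotientGroup.mk_pow, hn', QuotientGroup.mk_one]
    have h3 : orderOf (QuotientGroup.mk s : K ⧸ W) ∣ p ^ n := orderOf_dvd_of_pow_eq_one h2
    have h4 : orderOf (QuotientGroup.mk s : K ⧸ W) ∣ W.index := by
      rw [Subgroup.index_eq_card]
      exact orderOf_dvd_natCard _
    have h5 : Nat.Coprime (p ^ n) W.index :=
      Nat.Coprime.pow_left n ((Nat.Prime.coprime_iff_not_dvd Fact.out).2 hpW)
    have h6 : orderOf (QuotientGroup.mk s : K ⧸ W) = 1 := Nat.eq_one_of_dvd_coprimes h5 h3 h4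
    rw [orderOf_eq_one_iff, QuotientGroup.eq_one_iff] at h6
    exact h6
  have h2 : HasBr ((P'.map X.subtype).map (Tw.pr τ)) (lf π W 1 c) :=
    hasBr_of_mul hPp (hei.mono le_top) (hw.inv.mono le_top) hec h1
  have h3 := (lf_hasBr hx h.cblk.suppIn hPW).1 h2
  exact hasBr_of_unt h.uh h.blk.invBy h.blk.idem h.blk.ne_zero hbc hbM (hx.map_le hPW)
    ((hx.map_pgroup hPW).2 hPp) h3

end Pool.Agent.Lib.P0c8ca5.Xx
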