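import Mathlib
import Pool.Agent.Lib.P0c8ca5X.LfB
import Pool.Agent.Lib.P0c8ca5X.T2x
import Pool.Agent.Lib.P0c8ca5X.Bs
import Pool.Agent.Lib.P0c8ca5X.ExK
import Pool.Agent.Lib.P0c8ca5X.Sup
import Pool.Agent.Lib.P0c8ca5X.Wq
import Pool.Agent.Lib.P0c8ca5G.SitB
import Pool.Agent.Lib.P0c8ca5M.IsoB

/-!
# Module Main: the pairs in proper subgroups with quotient prime to `p` do not contribute
-/

set_option autoImplicit false

namespace Pool.Agent.Lib.P0c8ca5.Xx

open MonoidAlgebra Ps Bq Zz Hh Gg Un8 Mm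

universe u v

variable {p : ℕ} {k : Type v} [Field k] {A : Type u} [Group A] {V : Subgroup A}

theorem nsmul_teich_zero [Fact p.Prime] [CharP k p] {n : ℕ}
    (hn : n ≠ 0) {s : k} (hs : s ≠ 0) {a : WittVector p k}
    (h : n • (WittVector.teichmuller p s * a) = 0) : a = 0 := by
  rw [nsmul_eq_mul] at h
  have h0 : ((n : ℕ) : WittVector p k) ≠ 0 := by
    intro h1
    have h2 : ((n : ℤ) : WittVector p k) = 0 := by
      rw [Int.cast_natCast]
      exact h1
    have h3 := int_inj p h2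
    exact hn (by exact_mod_cast h3)
  have h1 := (mul_eq_zero.1 h).resolve_left h0
  refine (mul_eq_zero.1 h1).resolve_left fun h2 => hs ?_
  have h3 := congrArg (fun z => WittVector.coeff z 0) h2
  simpa [WittVector.teichmuller_coeff_zero] using h3

/-- a nonzero sum of symbols gives a simple module with intertwiners -/
theorem exists_itC [Fact p.Prime] [CharP k p] {M N : Subgroup A} {c b : MonoidAlgebra k A}
    {x y : A} {w : MonoidAlgebra k A} (h : kap p M N c b x y w ≠ 0) :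
    ∃ (n : ℕ) (φ : MonoidAlgebra k A → Module.End k (Fin n → k)), CR M N c φ ∧
      ∃ X₁ X₂ : (Fin n → k) ≃ₗ[k] (Fin n → k), ItC M N φ φ x X₁.toLinearMap ∧
        ItC M N φ φ y X₂.toLinearMap := by
  classical
  by_contra hcon
  push Not at hcon
  apply h
  rw [kap]
  refine finsum_eq_zero_of_forall_eq_zero fun ψ => ?_
  have h1 : omCX M N c b ψ x y w = 0 := by
    rw [omCX, omC, dif_neg]
    rintro ⟨t, X, Y, hX, hY, -⟩
    exact hcon _ _ (Quotient.out ψ).cr X Y hX hY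
  rw [h1, WittVector.teichmuller_zero]

theorem index_W [Finite A] {K : Type u} [Group K] [Finite K] {π : K →* A} {W : Subgroup K}
    (hx : CX p V π W) [Fact p.Prime] [V.Normal] {Y : Subgroup A} (hπ : π.range ≤ Y)
    (hpY : ¬ p ∣ V.relIndex Y) : ¬ p ∣ W.index := by
  have h1 : Nat.card W = Nat.card V := by
    have h2 : Function.Injective (fun s : W => (⟨π s, hx.mem s.2⟩ : V)) := by
      intro s t hst
      apply Subtype.ext
      exact hx.eq_of (W.mul_mem s.2 (W.inv_mem t.2)) (congrArg Subtype.val hst)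
    have h3 : Function.Surjective (fun s : W => (⟨π s, hx.mem s.2⟩ : V)) := by
      rintro ⟨v, hv⟩
      obtain ⟨s, hs, rfl⟩ := hx.exists_mem hv
      exact ⟨⟨s, hs⟩, rfl⟩
    exact Nat.card_congr (Equiv.ofBijective _ ⟨h2, h3⟩)
  have hVr : V ≤ π.range := by
    intro v hv
    obtain ⟨s, -, rfl⟩ := hx.exists_mem hv
    exact ⟨s, rfl⟩
  have h4 : Nat.card K = Nat.card π.ker * Nat.card π.range := by
    rw [← Subgroup.index_ker, Subgroup.card_mul_index]
  have h5 : Nat.card π.range = Nat.card V * V.relIndex π.range := by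
    have h6 := Subgroup.relIndex_mul_relIndex ⊥ V π.range bot_le hVr
    rw [Subgroup.relIndex_bot_left, Subgroup.relIndex_bot_left] at h6
    exact h6.symm
  have h7 : W.index = Nat.card π.ker * V.relIndex π.range := by
    have h8 := W.card_mul_index
    rw [h4, h5, h1] at h8
    have h9 : 0 < Nat.card V := Nat.card_pos
    apply Nat.eq_of_mul_eq_mul_left h9
    rw [h8]
    ring
  rw [h7]
  intro h8
  rcases (Nat.Prime.dvd_mul Fact.out).1 h8 with h9 | h9
  · exact hx.kerp h9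
  · apply hpY
    refine h9.trans ?_
    rw [← Subgroup.relIndex_subgroupOf hπ]
    exact Subgroup.relIndex_dvd_index_of_normal _ _

theorem T1_zero_sub [Fact p.Prime] [CharP k p] [IsAlgClosed k] [Fintype A]
    {c b : MonoidAlgebra k A} (h : Sit p V c b)
    (hab : ∀ x y : A, y * x * y⁻¹ * x⁻¹ ∈ h.uh.unt) (hpM : ¬ p ∣ h.uh.unt.index)
    (hbM : SuppIn h.uh.unt b) {Y : Subgroup A} (hVY : V ≤ Y)
    (hY : Y ≠ ⊤) (hpY : ¬ p ∣ V.relIndex Y) {x y : A} (hx : x ∈ Y) (hy : y ∈ Y) :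
    T1 p h.uh.unt (famAll p V) b x y = 0 := by
  classical
  have hV := h.nV
  have hbc : b * c = b := by
    rw [← commute_of (K := ⊤) (fun _ _ => Subgroup.mem_top _) h.blk.invBy, h.cb]
  have hbI : InvBy (⊤ : Subgroup A) b := h.blk.invBy
  have hbM' : b ∈ fixAlg k h.uh.unt V := mem_fixAlg.2 ⟨hbM, hbI.mono le_top⟩
  have hDV : ∀ Q ∈ famAll p V, Q ≤ V := fun Q hQ => (mem_famAll.1 hQ).1
  have hDp : ∀ Q ∈ famAll p V, IsPGroup p Q := fun Q hQ => (mem_famAll.1 hQ).2.1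
  have hMn : h.uh.unt.Normal := by
    rw [← Subgroup.normalizer_eq_top_iff]
    exact top_le_iff.1 h.uh.norm_unt
  obtain ⟨-, w, v, hwv⟩ := h.uh.mem_unt.1 (hab x y)
  rw [Cs.T1_kap h.uh hDV hDp hbM' hbc (hab x y) hwv]
  by_cases hk : kap p h.uh.unt V c b x y w = 0
  · rw [hk, zero_mul, smul_zero]
  obtain ⟨n, φ, hφ, X₁, X₂, hX₁, hX₂⟩ := exists_itC hk
  obtain ⟨K, _, _, π, W, X, hcx, hXW, hX, hπ, ⟨x', rfl⟩, ⟨y', rfl⟩⟩ :=
    exists_K hVY h.uh hφ hx hy hX₁ hX₂
  have : Fintype K := Fintype.ofFinite K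
  have hw : UH W ⊤ (lf π W 1 c) := lf_uh hcx h.uh
  obtain ⟨e, he, hei, hec⟩ := exists_bs hcx h.uh hφ hXW hX hw
  have hWn := hcx.nW
  have hpW : ¬ p ∣ W.index := index_W hcx hπ hpY
  have hHW : HW p hw.unt e := hw_of_sit h hcx hY hVY hπ hpW hw he hei hec
  have hNn : hw.unt.Normal := by
    rw [← Subgroup.normalizer_eq_top_iff]
    exact top_le_iff.1 hw.norm_unt
  have hNe : hw.unt = h.uh.unt.comap π := unt_lf hcx h.uh hw
  have habK : ∀ x y : K, y * x * y⁻¹ * x⁻¹ ∈ hw.unt := by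
    intro x y
    rw [hNe, Subgroup.mem_comap, map_mul, map_mul, map_mul, map_inv, map_inv]
    exact hab _ _
  have hpN : ¬ p ∣ hw.unt.index := by
    rw [hNe, Subgroup.index_comap]
    exact fun h1 => hpM (h1.trans (Subgroup.relIndex_dvd_index_of_normal _ _))
  have hce : lf π W 1 c * e = e := by
    rw [commute_of (K := hw.unt) (hw.blk.suppIn.mono hw.le_unt) he.invBy, hec]
  have hbrK : ∃ P : Subgroup K, P ≤ W ∧ IsPGroup p P ∧ P ≠ ⊥ ∧ HasBr P (lf π W 1 c) := by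
    obtain ⟨P, h1, h2, h3, h4⟩ := h.br
    obtain ⟨Q, hQ, rfl⟩ := hcx.exists_sub h1
    exact ⟨Q, hQ, (hcx.map_pgroup hQ).1 h2, fun h5 => h3 ((hcx.map_ne_bot hQ).2 h5),
      (lf_hasBr hcx h.cblk.suppIn hQ).2 h4⟩
  have hT1 : T1 p hw.unt (famAll p W) e x' y' = 0 :=
    T1_zero hcx.nW hw.blk hw.inv hce hei he.idem hbrK hNn hw.le_unt he.suppIn habK hpN hHW
      (famAll_fam (by rw [Subgroup.normalizer_eq_top_iff.2 hWn])) x' y'
  have hpr : ¬ p ∣ W.relIndex hw.unt :=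
    fun h1 => hpW (h1.trans (Subgroup.relIndex_dvd_index_of_normal _ _))
  have hr0 : W.relIndex hw.unt * W.relIndex hw.unt ≠ 0 := by
    have h1 : W.relIndex hw.unt ≠ 0 := fun h2 => hpr (by rw [h2]; exact dvd_zero p)
    exact mul_ne_zero h1 h1
  have hπc : π (y' * x' * y'⁻¹ * x'⁻¹) = π y' * π x' * (π y')⁻¹ * (π x')⁻¹ := by
    rw [map_mul, map_mul, map_mul, map_inv, map_inv]
  have hwv' : UP W (lf π W 1 c) (y' * x' * y'⁻¹ * x'⁻¹) (lf π W (y' * x' * y'⁻¹ * x'⁻¹) w)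
      (lf π W (y' * x' * y'⁻¹ * x'⁻¹)⁻¹ v) := lf_up hcx h.uh _ (by rw [hπc]; exact hwv)
  obtain ⟨s, hs, hs1⟩ := Cs.T1_T2 hw (D := famAll p W) (fun Q hQ => (mem_famAll.1 hQ).1)
    (fun Q hQ => (mem_famAll.1 hQ).2.1) he hei hec hpr (habK x' y') hwv'
  rw [hT1] at hs1
  have hT2 := nsmul_teich_zero hr0 hs hs1.symm
  rw [T2_lf hcx h.cblk x' y' (by rw [hπc]; exact hwv.sv) hwv.iv] at hT2
  rw [hT2, mul_zero, smul_zero]

theorem navarro_of_T1 [Fact p.Prime] [CharP k p] [IsAlgClosed k] [Fintype A]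
    {c b : MonoidAlgebra k A} (h : Sit p V c b)
    (hab : ∀ x y : A, y * x * y⁻¹ * x⁻¹ ∈ h.uh.unt) (hpM : ¬ p ∣ h.uh.unt.index)
    (hbM : SuppIn h.uh.unt b)
    (hT : ∀ x y : A, T1 p h.uh.unt (famAll p V) b x y = 0) : NavarroEq p ⊤ ⊤ b := by
  classical
  have hV := h.nV
  obtain ⟨D, hDe⟩ : ∃ D, D = famAll p V := ⟨_, rfl⟩
  have hD : Fam p ⊤ V D := by
    rw [hDe]
    exact famAll_fam (by rw [Subgroup.normalizer_eq_top_iff.2 hV])
  rw [← hDe] at hT
  obtain ⟨M, hM⟩ : ∃ M, M = h.uh.unt := ⟨_, rfl⟩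
  have hMn : M.Normal := by
    rw [hM, ← Subgroup.normalizer_eq_top_iff]
    exact top_le_iff.1 h.uh.norm_unt
  rw [← hM] at hT hab hpM hbM
  rw [h.navarro_iff hD]
  have hpr : ∀ x : A, Prm p M x := by
    intro x
    exact ⟨M.index, hpM, M.pow_index_mem x⟩
  have hmn : (⊤ : Subgroup A) ≤ Subgroup.normalizer (M : Set A) := by
    rw [Subgroup.normalizer_eq_top_iff.2 hMn]
  have h1 := bl_pairs (p := p) (D := D) (f := b) (M := M) (Y := ⊤) le_top hmn
    (fun Q hQ => ⟨le_top, hD.pgrp Q hQ⟩) hbM (mem_fixAlg.1 h.blk.mem).2 h.blk.idem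
  have h2 : ((prs M (⊤ : Subgroup A)).filter (fun z => Prm p M z.1)) = Finset.univ := by
    rw [Finset.eq_univ_iff_forall]
    intro z
    rw [Finset.mem_filter, mem_prs]
    exact ⟨⟨Subgroup.mem_top _, Subgroup.mem_top _, hab _ _⟩, hpr _⟩
  have h3 := IsoBAux.sum_T1 (p := p) M D b
  rw [Finset.sum_eq_zero fun x _ => Finset.sum_eq_zero fun y _ => hT x y] at h3
  have h4 : ∑ u : A, ∑ v : A, dl p M D b u v
      = (Nat.card M : WittVector p k) * ((Bl (⊤ : Subgroup A) D b : ℤ) : WittVector p k) := by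
    rw [h1]
    rw [← Fintype.sum_prod_type']
    refine Finset.sum_congr ?_ fun _ _ => rfl
    rw [← h2]
  rw [h4] at h3
  have h5 : (((Nat.card M : ℤ) * ((Nat.card M : ℤ) * ((Nat.card M : ℤ) *
      Bl (⊤ : Subgroup A) D b)) : ℤ) : WittVector p k) = 0 := by
    push_cast
    exact h3.symm
  have h6 := int_inj p h5
  have h7 : (Nat.card M : ℤ) ≠ 0 := by
    have : 0 < Nat.card M := Nat.card_pos
    omega
  simpa [h7] using h6

theorem T1_coset [Fact p.Prime] [Fintype A] {M : Subgroup A} (D : Finset (Subgroup A))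
    (f : MonoidAlgebra k A) {x y x' y' : A} (hx : x * x'⁻¹ ∈ M) (hy : y * y'⁻¹ ∈ M) :
    T1 p M D f x y = T1 p M D f x' y' := by
  have key : ∀ {x x' : A}, x * x'⁻¹ ∈ M → csF M x = csF M x' := by
    intro x x' hx
    ext u
    rw [mem_csF, mem_csF]
    have e : u * x'⁻¹ = u * x⁻¹ * (x * x'⁻¹) := by group
    rw [e]
    exact (M.mul_mem_cancel_right hx).symm
  rw [T1, T1, key hx, key hy]

/-- the quotient by `V` is a nilpotent `p'`-group generated by two elements -/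
theorem nil2 [Fact p.Prime] [CharP k p] [IsAlgClosed k] [Fintype A]
    {c b : MonoidAlgebra k A} (h : Sit p V c b) (hpM : ¬ p ∣ h.uh.unt.index)
    (hno : ¬ NavarroEq p ⊤ ⊤ b) :
    ¬ p ∣ V.index ∧ (∃ x y : A, V ⊔ Subgroup.closure {x, y} = ⊤) ∧
      ∃ _ : V.Normal, Group.IsNilpotent (A ⧸ V) := by
  have hV := h.nV
  have hbc : b * c = b := by
    rw [← commute_of (K := ⊤) (fun _ _ => Subgroup.mem_top _) h.blk.invBy, h.cb]
  have hMn : h.uh.unt.Normal := by
    rw [← Subgroup.normalizer_eq_top_iff]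
    exact top_le_iff.1 h.uh.norm_unt
  have hbM : SuppIn h.uh.unt b := h.uh.supp_unt h.blk.mem h.blk.idem hbc
  have hab : ∀ x y : A, y * x * y⁻¹ * x⁻¹ ∈ h.uh.unt := h.quot_abel hno hMn h.uh.le_unt hbM
  rcases suppl hMn h.uh.le_unt hab hpM with ⟨h1, h2⟩ | ⟨Y, h1, h2, h3, h4⟩
  · refine ⟨h2, ?_, hV, h1⟩
    by_contra hcon
    push Not at hcon
    apply hno
    refine navarro_of_T1 h hab hpM hbM fun x y => ?_
    refine T1_zero_sub h hab hpM hbM (Y := V ⊔ Subgroup.closure {x, y}) le_sup_left (hcon x y)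
      (fun h3 => h2 (h3.trans (Subgroup.relIndex_dvd_index_of_normal _ _))) ?_ ?_
    · exact Subgroup.mem_sup_right (Subgroup.subset_closure (Set.mem_insert _ _))
    · exact Subgroup.mem_sup_right (Subgroup.subset_closure
        (Set.mem_insert_of_mem _ (Set.mem_singleton _)))
  · exfalso
    apply hno
    refine navarro_of_T1 h hab hpM hbM fun x y => ?_
    have key : ∀ x : A, ∃ x' ∈ Y, x * x'⁻¹ ∈ h.uh.unt := by
      intro x
      have h5 : x ∈ h.uh.unt ⊔ Y := by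
        rw [h3]
        exact Subgroup.mem_top x
      obtain ⟨m, hm, y, hy, h6⟩ := Subgroup.mem_sup_of_normal_left.1 h5
      refine ⟨y, hy, ?_⟩
      rw [← h6, mul_inv_cancel_right]
      exact hm
    obtain ⟨x', hx', hxx⟩ := key x
    obtain ⟨y', hy', hyy⟩ := key y
    rw [T1_coset (p := p) _ _ hxx hyy]
    exact T1_zero_sub h hab hpM hbM h1 h2 h4 hx' hy'

end Pool.Agent.Lib.P0c8ca5.Xx
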