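import Mathlib
import Pool.Agent.Lib.P0c8ca5X.Main
import Pool.Agent.Lib.P0c8ca5G.AsmE

/-!
# The reduction of the weight conjecture to almost quasi-simple groups with a small outer part
-/

set_option autoImplicit false

namespace Pool.Agent.Lib.P0c8ca5.Gg

open MonoidAlgebra Ps Bq Zz Jj Un8

universe u v w

/-- `L` has a quasi-simple normal subgroup `E` with `C_L(E) = Z(L)`, and `L / (E Z(L))` is a nilpotent `p'`-group
generated by two elements -/
def AqsN (p : ℕ) (L : Type*) [Group L] : Prop :=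
  ∃ E : Subgroup L, QS E ∧ E.Normal ∧ Subgroup.centralizer (E : Set L) = Subgroup.center L ∧
    ¬ p ∣ (E ⊔ Subgroup.center L).index ∧
    (∃ x y : L, E ⊔ Subgroup.center L ⊔ Subgroup.closure {x, y} = ⊤) ∧
    ∃ _ : (E ⊔ Subgroup.center L).Normal, Group.IsNilpotent (L ⧸ (E ⊔ Subgroup.center L))

theorem aqs_n {p : ℕ} [Fact p.Prime] {k : Type v} [Field k] [IsAlgClosed k] [CharP k p]
    (hA : StepA.{u} p k) (hB : StepB.{u} p k) {L : Type u} [Group L] [Finite L]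
    {b : MonoidAlgebra k L} (hb : Reduced4 p b)
    (hD : ∃ P : Subgroup L, IsPGroup p P ∧ HasBr P b ∧ ¬ IsCyclic P) (hC : BelowP p k L b)
    (hno : ¬ NavarroEq p ⊤ ⊤ b) : AqsN p L := by
  have : Fintype L := Fintype.ofFinite L
  have hR : Rd p L := ⟨hb.core, hb.central⟩
  -- `L` is not abelian
  have hL : Subgroup.center L ≠ ⊤ := by
    intro h0
    obtain ⟨P, hP, -, hP2⟩ := hD
    apply hP2
    have h1 : P = ⊥ := by
      apply hb.core P ?_ hP
      apply normal_of_cen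
      rw [h0]
      exact le_top
    rw [h1]
    infer_instance
  obtain ⟨V, hV⟩ := exists_minN hL
  have hVn := hV.normal
  obtain ⟨c, hc, hcinv, hcb⟩ := covered_inv hb.block hVn (hb.prim V hVn)
  have hbc : b * c ≠ 0 := by
    rw [← commute_of (K := ⊤) (fun _ _ => Subgroup.mem_top _) hb.block.invBy, hcb]
    exact hb.block.ne_zero
  by_cases hdz : ∀ P : Subgroup L, P ≤ V → IsPGroup p P → HasBr P c → P = ⊥
  · exact absurd (Dz.dz_stepP_reduced hb hVn hV.lt hc hbc hdz hC) hno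
  push Not at hdz
  obtain ⟨P, hPV, hP, hPb, hP1⟩ := hdz
  have h : Sit p V c b :=
    ⟨hb.block, hb.core, hb.central, hVn, hV.lt.le, hc, hcinv, hcb, ⟨P, hPV, hP, hP1, hPb⟩, hC⟩
  by_cases hcen : Subgroup.centralizer (V : Set L) = Subgroup.center L
  swap
  · exact absurd (hA L V c b h hcen) hno
  obtain ⟨E, hE⟩ := hV.exists_cmp hR
  -- the quotient by the inner elements is abelian
  have hMn : h.uh.unt.Normal := by
    rw [← Subgroup.normalizer_eq_top_iff]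
    exact top_le_iff.1 h.uh.norm_unt
  have hbM : SuppIn h.uh.unt b := by
    apply h.uh.supp_unt hb.block.mem hb.block.idem
    rw [← commute_of (K := ⊤) (fun _ _ => Subgroup.mem_top _) hb.block.invBy, hcb]
  have hpM : ¬ p ∣ h.uh.unt.index :=
    hb.solv h.uh.unt (psolv_quot_of_comm fun x y => h.quot_abel hno hMn h.uh.le_unt hbM y x)
  obtain ⟨hpV, ⟨x, y, hxy⟩, hVn', hnil⟩ := Xx.nil2 h hpM hno
  by_cases hn : E.Normal
  swap
  · exact absurd (hB L V c b h hV hcen hpV hb E hE hn) hno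
  have hVE : V = E ⊔ Subgroup.center L := by
    rw [sup_comm]
    exact hV.eq_sup_of_normal hR hE hn
  subst hVE
  exact ⟨E, hE.qs, hn, (hV.centralizer_of_normal hR hE hn).trans hcen, hpV, ⟨x, y, hxy⟩, hVn',
    hnil⟩

/-- the blockwise weight conjecture for the reduced blocks of the almost quasi-simple groups whose
defect groups satisfy the condition `C` -/
def BAWN (p : ℕ) (k : Type v) [Field k] (C : ∀ (L : Type u) [Group L], Subgroup L → Prop) :
    Prop :=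
  ∀ (L : Type u) [Group L] [Finite L] (b : MonoidAlgebra k L), Reduced4 p b → AqsN p L →
    (∃ D, IsDefectGroup p ⊤ b D ∧ ¬ IsCyclic D) →
    (∀ D : Subgroup L, IsDefectGroup p ⊤ b D → C L D) → NavarroEq p ⊤ ⊤ b

theorem baw_of_aqsN {p : ℕ} [Fact p.Prime] {k : Type v} [Field k] [IsAlgClosed k] [CharP k p]
    (hA : StepA.{u} p k) (hB : StepB.{u} p k) {K : Type w} [Group K] {𝓔 : Set (Subgroup K)}
    (hred : BAWN.{u} p k (fun L _ D => ∃ E ∈ 𝓔, Fg.CPair p D E))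
    (L : Type u) [Group L] [Finite L] (b : MonoidAlgebra k L) (hb : IsBlock ⊤ b)
    (hC : PairCond (fun L _ D => ∃ E ∈ 𝓔, Fg.CPair p D E) p b) : NavarroEq p ⊤ ⊤ b := by
  refine baw_of_reduced5 (p := p) (k := k) (fun H _ D => ∃ E ∈ 𝓔, Fg.CPair p D E) ?_ ?_ ?_ _ _ L
    rfl rfl b hb hC
  · intro H H' _ _ _ P P' _ h1 h2
    obtain ⟨K, f, hf, hf1, -⟩ := h1
    obtain ⟨E, hE, h2⟩ := h2
    exact ⟨E, hE, h2.of_section ⟨K, f, hf, hf1⟩⟩
  · intro H A _ _ _ _ N _ ψ P P' _ hmax hψ hψZ hψp _ hP h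
    obtain ⟨E, hE, h⟩ := h
    exact ⟨E, hE, h.of_quot hmax ψ hψ hψZ hψp hP⟩
  · intro H _ _ b' hb' hC' hD' IH
    have : Fintype H := Fintype.ofFinite H
    by_contra hno
    have hI : BelowP p k H b' := by
      intro H' _ _ hi b'' hb'' hU
      apply IH H' hi.le (Or.inl hi) b'' hb''
      intro P' hP' hbr'
      obtain ⟨P, h1, h2, h3⟩ := hU P' hP' hbr'
      obtain ⟨E, hE, h4⟩ := hC' P h1 h2
      exact ⟨E, hE, cpair_of_ov hb'.central h3 h4⟩
    refine hno (hred H b' hb' (aqs_n hA hB hb' hD' hI hno) ?_ ?_)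
    · obtain ⟨P, h1, h2, h3⟩ := hD'
      obtain ⟨D, h4, h5⟩ := exists_defect (p := p) (N := ⊤) le_top h1 h2
      exact ⟨D, h4, fun h0 => h3 (cyc_of_le h5 h0)⟩
    · intro D hD
      exact hC' D hD.isPGroup hD.br

/-- the condition of the local theorems -/
def RedCondN (p : ℕ) (k : Type v) [Field k] {Γ : Type u} [Group Γ] (K : Subgroup Γ)
    (𝓔 : Set (Subgroup Γ)) : Prop :=
  ∃ M : Subgroup Γ, M ≤ K ∧ K ≤ Subgroup.normalizer (M : Set Γ) ∧ PSolv p ↥(sec K M) ∧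
    BAWN.{u, v} p k (fun L _ D => ∃ E ∈ 𝓔, Fg.CPair p D ((E ⊓ M).subgroupOf K))

theorem RedCondN.red {p : ℕ} [Fact p.Prime] {k : Type v} [Field k] [IsAlgClosed k] [CharP k p]
    (hA : StepA.{u} p k) (hB : StepB.{u} p k) {Γ : Type u} [Group Γ] {K : Subgroup Γ}
    {𝓔 : Set (Subgroup Γ)} (h : RedCondN p k K 𝓔) : Yy.RedCond4 p k K 𝓔 := by
  obtain ⟨M, h1, h2, h3, h4⟩ := h
  refine ⟨M, h1, h2, h3, fun L _ _ b hb hnc hD => ?_⟩
  have : Fintype L := Fintype.ofFinite L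
  have h5 : BAWN.{u, v} p k (fun L _ D =>
      ∃ E ∈ {E' | ∃ E ∈ 𝓔, E' = (E ⊓ M).subgroupOf K}, Fg.CPair p D E) := by
    intro L' _ _ b' a1 a2 a3 a4
    apply h4 L' b' a1 a2 a3
    intro D hD'
    obtain ⟨_, ⟨E, hE, rfl⟩, h6⟩ := a4 D hD'
    exact ⟨E, hE, h6⟩
  refine baw_of_aqsN hA hB h5 L b hb.block ?_
  intro P hP hbr
  obtain ⟨D, hD1, hD2⟩ := exists_defect (p := p) (N := ⊤) le_top hP hbr
  obtain ⟨E, hE, h6⟩ := hD D hD1
  exact ⟨_, ⟨E, hE, rfl⟩, h6.of_section (PairSec.of_le hD2)⟩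

end Pool.Agent.Lib.P0c8ca5.Gg
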