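import Mathlib
import Pool.Agent.Lib.P0c8ca5X.AsmF
import Pool.Agent.Lib.P0c8ca5G.Fin

/-!
# Quotients over which the block is supported
-/

set_option autoImplicit false

namespace Pool.Agent.Lib.P0c8ca5.Gg

open MonoidAlgebra Ps Bq Zz Jj Un8

universe u v w

theorem psolv_of_pprime {p : ℕ} {G : Type*} [Group G] [Finite G] (hG : ¬ p ∣ Nat.card G) :
    PSolv p G := by
  refine ⟨1, fun i => if i = 0 then ⊥ else ⊤, ?_, ?_, ?_, ?_⟩
  · simp
  · simp
  · intro i
    show (if i = 0 then (⊥ : Subgroup G) else ⊤).Normal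
    by_cases h : i = 0
    · rw [if_pos h]
      infer_instance
    · rw [if_neg h]
      infer_instance
  · intro i hi
    have h0 : i = 0 := by omega
    subst h0
    refine ⟨by simp, Or.inr fun x _ => ⟨Nat.card G, hG, ?_⟩⟩
    rw [pow_card_eq_one']
    exact Subgroup.one_mem _

/-- the quotients by the subgroups above `S` over which `b` is supported are abelian -/
theorem comm_of_two {p : ℕ} [Fact p.Prime] {k : Type*} [Field k] {L : Type*} [Group L] [Finite L]
    {b : MonoidAlgebra k L} (h : Reduced4 p b) {S : Subgroup L} (_hS : S.Normal)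
    (hp : ¬ p ∣ (S ⊔ Subgroup.center L).index) {N : Subgroup L} (hN : N.Normal) (hSN : S ≤ N)
    (hb : ∀ x, b.coeff x ≠ 0 → x ∈ N) (x y : L) : x * y * x⁻¹ * y⁻¹ ∈ N := by
  have hR : Rd p L := ⟨h.core, h.central⟩
  have hpZ := hR.not_dvd_center
  have h1 : ¬ p ∣ (N ⊔ Subgroup.center L).index := fun h1 =>
    hp (h1.trans (Subgroup.index_dvd_of_le (sup_le_sup_right hSN _)))
  have h2 : ¬ p ∣ N.index := by
    rw [← Subgroup.relIndex_mul_index (le_sup_left : N ≤ N ⊔ Subgroup.center L)]
    intro h3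
    rcases (Nat.Prime.dvd_mul Fact.out).1 h3 with h4 | h4
    · apply hpZ
      rw [sup_comm, Subgroup.relIndex_sup_right] at h4
      exact h4.trans (Subgroup.relIndex_dvd_card _ _)
    · exact h1 h4
  have h3 : PSolv p (L ⧸ N) := psolv_of_pprime h2
  obtain ⟨x', y', h4, h5⟩ := h.two N h3 hb
  have h6 := CombAux.all_comm (N := N) (K := ⊤) le_top
    (le_of_eq (Subgroup.normalizer_eq_top N).symm) (z := (x', y')) (Subgroup.mem_top _)
    (Subgroup.mem_top _) h4 h5
  exact h6 y (Subgroup.mem_top _) x (Subgroup.mem_top _)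

end Pool.Agent.Lib.P0c8ca5.Gg
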