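import Mathlib
import Pool.Agent.Lib.P0c8ca5M.IsoD

/-!
# The isolation for a general group

`TwZ p M D f`: the alternating sums vanish for all twisted central extensions of the subgroups above `M`.  Then `T1 p M D f x y = 0` for
all `x`, `y`.
-/

set_option autoImplicit false

namespace Pool.Agent.Lib.P0c8ca5.Xx

open MonoidAlgebra Ps Bq Zz Gg Hh Mm

universe u v

variable {p : ℕ} {k : Type v} [Field k] {A : Type u} [Group A] {M Y : Subgroup A} {m : ℕ}
  [NeZero m] {τ : TD M Y m} {χ : AddChar (ZMod m) k}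

/-- the alternating sums vanish for the twisted central extensions -/
def TwZ (p : ℕ) {k : Type v} [Field k] {A : Type u} [Group A] [Fintype A] (M : Subgroup A)
    (D : Finset (Subgroup A)) (f : MonoidAlgebra k A) : Prop :=
  ∀ (Y : Subgroup A), M ≤ Y → ∀ (m : ℕ) [NeZero m], ¬ p ∣ m → ∀ (τ : TD M Y m)
    (χ : AddChar (ZMod m) k), Bl (⊤ : Subgroup (Tw τ)) (smc τ D) (twA τ χ f) = 0

theorem sum_det [Fact p.Prime] [CharP k p] [IsAlgClosed k] [Fintype A] [Fintype ↥Y]
    {b : MonoidAlgebra k A} {D : Finset (Subgroup A)} (hDM : ∀ Q ∈ D, Q ≤ M)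
    (hDp : ∀ Q ∈ D, IsPGroup p Q) (hZ : TwZ p M D b) (hbI : InvBy (⊤ : Subgroup A) b)
    (hbb : b * b = b) (hM : M.Normal) (hb : SuppIn M b)
    (hab : ∀ x y : A, y * x * y⁻¹ * x⁻¹ ∈ M) (hp : ¬ p ∣ M.index) (hMY : M ≤ Y)
    (hpm : ¬ p ∣ m) (τ : TD M Y m) (χ : AddChar (ZMod m) k) :
    ∑ u : ↥Y, ∑ v : ↥Y, WittVector.teichmuller p (χ (τ.det u v)) *
      dl p M D b (u : A) (v : A) = 0 := by
  classical
  have hm : (m : k) ≠ 0 := by
    intro h0
    exact hpm ((CharP.cast_eq_zero_iff k p m).1 h0)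
  have hn : Y ≤ Subgroup.normalizer (M : Set A) := by
    rw [Subgroup.normalizer_eq_top]
    exact le_top
  have h0 := hZ Y hMY m hpm τ χ
  have hMn : (M.comap (Tw.pr τ)).Normal := hM.comap _
  have htop : (⊤ : Subgroup (Tw τ)) = (⊤ : Subgroup A).comap (Tw.pr τ) :=
    (Subgroup.comap_top _).symm
  have hfi : InvBy (⊤ : Subgroup (Tw τ)) (twA τ χ b) := by
    rw [htop]
    exact twA_invBy hn hb hbI
  have hff : twA τ χ b * twA τ χ b = twA τ χ b := by
    rw [twA_mul hMY hm hb, hbb]
  have h1 := bl_pairs (p := p) (M := M.comap (Tw.pr τ)) (Y := ⊤) le_top (by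
      rw [Subgroup.normalizer_eq_top]) (D := smc τ D)
    (fun Q hQ => by
      obtain ⟨P, hP, rfl⟩ := mem_smc.1 hQ
      exact ⟨le_top, smap_isPGroup (hDp P hP)⟩) (twA_suppIn hb) hfi hff
  rw [h0, Int.cast_zero, mul_zero] at h1
  -- all pairs occur
  have h2 : (prs (M.comap (Tw.pr τ)) (⊤ : Subgroup (Tw τ))).filter
      (fun z => Prm p (M.comap (Tw.pr τ)) z.1) = Finset.univ := by
    ext z
    simp only [Finset.mem_filter, mem_prs, Finset.mem_univ, iff_true]
    refine ⟨⟨Subgroup.mem_top _, Subgroup.mem_top _, hab _ _⟩, M.index, hp, ?_⟩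
    show ((z.1 ^ M.index : Tw τ).g : A) ∈ M
    have h3 : ((z.1 ^ M.index : Tw τ).g : A) = (z.1.g : A) ^ M.index := map_pow (Tw.pr τ) _ _
    rw [h3]
    exact M.pow_index_mem _
  rw [h2, ← Finset.univ_product_univ, Finset.sum_product] at h1
  have h3 : ∀ a b' : Tw τ, dl p (M.comap (Tw.pr τ)) (smc τ D) (twA τ χ b) a b' =
      WittVector.teichmuller p (χ (τ.det a.g b'.g)) * dl p M D b (a.g : A) b'.g :=
    fun a b' => dl_tw hm hMY hn hDM b a b'
  simp only [h3] at h1
  -- sum over the fibres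
  have h4 : ∀ F : ↥Y → WittVector p k, ∑ a : Tw τ, F a.g = (m : WittVector p k) * ∑ u : ↥Y, F u := by
    intro F
    rw [← (Tw.equivProd τ).symm.sum_comp, Fintype.sum_prod_type]
    have h6 : ∀ (g : ↥Y) (c : ZMod m), F ((Tw.equivProd τ).symm (g, c)).g = F g :=
      fun _ _ => rfl
    rw [Finset.sum_congr rfl fun g _ => Finset.sum_congr rfl fun c _ => h6 g c]
    simp only [Finset.sum_const, Finset.card_univ, ZMod.card, nsmul_eq_mul]
    rw [← Finset.mul_sum]
  have h5 : ∀ a : Tw τ, ∑ b' : Tw τ, WittVector.teichmuller p (χ (τ.det a.g b'.g)) *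
      dl p M D b (a.g : A) b'.g = (m : WittVector p k) * ∑ v : ↥Y,
        WittVector.teichmuller p (χ (τ.det a.g v)) * dl p M D b (a.g : A) v := fun a =>
    h4 (fun v => WittVector.teichmuller p (χ (τ.det a.g v)) * dl p M D b (a.g : A) v)
  rw [Finset.sum_congr rfl fun a _ => h5 a, ← Finset.mul_sum,
    h4 (fun u => ∑ v : ↥Y, WittVector.teichmuller p (χ (τ.det u v)) * dl p M D b (u : A) v)] at h1
  have hmW : (m : WittVector p k) ≠ 0 := by
    intro h6
    have h7 : ((m : ℤ) : WittVector p k) = 0 := by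
      rw [Int.cast_natCast]
      exact h6
    have h8 := Gg.int_inj p h7
    exact NeZero.ne m (by exact_mod_cast h8)
  have h9 : (m : WittVector p k) * ((m : WittVector p k) * ∑ u : ↥Y, ∑ v : ↥Y,
      WittVector.teichmuller p (χ (τ.det u v)) * dl p M D b (u : A) v) = 0 := h1.symm
  rcases mul_eq_zero.1 h9 with h10 | h10
  · exact absurd h10 hmW
  · rcases mul_eq_zero.1 h10 with h11 | h11
    · exact absurd h11 hmW
    · exact h11

/-- the pairs of determinant `1` -/
theorem sum_det_one [Fact p.Prime] [CharP k p] [IsAlgClosed k] [Fintype A] [Fintype ↥Y]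
    {b : MonoidAlgebra k A} {D : Finset (Subgroup A)} (hDM : ∀ Q ∈ D, Q ≤ M)
    (hDp : ∀ Q ∈ D, IsPGroup p Q) (hZ : TwZ p M D b) (hbI : InvBy (⊤ : Subgroup A) b)
    (hbb : b * b = b) (hM : M.Normal) (hb : SuppIn M b)
    (hab : ∀ x y : A, y * x * y⁻¹ * x⁻¹ ∈ M) (hp : ¬ p ∣ M.index) (hMY : M ≤ Y)
    (hpm : ¬ p ∣ m) (τ : TD M Y m) :
    ∑ u : ↥Y, ∑ v : ↥Y, (if τ.det u v = 1 then dl p M D b (u : A) (v : A) else 0) = 0 := by
  classical
  -- a primitive root of unity
  have hm : (m : k) ≠ 0 := by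
    intro h0
    exact hpm ((CharP.cast_eq_zero_iff k p m).1 h0)
  have : NeZero (m : k) := ⟨hm⟩
  obtain ⟨ζ, hζ⟩ : ∃ ζ : k, IsPrimitiveRoot ζ m := by
    have := HasEnoughRootsOfUnity.exists_primitiveRoot k m
    exact this
  let χ : ℕ → AddChar (ZMod m) k := fun r =>
    AddChar.zmodChar m (ζ := ζ ^ r) (by rw [← pow_mul, mul_comm, pow_mul, hζ.pow_eq_one, one_pow])
  have hχ : ∀ r (d : ZMod m), χ r d = (ζ ^ d.val) ^ r := by
    intro r d
    show AddChar.zmodChar m _ d = _
    rw [AddChar.zmodChar_apply, ← pow_mul, ← pow_mul, mul_comm]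
  let w : WittVector p k := WittVector.teichmuller p ζ
  have hw : IsPrimitiveRoot w m := hζ.map_of_injective (fun a b hab' => by
    have h1 := congrArg (fun z => WittVector.coeff z 0) hab'
    simpa [WittVector.teichmuller_coeff_zero] using h1)
  have key : ∀ r, ∑ u : ↥Y, ∑ v : ↥Y, (w ^ (τ.det u v).val) ^ r * dl p M D b (u : A) (v : A) = 0 := by
    intro r
    rw [← sum_det hDM hDp hZ hbI hbb hM hb hab hp hMY hpm τ (χ r)]
    refine Finset.sum_congr rfl fun u _ => Finset.sum_congr rfl fun v _ => ?_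
    rw [hχ, map_pow, map_pow]
  have hmpos : 0 < m := Nat.pos_of_ne_zero (NeZero.ne m)
  -- the inverse of `w`
  let w' : WittVector p k := w ^ (m - 1)
  have hww : w' * w = 1 := by
    show w ^ (m - 1) * w = 1
    rw [← pow_succ, Nat.sub_add_cancel hmpos, hw.pow_eq_one]
  have hgeo : ∀ d : ZMod m, ∑ r ∈ Finset.range m, (w' * w ^ d.val) ^ r =
      if d = 1 then (m : WittVector p k) else 0 := by
    intro d
    by_cases hd : d = 1
    · rw [if_pos hd]
      have h1 : w' * w ^ d.val = 1 := by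
        have h2 : w ^ d.val = w := by
          rw [hd]
          rcases Nat.lt_or_ge 1 m with h3 | h3
          · have : Fact (1 < m) := ⟨h3⟩
            rw [ZMod.val_one, pow_one]
          · have h4 : m = 1 := le_antisymm h3 hmpos
            have h5 : w = 1 := by
              have h6 := hw.pow_eq_one
              rwa [h4, pow_one] at h6
            rw [h5, one_pow]
        rw [h2, hww]
      rw [h1]
      simp
    · rw [if_neg hd]
      have h1 : w' * w ^ d.val - 1 ≠ 0 := by
        intro h2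
        apply hd
        have h3 : w' * w ^ d.val = w' * w := by rw [hww]; exact sub_eq_zero.1 h2
        have h4 : w' ≠ 0 := left_ne_zero_of_mul (a := w') (b := w) (by rw [hww]; exact one_ne_zero)
        have h5 : w ^ d.val = w ^ 1 := by rw [pow_one]; exact mul_left_cancel₀ h4 h3
        rcases Nat.lt_or_ge 1 m with h6 | h6
        · have h7 := hw.pow_inj (ZMod.val_lt d) h6 h5
          have h8 : ((d.val : ℕ) : ZMod m) = ((1 : ℕ) : ZMod m) := by rw [h7]
          rwa [ZMod.natCast_zmod_val, Nat.cast_one] at h8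
        · have h7 : m = 1 := le_antisymm h6 hmpos
          subst h7
          exact Subsingleton.elim _ _
      have h2 : (w' * w ^ d.val - 1) * ∑ r ∈ Finset.range m, (w' * w ^ d.val) ^ r = 0 := by
        rw [mul_geom_sum]
        have h3 : (w' * w ^ d.val) ^ m = 1 := by
          show (w ^ (m - 1) * w ^ d.val) ^ m = 1
          rw [← pow_add, ← pow_mul, mul_comm, pow_mul, hw.pow_eq_one, one_pow]
        rw [h3, sub_self]
      rcases mul_eq_zero.1 h2 with h3 | h3
      · exact absurd h3 h1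
      · exact h3
  have h7 : (m : WittVector p k) * ∑ u : ↥Y, ∑ v : ↥Y,
      (if τ.det u v = 1 then dl p M D b (u : A) (v : A) else 0) = 0 := by
    have h8 : ∑ r ∈ Finset.range m, w' ^ r * ∑ u : ↥Y, ∑ v : ↥Y,
        (w ^ (τ.det u v).val) ^ r * dl p M D b (u : A) (v : A) = 0 := by
      refine Finset.sum_eq_zero fun r _ => ?_
      rw [key r, mul_zero]
    refine Eq.trans ?_ h8
    simp only [Finset.mul_sum]
    symm
    rw [Finset.sum_comm]
    refine Finset.sum_congr rfl fun u _ => ?_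
    rw [Finset.sum_comm]
    refine Finset.sum_congr rfl fun v _ => ?_
    have h9 : ∀ r, w' ^ r * ((w ^ (τ.det u v).val) ^ r * dl p M D b (u : A) (v : A)) =
        (w' * w ^ (τ.det u v).val) ^ r * dl p M D b (u : A) (v : A) := by
      intro r
      rw [mul_pow, mul_assoc]
    rw [Finset.sum_congr rfl fun r _ => h9 r, ← Finset.sum_mul, hgeo]
    by_cases hd : τ.det u v = 1
    · rw [if_pos hd, if_pos hd]
    · rw [if_neg hd, if_neg hd, zero_mul, mul_zero]
  have hmW : (m : WittVector p k) ≠ 0 := by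
    intro h6
    have h7 : ((m : ℤ) : WittVector p k) = 0 := by
      rw [Int.cast_natCast]
      exact h6
    have h8 := Gg.int_inj p h7
    exact NeZero.ne m (by exact_mod_cast h8)
  rcases mul_eq_zero.1 h7 with h8 | h8
  · exact absurd h8 hmW
  · exact h8

/-- **isolation** -/
theorem T1_zero_of_twz [Fact p.Prime] [CharP k p] [IsAlgClosed k] [Fintype A] {b : MonoidAlgebra k A}
    {D : Finset (Subgroup A)} (hDM : ∀ Q ∈ D, Q ≤ M) (hDp : ∀ Q ∈ D, IsPGroup p Q)
    (hTZ : TwZ p M D b) (hbI : InvBy (⊤ : Subgroup A) b) (hbb : b * b = b) (hM : M.Normal)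
    (hb : SuppIn M b) (hab : ∀ x y : A, y * x * y⁻¹ * x⁻¹ ∈ M) (hp : ¬ p ∣ M.index)
    (x y : A) : T1 p M D b x y = 0 := by
  classical
  induction hn : Nat.card ↥(M ⊔ Subgroup.closure {x, y}) using Nat.strong_induction_on
    generalizing x y with
  | _ n ih =>
  have hMY : M ≤ M ⊔ Subgroup.closure {x, y} := le_sup_left
  obtain ⟨m, _, τ, X, Z, hX, hZ, hpm, h1, h2, h3, h4, hT⟩ :=
    exists_td (p := p) (k := k) hM hab x y hp
  have hs := sum_det_one hDM hDp hTZ hbI hbb hM hb hab hp hMY hpm τ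
  have hs2 := Mm.sum_T1 (p := p) (k := k) hMY D b (fun u v => τ.det u v = 1)
    (fun u u' v v' hu hv => by rw [det_congr τ hu hv])
  rw [hs, mul_zero, mul_zero] at hs2
  -- the pairs of determinant one have the value of `(x, y)` or `0`
  let G : ↥(M ⊔ Subgroup.closure {x, y}) → ↥(M ⊔ Subgroup.closure {x, y}) → Prop :=
    fun u v => τ.det u v = 1 ∧
      M ⊔ Subgroup.closure {(u : A), (v : A)} = M ⊔ Subgroup.closure {x, y}
  have h5 : ∀ u v : ↥(M ⊔ Subgroup.closure {x, y}),
      (if τ.det u v = 1 then T1 p M D b (u : A) (v : A) else 0) =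
        if G u v then T1 p M D b x y else 0 := by
    intro u v
    by_cases hd : τ.det u v = 1
    · rw [if_pos hd]
      by_cases hg : M ⊔ Subgroup.closure {(u : A), (v : A)} = M ⊔ Subgroup.closure {x, y}
      · rw [if_pos ⟨hd, hg⟩]
        exact hT D b u v hg hd
      · rw [if_neg fun h => hg h.2]
        have hle : M ⊔ Subgroup.closure {(u : A), (v : A)} ≤ M ⊔ Subgroup.closure {x, y} := by
          refine sup_le le_sup_left ?_
          rw [Subgroup.closure_le]
          rintro z (rfl | rfl)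
          · exact u.2
          · exact v.2
        have hlt := lt_of_le_of_ne hle hg
        refine ih _ ?_ (u : A) (v : A) rfl
        rw [← hn]
        exact lt_of_le_of_ne (Subgroup.card_le_of_le hle) fun h0 =>
          hg (Subgroup.eq_of_le_of_card_ge hle h0.ge)
    · rw [if_neg hd, if_neg fun h => hd h.1]
  have h6 : ∑ u : ↥(M ⊔ Subgroup.closure {x, y}), ∑ v : ↥(M ⊔ Subgroup.closure {x, y}),
      (if G u v then T1 p M D b x y else 0) = 0 := by
    refine Eq.trans ?_ hs2
    exact Finset.sum_congr rfl fun u _ => Finset.sum_congr rfl fun v _ => (h5 u v).symm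
  have h7 : ∑ z : ↥(M ⊔ Subgroup.closure {x, y}) × ↥(M ⊔ Subgroup.closure {x, y}),
      (if G z.1 z.2 then T1 p M D b x y else 0) = 0 := by
    rw [Fintype.sum_prod_type]
    exact h6
  rw [← Finset.sum_filter, Finset.sum_const, nsmul_eq_mul] at h7
  have hGx : G X Z := by
    refine ⟨?_, by rw [hX, hZ]⟩
    rw [TD.det, h1, h2, h3, h4]
    ring
  have hpos : (Finset.univ.filter fun z : ↥(M ⊔ Subgroup.closure {x, y}) ×
      ↥(M ⊔ Subgroup.closure {x, y}) => G z.1 z.2).card ≠ 0 := by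
    rw [Finset.card_ne_zero]
    exact ⟨(X, Z), Finset.mem_filter.2 ⟨Finset.mem_univ _, hGx⟩⟩
  rcases mul_eq_zero.1 h7 with h8 | h8
  · exfalso
    apply hpos
    have h9 : (((Finset.univ.filter fun z : ↥(M ⊔ Subgroup.closure {x, y}) ×
      ↥(M ⊔ Subgroup.closure {x, y}) => G z.1 z.2).card : ℤ) : WittVector p k) = 0 := by
      rw [Int.cast_natCast]
      exact h8
    have h10 := Gg.int_inj p h9
    exact_mod_cast h10
  · exact h8

end Pool.Agent.Lib.P0c8ca5.Xx
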